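import Mathlib

/-!
# The determinant lemma and the corank of the Sylvester matrix (MP_49ddc8_ag, general version, sections 4.1, 4.2)
-/

set_option autoImplicit false

open Polynomial Matrix

namespace BSCG

/-- A square matrix over `k[T]` whose value at `e` has `g` independent vectors in its kernel: `(T - e)^g` divides the determinant. -/
theorem det_lemma {k : Type*} [Field k] {N g : ℕ} (M : Matrix (Fin N) (Fin N) k[X]) (e : k) (w : Fin g → (Fin N → k))
    (hw : LinearIndependent k w) (hker : ∀ i, (M.map (eval e)) *ᵥ (w i) = 0) : (X - C e) ^ g ∣ M.det := by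
  classical
  let b := Module.Basis.extend hw.linearIndepOn_id
  have hcard0 := Module.finrank_eq_card_basis' b
  have hfin : Finite (hw.linearIndepOn_id.extend (Set.subset_univ (Set.range w))) := Module.Finite.finite_basis b
  let _ : Fintype (hw.linearIndepOn_id.extend (Set.subset_univ (Set.range w))) := Fintype.ofFinite _
  have hcard : Fintype.card (hw.linearIndepOn_id.extend (Set.subset_univ (Set.range w))) = N := by
    have h1 := Module.finrank_eq_card_basis b
    rw [Module.finrank_fin_fun] at h1
    exact h1.symm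
  let ε : (hw.linearIndepOn_id.extend (Set.subset_univ (Set.range w))) ≃ Fin N := Fintype.equivFinOfCardEq hcard
  let b' := b.reindex ε
  have hb' : ∀ j, b' j = (ε.symm j : Fin N → k) := by
    intro j
    simp [b', b]
  let U : Matrix (Fin N) (Fin N) k := (Pi.basisFun k (Fin N)).toMatrix b'
  have hUe : ∀ i j, U i j = b' j i := by
    intro i j
    simp [U, Module.Basis.toMatrix_apply]
  have hU : IsUnit U.det := by
    have h1 := (Pi.basisFun k (Fin N)).isUnit_det b'
    rw [Module.Basis.det_apply] at h1
    exact h1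
  let S : Finset (Fin N) := Finset.univ.filter (fun j => b' j ∈ Set.range w)
  have hS : S.card = g := by
    have h1 : S = Finset.univ.image (fun t : Fin g => ε ⟨w t, hw.linearIndepOn_id.subset_extend _ (Set.mem_range_self t)⟩) := by
      ext j
      simp only [S, Finset.mem_filter, Finset.mem_univ, true_and, Finset.mem_image, hb']
      constructor
      · rintro ⟨t, ht⟩
        refine ⟨t, ?_⟩
        rw [← Equiv.eq_symm_apply]
        exact Subtype.ext ht
      · rintro ⟨t, ht⟩
        refine ⟨t, ?_⟩
        rw [← ht, Equiv.symm_apply_apply]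
    rw [h1, Finset.card_image_of_injective, Finset.card_univ, Fintype.card_fin]
    intro s t hst
    have h2 := ε.injective hst
    exact hw.injective (congrArg Subtype.val h2)
  let D : Fin N → k[X] := fun j => if b' j ∈ Set.range w then X - C e else 1
  have hD : ∏ j, D j = (X - C e) ^ g := by
    rw [Finset.prod_ite, Finset.prod_const_one, mul_one, Finset.prod_const]
    exact congrArg _ hS
  have hdiv : ∀ i j, D j ∣ (M * U.map C) i j := by
    intro i j
    by_cases hj : b' j ∈ Set.range w
    · have h1 : D j = X - C e := if_pos hj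
      rw [h1, dvd_iff_isRoot, IsRoot.def]
      obtain ⟨t, ht⟩ := hj
      have h2 := congrFun (hker t) i
      rw [Matrix.mul_apply, eval_finsetSum]
      rw [Matrix.mulVec, dotProduct] at h2
      simp only [Matrix.map_apply, eval_mul, eval_C, hUe, ← ht] at h2 ⊢
      exact h2
    · have h1 : D j = 1 := if_neg hj
      rw [h1]
      exact one_dvd _
  choose M'' hM'' using hdiv
  have h1 : (M * U.map C).det = (∏ j, D j) * (Matrix.of M'').det := by
    rw [← Matrix.det_mul_row]
    congr 1
    ext1 i j
    rw [hM'']
    rfl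
  rw [Matrix.det_mul, hD] at h1
  have h2 : (U.map (C : k →+* k[X])).det = C U.det := by
    have := RingHom.map_det (C : k →+* k[X]) U
    exact this.symm
  have h3 : IsUnit (U.map (C : k →+* k[X])).det := by
    rw [h2]
    exact hU.map C
  have h4 : (X - C e) ^ g ∣ M.det * (U.map (C : k →+* k[X])).det := ⟨_, h1⟩
  exact (h3.dvd_mul_right).1 h4

theorem ker_toMatrix {k V W ι : Type*} [Field k] [AddCommGroup V] [Module k V] [AddCommGroup W] [Module k W] {N N' : ℕ}
    (b₁ : Module.Basis (Fin N) k V) (b₂ : Module.Basis (Fin N') k W) (F : V →ₗ[k] W) (x : ι → V) (hx : LinearIndependent k x)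
    (h : ∀ i, F (x i) = 0) : ∃ w : ι → (Fin N → k), LinearIndependent k w ∧ ∀ i, (LinearMap.toMatrix b₁ b₂ F) *ᵥ (w i) = 0 := by
  refine ⟨fun i => ⇑(b₁.repr (x i)), ?_, ?_⟩
  · exact hx.map' b₁.equivFun.toLinearMap (LinearEquiv.ker b₁.equivFun)
  · intro i
    rw [LinearMap.toMatrix_mulVec_repr, h, map_zero]
    rfl

/-- the Sylvester matrix of `f`, `g` (formal degrees `m`, `n`) has corank at least `deg gcd (f, g)` -/
theorem syl_corank {k : Type*} [Field k] [DecidableEq k] (f g : k[X]) (m n : ℕ) (hf : f.natDegree ≤ m) (hg : g.natDegree ≤ n) (hf0 : f ≠ 0) :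
    ∃ w : Fin (EuclideanDomain.gcd f g).natDegree → (Fin (m + n) → k), LinearIndependent k w ∧
      ∀ i, (sylvester f g m n) *ᵥ (w i) = 0 := by
  classical
  set d := EuclideanDomain.gcd f g with hd
  obtain ⟨f1, hf1⟩ : d ∣ f := EuclideanDomain.gcd_dvd_left f g
  obtain ⟨g1, hg1⟩ : d ∣ g := EuclideanDomain.gcd_dvd_right f g
  have hd0 : d ≠ 0 := by
    intro h
    rw [h, zero_mul] at hf1
    exact hf0 hf1
  have hf10 : f1 ≠ 0 := by
    intro h
    rw [h, mul_zero] at hf1
    exact hf0 hf1
  have hp : ∀ i : Fin d.natDegree, f1 * X ^ (i : ℕ) ∈ degreeLT k m := by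
    intro i
    rw [mem_degreeLT]
    have h1 : (f1 * X ^ (i : ℕ)).natDegree < m := by
      rw [natDegree_mul hf10 (pow_ne_zero _ X_ne_zero), natDegree_X_pow]
      have h2 : f.natDegree = d.natDegree + f1.natDegree := by
        conv_lhs => rw [hf1]
        exact natDegree_mul hd0 hf10
      have h3 := i.2
      omega
    exact (degree_le_natDegree).trans_lt (by exact_mod_cast h1)
  have hq : ∀ i : Fin d.natDegree, -(g1 * X ^ (i : ℕ)) ∈ degreeLT k n := by
    intro i
    rw [Submodule.neg_mem_iff, mem_degreeLT]
    by_cases hg10 : g1 = 0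
    · rw [hg10, zero_mul, degree_zero]
      exact WithBot.bot_lt_coe n
    · have h1 : (g1 * X ^ (i : ℕ)).natDegree < n := by
        rw [natDegree_mul hg10 (pow_ne_zero _ X_ne_zero), natDegree_X_pow]
        have h2 : g.natDegree = d.natDegree + g1.natDegree := by
          conv_lhs => rw [hg1]
          exact natDegree_mul hd0 hg10
        have h3 := i.2
        omega
      exact (degree_le_natDegree).trans_lt (by exact_mod_cast h1)
  let x : Fin d.natDegree → (degreeLT k m × degreeLT k n) := fun i => (⟨_, hp i⟩, ⟨_, hq i⟩)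
  have hx : LinearIndependent k x := by
    apply LinearIndependent.of_comp ((degreeLT k m).subtype.comp (LinearMap.fst k (degreeLT k m) (degreeLT k n)))
    have h2 : (((degreeLT k m).subtype.comp (LinearMap.fst k (degreeLT k m) (degreeLT k n))) ∘ x) =
        (LinearMap.mulLeft k f1) ∘ (fun i : Fin d.natDegree => (X : k[X]) ^ (i : ℕ)) := by
      ext1 i
      rfl
    rw [h2]
    apply LinearIndependent.map'
    · have h3 := (Polynomial.basisMonomials k).linearIndependent.comp (fun i : Fin d.natDegree => (i : ℕ)) Fin.val_injective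
      have h4 : ((Polynomial.basisMonomials k) ∘ fun i : Fin d.natDegree => (i : ℕ)) = fun i : Fin d.natDegree => (X : k[X]) ^ (i : ℕ) := by
        ext1 i
        simp [Polynomial.coe_basisMonomials, Polynomial.monomial_one_right_eq_X_pow]
      rw [h4] at h3
      exact h3
    · rw [LinearMap.ker_eq_bot']
      intro y hy
      simp only [LinearMap.mulLeft_apply] at hy
      exact (mul_eq_zero.1 hy).resolve_left hf10
  have h0 : ∀ i, sylvesterMap f g hf hg (x i) = 0 := by
    intro i
    apply Subtype.ext
    rw [sylvesterMap_apply_coe]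
    show f * (-(g1 * X ^ (i : ℕ))) + g * (f1 * X ^ (i : ℕ)) = 0
    rw [hf1, hg1]
    ring
  rw [← toMatrix_sylvesterMap' f g hf hg]
  exact ker_toMatrix _ _ _ x hx h0

end BSCG
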