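import Pool.Agent.Lib_MP_49ddc8_g.Defs
import Pool.Agent.Lib_MP_49ddc8_g.Counts

/-!
# [A1] determinants of polynomial matrices  (text 4.1, 4.2)

`pow_dvd_det`: choose a basis of `F^N` whose first `g` vectors are in the kernel of `M(e)`, let `B` be the invertible constant matrix with these columns. The first `g` columns of `M * B` vanish at `e`, so they
are divisible by `X - C e`; `det (M * B) = det M * det B`.
-/

set_option autoImplicit false

open Polynomial

namespace BSCG

theorem pow_dvd_det {F : Type} [Field F] {N : ℕ} (M : Matrix (Fin N) (Fin N) F[X]) (e : F) (g : ℕ)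
    (hg : g ≤ Module.finrank F (LinearMap.ker (M.map (eval e)).mulVecLin)) : (X - C e) ^ g ∣ M.det := by
  classical
  let b := Module.finBasis F (LinearMap.ker (M.map (eval e)).mulVecLin)
  refine det_lemma M e (fun i => (b (Fin.castLE hg i) : Fin N → F)) ?_ ?_
  · have h1 := b.linearIndependent.comp (Fin.castLE hg) (Fin.castLE_injective hg)
    exact h1.map' (LinearMap.ker (M.map (eval e)).mulVecLin).subtype (Submodule.ker_subtype _)
  · intro i
    exact LinearMap.mem_ker.1 (b (Fin.castLE hg i)).2

theorem natDegree_det_le {F : Type} [Field F] {N : ℕ} (M : Matrix (Fin N) (Fin N) F[X]) (d : ℕ)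
    (h : ∀ i j, (M i j).natDegree ≤ d) : M.det.natDegree ≤ N * d := by
  classical
  rw [Matrix.det_apply]
  refine natDegree_sum_le_of_forall_le _ _ fun σ _ => ?_
  refine (natDegree_smul_le _ _).trans ?_
  refine (natDegree_prod_le _ _).trans ?_
  refine (Finset.sum_le_card_nsmul _ _ d fun i _ => h _ _).trans ?_
  simp

end BSCG
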