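import Pool.Agent.Lib_MP_49ddc8_g.A1

/-!
# [A2] the resultant of `Q` and its derivative  (text 4.1, 4.2)

`dres_ne_zero`: `Q` is irreducible in `F(X)[Y]` (Gauss: `IsPrimitive.Int..`, `Polynomial.IsPrimitive.irreducible_iff_irreducible_map_fraction_map`), its derivative has smaller degree and is not zero, so they are coprime over
`F(X)`; `resultant_eq_zero_iff`, `resultant_map_map`, `resultant_add_right_deg` for the formal degrees.
`pow_dvd_dres`: with `q = spec Q e`, `gg = gcd q q'`, `q = gg * a`, `q' = gg * b`: the vectors of `(A, B) = (-s b, s a)`, `deg s < deg gg`, are in the kernel of the Sylvester matrix at `e` (`toMatrix_sylvesterMap`, `sylvester_map_map`).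
-/

set_option autoImplicit false

open Polynomial Polynomial.Bivariate

namespace BSCG

variable {F : Type} [Field F]

theorem dres_ne_zero (Q : F[X][Y]) (hirr : Irreducible Q) (hder : derivative Q ≠ 0) : dres Q ≠ 0 := by
  classical
  unfold dres
  have hh : 0 < Q.natDegree := by
    rcases Nat.eq_zero_or_pos Q.natDegree with h | h
    · exfalso
      apply hder
      rw [eq_C_of_natDegree_eq_zero h, derivative_C]
    · exact h
  have hdeg : (derivative Q).natDegree ≤ Q.natDegree - 1 := natDegree_derivative_le Q
  obtain ⟨j, hj⟩ := Nat.exists_eq_add_of_le hdeg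
  rw [hj, resultant_add_right_deg _ _ _ _ _ le_rfl]
  refine mul_ne_zero (pow_ne_zero _ ?_) ?_
  · rw [coeff_natDegree]
    exact leadingCoeff_ne_zero.2 hirr.ne_zero
  · intro h0
    have hinj : Function.Injective (algebraMap F[X] (RatFunc F)) := IsFractionRing.injective _ _
    have hprim : Q.IsPrimitive := hirr.isPrimitive hh.ne'
    have hirr' : Irreducible (Q.map (algebraMap F[X] (RatFunc F))) :=
      (hprim.irreducible_iff_irreducible_map_fraction_map).1 hirr
    have h1 : resultant (Q.map (algebraMap F[X] (RatFunc F))) ((derivative Q).map (algebraMap F[X] (RatFunc F))) = 0 := by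
      rw [natDegree_map_eq_of_injective hinj, natDegree_map_eq_of_injective hinj, resultant_map_map, h0, map_zero]
    rw [resultant_eq_zero_iff] at h1
    apply h1.2
    rw [hirr'.coprime_iff_not_dvd]
    intro h2
    have h3 : (derivative Q).map (algebraMap F[X] (RatFunc F)) ≠ 0 := (Polynomial.map_ne_zero_iff hinj).2 hder
    have h4 := natDegree_le_of_dvd h2 h3
    rw [natDegree_map_eq_of_injective hinj, natDegree_map_eq_of_injective hinj] at h4
    omega

theorem natDegree_dres (Q : F[X][Y]) (n : ℕ) (hn : InLE Q n) : (dres Q).natDegree ≤ n * (2 * Q.natDegree - 1) := by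
  classical
  unfold dres resultant
  have hdeg : (sylvester Q (derivative Q) Q.natDegree (Q.natDegree - 1)).det.natDegree ≤ (Q.natDegree + (Q.natDegree - 1)) * n := by
    apply natDegree_det_le
    intro i j
    have h2 : ∀ l, ((derivative Q).coeff l).natDegree ≤ n := by
      intro l
      rw [coeff_derivative]
      refine natDegree_mul_le.trans ?_
      have h3 : ((l : F[X]) + 1).natDegree = 0 := by
        have : ((l : F[X]) + 1) = ((l + 1 : ℕ) : F[X]) := by push_cast; ring
        rw [this, natDegree_natCast]
      rw [h3, add_zero]
      exact hn _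
    rw [sylvester, Matrix.of_apply]
    induction j using Fin.addCases with
    | left j =>
      rw [Fin.addCases_left]
      split_ifs
      · exact h2 _
      · simp
    | right j =>
      rw [Fin.addCases_right]
      split_ifs
      · exact hn _
      · simp
  refine hdeg.trans ?_
  rw [mul_comm]
  apply Nat.mul_le_mul_left
  omega

theorem pow_dvd_dres (Q : F[X][Y]) (h1 : 1 ≤ Q.natDegree) (e : F) (he : spec Q e ≠ 0) :
    (X - C e) ^ gd (spec Q e) ∣ dres Q := by
  classical
  have hQe' : (derivative Q).map (evalRingHom e) = derivative (spec Q e) := by rw [← derivative_map, spec]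
  have h2 : (spec Q e).natDegree ≤ Q.natDegree := natDegree_map_le
  have h3 : (derivative (spec Q e)).natDegree ≤ Q.natDegree - 1 := by
    rw [← hQe']
    exact natDegree_map_le.trans (natDegree_derivative_le Q)
  obtain ⟨w, hw, hker⟩ := syl_corank (spec Q e) (derivative (spec Q e)) Q.natDegree (Q.natDegree - 1) h2 h3 he
  unfold dres gd resultant
  exact det_lemma (sylvester Q (derivative Q) Q.natDegree (Q.natDegree - 1)) e w hw fun i => by
    have h1 := hker i
    rw [← hQe', spec, sylvester_map_map] at h1
    exact h1

end BSCG
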