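import Pool.Agent.Lib_MP_49ddc8_g.A2

/-!
# [A3] counting simple roots of the specialisations  (text 4.3)
-/

set_option autoImplicit false

open Polynomial Polynomial.Bivariate

namespace BSCG

open scoped Classical in
/-- simple and multiple roots -/
private theorem A3_simple {K : Type*} [Field K] [IsAlgClosed K] (f : K[X])
    (hf : f ≠ 0) :
    f.natDegree ≤ (f.roots.toFinset.filter fun a => f.derivative.eval a ≠ 0).card +
      2 * (EuclideanDomain.gcd f f.derivative).natDegree := by
  set c := EuclideanDomain.gcd f f.derivative with hc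
  have hc0 : c ≠ 0 := by
    intro h
    exact hf (EuclideanDomain.gcd_eq_zero_iff.mp h).1
  have hdeg : f.natDegree = ∑ a ∈ f.roots.toFinset, f.rootMultiplicity a := by
    have h1 := (IsAlgClosed.splits f).natDegree_eq_card_roots
    rw [h1, ← Multiset.toFinset_sum_count_eq]
    exact Finset.sum_congr rfl fun a _ => count_roots f
  set A := f.roots.toFinset.filter fun a => f.derivative.eval a ≠ 0 with hA
  set B := f.roots.toFinset.filter fun a => ¬ f.derivative.eval a ≠ 0 with hB
  have hsplit : ∑ a ∈ f.roots.toFinset, f.rootMultiplicity a =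
      ∑ a ∈ A, f.rootMultiplicity a + ∑ a ∈ B, f.rootMultiplicity a :=
    (Finset.sum_filter_add_sum_filter_not _ _ _).symm
  have hA1 : ∑ a ∈ A, f.rootMultiplicity a ≤ A.card := by
    rw [Finset.card_eq_sum_ones]
    refine Finset.sum_le_sum fun a ha => ?_
    by_contra hlt
    push Not at hlt
    have h1 := (one_lt_rootMultiplicity_iff_isRoot hf).mp hlt
    exact (Finset.mem_filter.mp ha).2 h1.2
  have hB1 : ∑ a ∈ B, f.rootMultiplicity a ≤ 2 * ∑ a ∈ B, (f.rootMultiplicity a - 1) := by
    rw [Finset.mul_sum]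
    refine Finset.sum_le_sum fun a ha => ?_
    have h2 := Finset.mem_filter.mp ha
    have h3 : f.IsRoot a := isRoot_of_mem_roots (Multiset.mem_toFinset.mp h2.1)
    have h4 : (derivative f).IsRoot a := by
      have := h2.2
      push Not at this
      exact this
    have h1 := (one_lt_rootMultiplicity_iff_isRoot hf).mpr ⟨h3, h4⟩
    omega
  have hdvd : ∏ a ∈ B, (X - C a) ^ (f.rootMultiplicity a - 1) ∣ c := by
    refine Finset.prod_dvd_of_coprime ?_ ?_
    · intro a _ b _ hab
      exact (isCoprime_X_sub_C_of_isUnit_sub (sub_ne_zero.mpr hab).isUnit).pow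
    · intro a ha
      refine EuclideanDomain.dvd_gcd ?_ ?_
      · exact (pow_dvd_pow _ (Nat.sub_le _ _)).trans (pow_rootMultiplicity_dvd f a)
      · obtain ⟨g, hg⟩ := pow_rootMultiplicity_dvd f a
        have h1 : (X - C a) ^ (f.rootMultiplicity a - 1) ∣
            derivative ((X - C a) ^ f.rootMultiplicity a * g) := by
          rw [derivative_mul, derivative_X_sub_C_pow]
          refine dvd_add ?_ ?_
          · rw [mul_assoc]
            exact Dvd.dvd.mul_left (Dvd.intro _ rfl) _
          · exact ((pow_dvd_pow _ (Nat.sub_le _ _)).trans (Dvd.intro _ rfl))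
        rw [← hg] at h1
        exact h1
  have hB2 : ∑ a ∈ B, (f.rootMultiplicity a - 1) ≤ c.natDegree := by
    have h1 := natDegree_le_of_dvd hdvd hc0
    rw [natDegree_prod_of_monic _ _ fun a _ => (monic_X_sub_C a).pow _] at h1
    refine le_trans (le_of_eq (Finset.sum_congr rfl fun a _ => ?_)) h1
    rw [natDegree_pow, natDegree_X_sub_C, mul_one]
  rw [hdeg, hsplit]
  omega

variable {F : Type} [Field F]

/-- over the algebraic closure `q = ∏ (X - a)^(m_a)`, and `gcd(q, q')` is divisible by `∏ (X - a)^(m_a - 1)` -/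
theorem natDegree_le_simp (q : F[X]) (hq : q ≠ 0) :
    q.natDegree ≤ (simp q).card + 2 * gd q := by
  classical
  have hne : q.map (algebraMap F (AlgebraicClosure F)) ≠ 0 := by
    rw [Ne, Polynomial.map_eq_zero]
    exact hq
  have h := A3_simple (q.map (algebraMap F (AlgebraicClosure F))) hne
  rw [natDegree_map, derivative_map, gcd_map, natDegree_map] at h
  unfold gd simp
  refine h.trans (Nat.add_le_add_right (Finset.card_le_card ?_) _)
  intro a ha
  rw [Finset.mem_filter] at ha ⊢
  refine ⟨ha.1, ?_⟩
  rw [← eval_map_algebraMap]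
  exact ha.2

private theorem A3_sum (Q : F[X][Y]) (hirr : Irreducible Q) (hder : derivative Q ≠ 0) (n : ℕ)
    (hn : InLE Q n) (h1 : 1 ≤ Q.natDegree) (E : Finset F) (hE : ∀ e ∈ E, spec Q e ≠ 0) :
    ∑ e ∈ E, gd (spec Q e) ≤ n * (2 * Q.natDegree - 1) := by
  have hdvd : ∏ e ∈ E, (X - C e) ^ gd (spec Q e) ∣ dres Q := by
    refine Finset.prod_dvd_of_coprime ?_ ?_
    · intro a _ b _ hab
      exact (isCoprime_X_sub_C_of_isUnit_sub (sub_ne_zero.mpr hab).isUnit).pow
    · intro e he
      exact pow_dvd_dres Q h1 e (hE e he)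
  have h2 := natDegree_le_of_dvd hdvd (dres_ne_zero Q hirr hder)
  rw [natDegree_prod_of_monic _ _ fun a _ => (monic_X_sub_C a).pow _] at h2
  refine le_trans (le_of_eq (Finset.sum_congr rfl fun a _ => ?_)) (h2.trans (natDegree_dres Q n hn))
  rw [natDegree_pow, natDegree_X_sub_C, mul_one]

/-- all but at most `n` of the `spec Q e` have degree `Q.natDegree` (leading coefficient of `Q`), and the powers of [A2] are coprime
divisors of `dres Q` -/
theorem count (Q : F[X][Y]) (hirr : Irreducible Q) (hder : derivative Q ≠ 0) (n : ℕ) (hn : InLE Q n) (E : Finset F) :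
    E.card * Q.natDegree ≤ (∑ e ∈ E, (simp (spec Q e)).card) + 5 * n * Q.natDegree := by
  classical
  have hP : Q ≠ 0 := hirr.ne_zero
  have h0 : 1 ≤ Q.natDegree := by
    rw [Nat.one_le_iff_ne_zero]
    intro h
    obtain ⟨c, rfl⟩ := natDegree_eq_zero.mp h
    exact hder (derivative_C)
  set G := E.filter fun e => Q.leadingCoeff.eval e ≠ 0 with hG
  set B := E.filter fun e => ¬ Q.leadingCoeff.eval e ≠ 0 with hB
  have hcard : G.card + B.card = E.card := Finset.card_filter_add_card_filter_not _
  have hBn : B.card ≤ n := by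
    have h1 : B ⊆ Q.leadingCoeff.roots.toFinset := by
      intro e he
      have h2 := (Finset.mem_filter.mp he).2
      push Not at h2
      rw [Multiset.mem_toFinset, mem_roots (leadingCoeff_ne_zero.mpr hP)]
      exact h2
    calc B.card ≤ Q.leadingCoeff.roots.toFinset.card := Finset.card_le_card h1
      _ ≤ Q.leadingCoeff.roots.card := Multiset.toFinset_card_le _
      _ ≤ Q.leadingCoeff.natDegree := card_roots' _
      _ ≤ n := hn _
  have hdeg : ∀ e ∈ G, (spec Q e).natDegree = Q.natDegree := by
    intro e he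
    exact natDegree_map_of_leadingCoeff_ne_zero _ (Finset.mem_filter.mp he).2
  have hne : ∀ e ∈ G, spec Q e ≠ 0 := by
    intro e he h
    have h1 := congrArg (fun q => q.coeff Q.natDegree) h
    unfold spec at h1
    simp only [coeff_map, coeff_zero] at h1
    exact (Finset.mem_filter.mp he).2 h1
  have h2 := A3_sum Q hirr hder n hn h0 G hne
  have h3 : ∀ e ∈ G, Q.natDegree ≤ (simp (spec Q e)).card + 2 * gd (spec Q e) := by
    intro e he
    have h4 := natDegree_le_simp (spec Q e) (hne e he)
    rw [hdeg e he] at h4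
    exact h4
  have h4 : G.card * Q.natDegree ≤ ∑ e ∈ G, (simp (spec Q e)).card +
      2 * ∑ e ∈ G, gd (spec Q e) := by
    rw [Finset.mul_sum, ← Finset.sum_add_distrib, ← smul_eq_mul, ← Finset.sum_const]
    exact Finset.sum_le_sum h3
  have h5 : ∑ e ∈ G, (simp (spec Q e)).card ≤ ∑ e ∈ E, (simp (spec Q e)).card :=
    Finset.sum_le_sum_of_subset (Finset.filter_subset _ _)
  have h6 : B.card * Q.natDegree ≤ n * Q.natDegree := Nat.mul_le_mul_right _ hBn
  have h7 : n * (2 * Q.natDegree - 1) ≤ 2 * (n * Q.natDegree) := by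
    calc n * (2 * Q.natDegree - 1) ≤ n * (2 * Q.natDegree) := Nat.mul_le_mul_left _ (Nat.sub_le _ _)
      _ = 2 * (n * Q.natDegree) := by ring
  calc E.card * Q.natDegree = G.card * Q.natDegree + B.card * Q.natDegree := by
        rw [← hcard, add_mul]
    _ ≤ _ := by
      have h8 : 5 * n * Q.natDegree = 5 * (n * Q.natDegree) := by ring
      rw [h8]
      omega

end BSCG
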