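import Mathlib

/-!
# Power series branches of a plane curve (MP_49ddc8_ag, general version, sections 4.4, 4.5, 4.7)

`P(u, T)` is a primitive polynomial over `k[u]`, irreducible over `k(u)`, `r` a root of it which generates `F` over `k(u)`.
A simple root `a` of `P(u, e)` gives an embedding `ψ : F → K((X))` with `ψ r = e + X`, `ψ u = v`, `v(0) = a`.
-/

set_option autoImplicit false

open Polynomial

namespace BSCG

/-- Hensel's lemma for polynomials which need not be monic -/
theorem hensel_gen {R : Type*} [CommRing R] (I : Ideal R) [IsAdicComplete I R] (f : R[X]) (a₀ : R) (h₁ : f.eval a₀ ∈ I)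
    (h₂ : IsUnit (Ideal.Quotient.mk I (f.derivative.eval a₀))) : ∃ a : R, f.IsRoot a ∧ a - a₀ ∈ I := by
  classical
  let f' := derivative f
  let c : ℕ → R := fun n => Nat.recOn n a₀ fun _ b => b - f.eval b * Ring.inverse (f'.eval b)
  have hc : ∀ n, c (n + 1) = c n - f.eval (c n) * Ring.inverse (f'.eval (c n)) := by
    intro n
    simp only [c]
  have hc_mod : ∀ n, c n ≡ a₀ [SMOD I] := by
    intro n
    induction n with
    | zero => rfl
    | succ n ih =>
      rw [hc, sub_eq_add_neg, ← add_zero a₀]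
      refine ih.add ?_
      rw [SModEq.zero, Ideal.neg_mem_iff]
      refine I.mul_mem_right _ ?_
      rw [← SModEq.zero] at h₁ ⊢
      exact (ih.eval f).trans h₁
  have hf'c : ∀ n, IsUnit (f'.eval (c n)) := by
    intro n
    have := isLocalHom_of_le_jacobson_bot I (IsAdicComplete.le_jacobson_bot I)
    apply IsUnit.of_map (Ideal.Quotient.mk I)
    have e1 : (Ideal.Quotient.mk I) (eval (c n) f') = (Ideal.Quotient.mk I) (f.derivative.eval a₀) :=
      SModEq.def.mp ((hc_mod n).eval _)
    rw [e1]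
    exact h₂
  have hfcI : ∀ n, f.eval (c n) ∈ I ^ (n + 1) := by
    intro n
    induction n with
    | zero =>
      rw [zero_add, pow_one]
      exact h₁
    | succ n ih =>
      rw [← taylor_eval_sub (c n), hc, sub_eq_add_neg, sub_eq_add_neg,
        add_neg_cancel_comm]
      rw [eval_eq_sum, sum_over_range' _ _ _ (lt_add_of_pos_right _ zero_lt_two), ←
        Finset.sum_range_add_sum_Ico _ (Nat.le_add_left _ _)]
      swap
      · intro i
        rw [zero_mul]
      refine Ideal.add_mem _ ?_ ?_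
      · rw [← one_add_one_eq_two, Finset.sum_range_succ, Finset.range_one, Finset.sum_singleton,
          taylor_coeff_zero, taylor_coeff_one, pow_zero, pow_one, mul_one, mul_neg,
          mul_left_comm, Ring.mul_inverse_cancel _ (hf'c n), mul_one, add_neg_cancel]
        exact Ideal.zero_mem _
      · refine Submodule.sum_mem _ ?_
        simp only [Finset.mem_Ico]
        rintro i ⟨h2i, _⟩
        have aux : n + 2 ≤ i * (n + 1) := by trans 2 * (n + 1) <;> nlinarith only [h2i]
        refine Ideal.mul_mem_left _ _ (Ideal.pow_le_pow_right aux ?_)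
        rw [pow_mul']
        exact Ideal.pow_mem_pow ((Ideal.neg_mem_iff _).2 <| Ideal.mul_mem_right _ _ ih) _
  have aux : ∀ m n, m ≤ n → c m ≡ c n [SMOD (I ^ m • ⊤ : Ideal R)] := by
    intro m n hmn
    rw [← Ideal.one_eq_top, Ideal.smul_eq_mul, mul_one]
    obtain ⟨k, rfl⟩ := Nat.exists_eq_add_of_le hmn
    clear hmn
    induction k with
    | zero => rw [add_zero]
    | succ k ih =>
      rw [← add_assoc, hc, ← add_zero (c m), sub_eq_add_neg]
      refine ih.add ?_
      symm
      rw [SModEq.zero, Ideal.neg_mem_iff]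
      refine Ideal.mul_mem_right _ _ (Ideal.pow_le_pow_right ?_ (hfcI _))
      rw [add_assoc]
      exact le_self_add
  obtain ⟨a, ha⟩ := IsPrecomplete.prec' c (aux _ _)
  refine ⟨a, ?_, ?_⟩
  · show f.IsRoot a
    suffices ∀ n, f.eval a ≡ 0 [SMOD (I ^ n • ⊤ : Ideal R)] by exact IsHausdorff.haus' _ this
    intro n
    specialize ha n
    rw [← Ideal.one_eq_top, Ideal.smul_eq_mul, mul_one] at ha ⊢
    refine (ha.symm.eval f).trans ?_
    rw [SModEq.zero]
    exact Ideal.pow_le_pow_right le_self_add (hfcI _)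
  · show a - a₀ ∈ I
    specialize ha (0 + 1)
    rw [hc, pow_one, ← Ideal.one_eq_top, Ideal.smul_eq_mul, mul_one, sub_eq_add_neg] at ha
    rw [← SModEq.sub_mem, ← add_zero a₀]
    refine ha.symm.trans (SModEq.rfl.add ?_)
    rw [SModEq.zero, Ideal.neg_mem_iff]
    exact Ideal.mul_mem_right _ _ h₁

section Series

variable {k K : Type*} [Field k] [Field K] [Algebra k K]

theorem cc_eval (Q : (PowerSeries K)[X]) (a : K) :
    PowerSeries.constantCoeff (eval (PowerSeries.C a) Q) = eval a (Q.map PowerSeries.constantCoeff) := by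
  rw [eval_map, eval, hom_eval₂, RingHom.comp_id, PowerSeries.constantCoeff_C]

/-- `P(v, e + X)` for `v` in `K⟦X⟧` -/
noncomputable def evPS (v : PowerSeries K) (e : k) (P : k[X][X]) : PowerSeries K :=
  P.eval₂ (eval₂RingHom ((PowerSeries.C (R := K)).comp (algebraMap k K)) v) (PowerSeries.C (algebraMap k K e) + PowerSeries.X)

theorem exists_series (P : k[X][X]) (e : k) (a : K) (h0 : aeval a (P.eval (C e)) = 0)
    (h1 : aeval a (derivative (P.eval (C e))) ≠ 0) :
    ∃ v : PowerSeries K, PowerSeries.constantCoeff v = a ∧ evPS v e P = 0 := by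
  classical
  set φ : k[X] →+* (PowerSeries K)[X] := Polynomial.mapRingHom ((PowerSeries.C (R := K)).comp (algebraMap k K)) with hφ
  set Q : (PowerSeries K)[X] := P.eval₂ φ (C (PowerSeries.C (algebraMap k K e) + PowerSeries.X)) with hQ
  have hQv : ∀ v : PowerSeries K, Q.eval v = evPS v e P := by
    intro v
    rw [hQ, evPS, ← coe_evalRingHom, hom_eval₂]
    congr 1
    · ext x
      · simp [hφ]
      · simp [hφ]
    · simp
  have hQ0 : Q.map PowerSeries.constantCoeff = (P.eval (C e)).map (algebraMap k K) := by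
    rw [hQ, ← coe_mapRingHom, hom_eval₂, ← coe_mapRingHom (algebraMap k K), eval, hom_eval₂]
    congr 1
    · ext x
      · simp [hφ]
      · simp [hφ]
    · simp
  have key := hensel_gen (Ideal.span {(PowerSeries.X : PowerSeries K)}) Q (PowerSeries.C a) ?_ ?_
  · obtain ⟨v, hv, hva⟩ := key
    refine ⟨v, ?_, ?_⟩
    · rw [Ideal.mem_span_singleton, PowerSeries.X_dvd_iff, map_sub, PowerSeries.constantCoeff_C, sub_eq_zero] at hva
      exact hva
    · rw [← hQv]
      exact hv
  · rw [Ideal.mem_span_singleton, PowerSeries.X_dvd_iff, cc_eval, hQ0, eval_map_algebraMap, h0]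
  · have e2 : PowerSeries.constantCoeff (eval (PowerSeries.C a) (derivative Q)) ≠ 0 := by
      rw [cc_eval, ← derivative_map, hQ0, derivative_map, eval_map_algebraMap]
      exact h1
    exact (PowerSeries.isUnit_iff_constantCoeff.2 (isUnit_iff_ne_zero.2 e2)).map _

theorem series_alg_const (v : PowerSeries K) (D : K[X]) (hD : D ≠ 0) (hv : aeval v D = 0) :
    v = PowerSeries.C (PowerSeries.constantCoeff v) := by
  classical
  set a := PowerSeries.constantCoeff v with ha
  obtain ⟨D1, hD1, hroot⟩ := exists_eq_pow_rootMultiplicity_mul_and_not_dvd D hD a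
  rw [hD1, map_mul, map_pow] at hv
  rcases mul_eq_zero.1 hv with h | h
  · have h2 := eq_zero_of_pow_eq_zero h
    rw [map_sub, aeval_X, aeval_C, sub_eq_zero] at h2
    exact h2
  · exfalso
    apply hroot
    rw [dvd_iff_isRoot, IsRoot.def]
    have h5 := congrArg PowerSeries.constantCoeff h
    rw [map_zero, aeval_def, hom_eval₂] at h5
    rw [← ha] at h5
    have h6 : (PowerSeries.constantCoeff (R := K)).comp (algebraMap K (PowerSeries K)) = RingHom.id K := by
      ext x
      simp
    rw [h6] at h5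
    exact h5

theorem series_not_alg (P : k[X][X]) (hP : P.IsPrimitive) (e : k) (a : K) (h0 : aeval a (P.eval (C e)) = 0)
    (hne : P.eval (C e) ≠ 0) (v : PowerSeries K) (hva : PowerSeries.constantCoeff v = a) (hv : evPS v e P = 0)
    (D : k[X]) (hD : D ≠ 0) : eval₂ ((PowerSeries.C (R := K)).comp (algebraMap k K)) v D ≠ 0 := by
  classical
  intro hDv
  have h1 : v = PowerSeries.C a := by
    rw [← hva]
    refine series_alg_const v (D.map (algebraMap k K)) ?_ ?_
    · exact (Polynomial.map_ne_zero_iff (algebraMap k K).injective).2 hD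
    · rw [aeval_def, eval₂_map]
      exact hDv
  have hint : IsIntegral k a := isAlgebraic_iff_isIntegral.1 ⟨P.eval (C e), hne, h0⟩
  -- `P(a, T) = 0`
  have h2 : P.map (aeval a).toRingHom = 0 := by
    have h3 : taylor (algebraMap k K e) (P.map (aeval a).toRingHom) = 0 := by
      apply Polynomial.coe_injective
      rw [Polynomial.coe_zero, ← hv, evPS, taylor_apply, comp, eval₂_map, ← Polynomial.coeToPowerSeries.ringHom_apply,
        hom_eval₂]
      congr 1
      · ext x
        · simp [h1]
        · simp [h1]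
      · simp [add_comm]
    exact (taylor_eq_zero _ _).1 h3
  have h4 : C (minpoly k a) ∣ P := by
    rw [C_dvd_iff_dvd_coeff]
    intro i
    apply minpoly.dvd
    have h5 := congrArg (fun q => coeff q i) h2
    simp only [coeff_map, coeff_zero] at h5
    exact h5
  have h5 := hP _ h4
  exact minpoly.not_isUnit k a h5

end Series

theorem ext_hom {A F L : Type*} [Field A] [Field F] [Field L] [Algebra A F] (j : A →+* L) (P : A[X]) (hP : Irreducible P)
    (r : F) (hr : aeval r P = 0) (htop : IntermediateField.adjoin A {r} = ⊤) (y : L) (hy : P.eval₂ j y = 0) :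
    ∃ ψ : F →+* L, ψ r = y ∧ ∀ x : A, ψ (algebraMap A F x) = j x := by
  classical
  let _ : Algebra A L := j.toAlgebra
  have hint : IsIntegral A r := isAlgebraic_iff_isIntegral.1 ⟨P, hP.ne_zero, hr⟩
  have hdvd : minpoly A r ∣ P := minpoly.dvd A r hr
  have hy2 : aeval y (minpoly A r) = 0 := by
    obtain ⟨c, hc⟩ := hdvd
    have hcu : IsUnit c := (hP.isUnit_or_isUnit hc).resolve_left (minpoly.not_isUnit A r)
    obtain ⟨d, hd⟩ := hcu.exists_right_inv
    have h1 : minpoly A r = P * d := by rw [hc, mul_assoc, hd, mul_one]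
    have hy' : aeval y P = 0 := hy
    rw [h1, map_mul, hy', zero_mul]
  have hroot : y ∈ (minpoly A r).aroots L := by
    rw [mem_aroots]
    exact ⟨minpoly.ne_zero hint, hy2⟩
  let f1 : IntermediateField.adjoin A {r} →ₐ[A] L :=
    (IntermediateField.algHomAdjoinIntegralEquiv A hint).symm ⟨y, hroot⟩
  have hf1 : f1 (IntermediateField.AdjoinSimple.gen A r) = y :=
    IntermediateField.algHomAdjoinIntegralEquiv_symm_apply_gen A hint ⟨y, hroot⟩
  let f2 : F →ₐ[A] L := f1.comp
    ((IntermediateField.equivOfEq htop).symm.toAlgHom.comp (IntermediateField.topEquiv (F := A) (E := F)).symm.toAlgHom)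
  refine ⟨f2.toRingHom, ?_, fun x => f2.commutes x⟩
  have h3 : f2 r = f1 (IntermediateField.AdjoinSimple.gen A r) := by
    simp only [f2]
    rfl
  exact h3.trans hf1

section Psi

variable {k K F : Type*} [Field k] [Field K] [Algebra k K] [Field F] [Algebra (RatFunc k) F]

/-- the embedding of `k[u]` in `F` -/
noncomputable def iF (k F : Type*) [Field k] [Field F] [Algebra (RatFunc k) F] : k[X] →+* F :=
  (algebraMap (RatFunc k) F).comp (algebraMap k[X] (RatFunc k))

/-- `k[u] → K⟦X⟧`, `u ↦ v` -/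
noncomputable def evV (k : Type*) {K : Type*} [Field k] [Field K] [Algebra k K] (v : PowerSeries K) : k[X] →+* PowerSeries K :=
  eval₂RingHom ((PowerSeries.C (R := K)).comp (algebraMap k K)) v

theorem exists_psi (P : k[X][X]) (hP : P.IsPrimitive) (hirr : Irreducible (P.map (algebraMap k[X] (RatFunc k)))) (r : F)
    (hr : P.eval₂ (iF k F) r = 0) (htop : IntermediateField.adjoin (RatFunc k) {r} = ⊤) (e : k) (a : K)
    (h0 : aeval a (P.eval (C e)) = 0) (h1 : aeval a (derivative (P.eval (C e))) ≠ 0) :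
    ∃ (ψ : F →+* LaurentSeries K) (v : PowerSeries K), PowerSeries.constantCoeff v = a ∧
      ψ r = ((PowerSeries.C (algebraMap k K e) + PowerSeries.X : PowerSeries K) : LaurentSeries K) ∧
      ∀ D : k[X], ψ (iF k F D) = ((evV k v D : PowerSeries K) : LaurentSeries K) := by
  classical
  obtain ⟨v, hva, hv⟩ := exists_series P e a h0 h1
  have hne : P.eval (C e) ≠ 0 := by
    intro h
    rw [h] at h1
    simp at h1
  set g : k[X] →+* LaurentSeries K := (HahnSeries.ofPowerSeries ℤ K).comp (evV k v) with hg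
  have hginj : Function.Injective g := by
    rw [injective_iff_map_eq_zero]
    intro D hD
    by_contra hD0
    apply series_not_alg P hP e a h0 hne v hva hv D hD0
    have h3 : HahnSeries.ofPowerSeries ℤ K (evV k v D) = HahnSeries.ofPowerSeries ℤ K 0 := by
      rw [map_zero]
      exact hD
    exact HahnSeries.ofPowerSeries_injective h3
  let j : RatFunc k →+* LaurentSeries K := IsFractionRing.lift hginj
  have hj : ∀ D : k[X], j (algebraMap k[X] (RatFunc k) D) = g D := fun D => IsFractionRing.lift_algebraMap hginj D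
  have hr' : aeval r (P.map (algebraMap k[X] (RatFunc k))) = 0 := by
    rw [aeval_def, eval₂_map]
    exact hr
  have hy' : (P.map (algebraMap k[X] (RatFunc k))).eval₂ j
      (HahnSeries.ofPowerSeries ℤ K (PowerSeries.C (algebraMap k K e) + PowerSeries.X)) = 0 := by
    rw [eval₂_map]
    have h4 : j.comp (algebraMap k[X] (RatFunc k)) = (HahnSeries.ofPowerSeries ℤ K).comp (evV k v) := RingHom.ext fun D => hj D
    rw [h4, ← hom_eval₂]
    have h5 : eval₂ (evV k v) (PowerSeries.C (algebraMap k K e) + PowerSeries.X) P = 0 := hv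
    rw [h5, map_zero]
  obtain ⟨ψ, hψr, hψ⟩ := ext_hom j (P.map (algebraMap k[X] (RatFunc k))) hirr r hr' htop
    (HahnSeries.ofPowerSeries ℤ K (PowerSeries.C (algebraMap k K e) + PowerSeries.X)) hy'
  refine ⟨ψ, v, hva, hψr, fun D => ?_⟩
  rw [iF, RingHom.comp_apply, hψ, hj]
  rfl

/-- elements of `F` integral over `k[u]` go to `K⟦X⟧` -/
theorem psi_integral (ψ : F →+* LaurentSeries K) (v : PowerSeries K)
    (hψ : ∀ D : k[X], ψ (iF k F D) = ((evV k v D : PowerSeries K) : LaurentSeries K)) (z : F) (hz : (iF k F).IsIntegralElem z) :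
    ∃ w : PowerSeries K, ψ z = (w : LaurentSeries K) := by
  obtain ⟨q, hq, hq0⟩ := hz
  have h1 : IsIntegral (PowerSeries K) (ψ z) := by
    refine ⟨q.map (evV k v), hq.map _, ?_⟩
    rw [eval₂_map]
    have h2 : (algebraMap (PowerSeries K) (LaurentSeries K)).comp (evV k v) = ψ.comp (iF k F) :=
      RingHom.ext fun D => (hψ D).symm
    rw [h2, ← hom_eval₂, hq0, map_zero]
  obtain ⟨w, hw⟩ := IsIntegrallyClosed.isIntegral_iff.1 h1
  exact ⟨w, hw.symm⟩

theorem constantCoeff_evV (v : PowerSeries K) (D : k[X]) :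
    PowerSeries.constantCoeff (evV k v D) = aeval (PowerSeries.constantCoeff v) D := by
  rw [evV, coe_eval₂RingHom, hom_eval₂, aeval_def]
  congr 1

/-- a power series `g` with `X g = s²`, `s` a Laurent series, is divisible by `X` -/
theorem dvd_of_X_mul_eq_sq (g : PowerSeries K) (s : LaurentSeries K)
    (h : ((PowerSeries.X : PowerSeries K) : LaurentSeries K) * (g : LaurentSeries K) = s ^ 2) :
    (PowerSeries.X : PowerSeries K) ∣ g := by
  have h1 : IsIntegral (PowerSeries K) s := by
    refine IsIntegral.of_pow (n := 2) (by norm_num) ?_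
    rw [← h, ← map_mul]
    exact isIntegral_algebraMap (R := PowerSeries K) (A := LaurentSeries K)
  obtain ⟨σ, hσ⟩ := IsIntegrallyClosed.isIntegral_iff.1 h1
  have h2 : (PowerSeries.X : PowerSeries K) * g = σ ^ 2 := by
    apply HahnSeries.ofPowerSeries_injective (Γ := ℤ)
    rw [map_mul, h, map_pow]
    rw [← hσ]
    rfl
  have h3 : (PowerSeries.X : PowerSeries K) ∣ σ := by
    apply PowerSeries.X_prime.dvd_of_dvd_pow (n := 2)
    exact ⟨g, h2.symm⟩
  obtain ⟨τ, hτ⟩ := h3
  refine ⟨τ ^ 2, ?_⟩
  have h4 : (PowerSeries.X : PowerSeries K) * g = PowerSeries.X * (PowerSeries.X * τ ^ 2) := by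
    rw [h2, hτ]
    ring
  exact mul_left_cancel₀ PowerSeries.X_ne_zero h4

/-- (4.5) ML -/
theorem ml_psi (P : k[X][X]) (hP : P.IsPrimitive) (hirr : Irreducible (P.map (algebraMap k[X] (RatFunc k)))) (r : F)
    (hr : P.eval₂ (iF k F) r = 0) (htop : IntermediateField.adjoin (RatFunc k) {r} = ⊤) (e : k) (a : K)
    (h0 : aeval a (P.eval (C e)) = 0) (h1 : aeval a (derivative (P.eval (C e))) ≠ 0)
    (G G' s : F) (N : k[X]) (hG : (iF k F).IsIntegralElem G) (hG' : (iF k F).IsIntegralElem G') (hN : G * G' = iF k F N)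
    (hs : (r - iF k F (C e)) * G = s ^ 2) : aeval a N = 0 := by
  obtain ⟨ψ, v, hva, hψr, hψ⟩ := exists_psi (K := K) P hP hirr r hr htop e a h0 h1
  obtain ⟨g, hg⟩ := psi_integral ψ v hψ G hG
  obtain ⟨g', hg'⟩ := psi_integral ψ v hψ G' hG'
  have h2 : ψ (r - iF k F (C e)) = ((PowerSeries.X : PowerSeries K) : LaurentSeries K) := by
    rw [map_sub, hψr, hψ, ← map_sub]
    congr 1
    simp [evV]
  have h3 : (PowerSeries.X : PowerSeries K) ∣ g := by
    apply dvd_of_X_mul_eq_sq g (ψ s)
    rw [← h2, ← hg, ← map_mul, hs, map_pow]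
  have h4 : evV k v N = g * g' := by
    apply HahnSeries.ofPowerSeries_injective (Γ := ℤ)
    rw [← hψ, ← hN, map_mul, hg, hg', map_mul]
  rw [← hva, ← constantCoeff_evV, ← PowerSeries.X_dvd_iff, h4]
  exact Dvd.dvd.mul_right h3 g'

/-- (4.7) ML2 -/
theorem ml2_psi (P : k[X][X]) (hP : P.IsPrimitive) (hirr : Irreducible (P.map (algebraMap k[X] (RatFunc k)))) (r : F)
    (hr : P.eval₂ (iF k F) r = 0) (htop : IntermediateField.adjoin (RatFunc k) {r} = ⊤) (e : k) (a : K)
    (h0 : aeval a (P.eval (C e)) = 0) (h1 : aeval a (derivative (P.eval (C e))) ≠ 0)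
    (r₂ s om om' : F) (b₁ b₂ N : k[X]) (hb₂ : (iF k F).IsIntegralElem (iF k F b₂ * r₂))
    (hom : om = iF k F b₁ * iF k F b₂ * (r - r₂)) (hom' : (iF k F).IsIntegralElem om') (hN : om * om' = iF k F N)
    (hs : (r - iF k F (C e)) * (r₂ - iF k F (C e)) = s ^ 2) : aeval a N = 0 ∨ aeval a b₂ = 0 := by
  obtain ⟨ψ, v, hva, hψr, hψ⟩ := exists_psi (K := K) P hP hirr r hr htop e a h0 h1
  obtain ⟨g, hg⟩ := psi_integral ψ v hψ _ hb₂
  obtain ⟨g', hg'⟩ := psi_integral ψ v hψ om' hom'
  have h2 : ψ (r - iF k F (C e)) = ((PowerSeries.X : PowerSeries K) : LaurentSeries K) := by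
    rw [map_sub, hψr, hψ, ← map_sub]
    congr 1
    simp [evV]
  have h5 : ψ (iF k F b₂ * (r₂ - iF k F (C e))) = ((g - evV k v (b₂ * C e) : PowerSeries K) : LaurentSeries K) := by
    rw [mul_sub, map_sub, hg, ← map_mul, hψ, map_sub]
  have h3 : (PowerSeries.X : PowerSeries K) ∣ (g - evV k v (b₂ * C e)) * evV k v b₂ := by
    apply dvd_of_X_mul_eq_sq _ (ψ (iF k F b₂ * s))
    rw [map_mul (HahnSeries.ofPowerSeries ℤ K), ← h5, ← hψ, ← h2, ← map_mul, ← map_mul, ← map_pow]
    congr 1
    rw [mul_pow, ← hs]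
    ring
  rcases PowerSeries.X_prime.dvd_or_dvd h3 with h6 | h6
  · left
    have h4 : evV k v N = (evV k v (b₁ * b₂) * PowerSeries.X - evV k v b₁ * (g - evV k v (b₂ * C e))) * g' := by
      apply HahnSeries.ofPowerSeries_injective (Γ := ℤ)
      rw [← hψ, ← hN, map_mul ψ, hg', map_mul (HahnSeries.ofPowerSeries ℤ K)]
      congr 1
      rw [map_sub (HahnSeries.ofPowerSeries ℤ K), map_mul (HahnSeries.ofPowerSeries ℤ K),
        map_mul (HahnSeries.ofPowerSeries ℤ K), ← h5, ← hψ, ← hψ, ← h2, ← map_mul, ← map_mul, ← map_sub, hom]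
      congr 1
      rw [map_mul]
      ring
    rw [← hva, ← constantCoeff_evV, ← PowerSeries.X_dvd_iff, h4]
    exact Dvd.dvd.mul_right (dvd_sub (Dvd.intro_left _ rfl) (Dvd.dvd.mul_left h6 _)) g'
  · right
    rw [← hva, ← constantCoeff_evV, ← PowerSeries.X_dvd_iff]
    exact h6

end Psi

end BSCG
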