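import Pool.Agent.Lib_MP_49ddc8_g.Ev
import Pool.Agent.Lib_MP_49ddc8_g.Psi

/-!
# [B3] the norm relation  (v2, V2), proved here by a power series branch (`ml_psi`)

`F' = F(u, r)`, `P = swap Q` (`P.coeff j` are polynomials in `u`), primitive and irreducible, `P(u, r) = 0`.  A simple root `a` of `P(u, e) = spec Q e` gives an embedding `ψ : F' → Kb((X))` with `ψ r = e + X`, `ψ u = v`, `v(0) = a`;
`(r - e) G = s ^ 2` makes `ψ G` divisible by `X`, so `N(a) = 0`.
-/

set_option autoImplicit false

open Polynomial Polynomial.Bivariate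

namespace BSCG

theorem coeffB3_swap_eval {F : Type} [CommRing F] (Q : F[X][Y]) (e : F) :
    (Bivariate.swap Q).eval (C e) = Q.map (evalRingHom e) := by
  induction Q using Polynomial.induction_on' with
  | add p q hp hq => simp only [map_add, Polynomial.map_add, eval_add, hp, hq]
  | monomial n f =>
    rw [Bivariate.swap_monomial, eval_mul, eval_C, eval_map, Polynomial.map_monomial, coe_evalRingHom,
      ← Polynomial.C_mul_X_pow_eq_monomial]
    congr 1
    rw [eval₂_at_apply]

theorem ev_swapB3 {F R : Type} [CommRing F] [CommRing R] [Algebra F R] (u v : R) (Q : F[X][Y]) :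
    ev u v (Bivariate.swap Q) = ev v u Q := by
  induction Q using Polynomial.induction_on' with
  | add p q hp hq => rw [map_add, ev_add, ev_add, hp, hq]
  | monomial n f =>
    rw [Bivariate.swap_monomial, ev_mul, ev_C, map_pow, aeval_X]
    have h1 : ev v u (monomial n f) = aeval v f * u ^ n := by
      rw [ev, eval₂_monomial]
      rfl
    rw [h1]
    congr 1
    rw [ev, eval₂_map, aeval_def]
    congr 1
    ext x
    simp

variable {F R : Type} [Field F] [Field R] [Algebra F R]

theorem ml_strong (u r : R) (Q : F[X][Y]) (n : ℕ) (h : Rel u r Q n) (e : F) (G G' s : R) (hG : G ∈ Fuv F u r) (hG' : G' ∈ Fuv F u r)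
    (hs : s ∈ Fuv F u r) (hGi : IntU F u G) (hGi' : IntU F u G') (N : F[X]) (hN : aeval u N = G * G')
    (hsq : (r - algebraMap F R e) * G = s ^ 2) : ∀ a ∈ simp (spec Q e), aeval a N = 0 := by
  classical
  have hu : u ∈ Fuv F u r := IntermediateField.subset_adjoin F _ (by simp)
  have hr : r ∈ Fuv F u r := IntermediateField.subset_adjoin F _ (by simp)
  let u' : Fuv F u r := ⟨u, hu⟩
  let r' : Fuv F u r := ⟨r, hr⟩
  let i0 : F[X] →+* Fuv F u r := (aeval (R := F) u' : F[X] →ₐ[F] Fuv F u r).toRingHom
  have hi0 : ∀ D : F[X], ((i0 D : Fuv F u r) : R) = aeval u D := by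
    intro D
    show ((aeval u' D : Fuv F u r) : R) = aeval u D
    have := aeval_algebraMap_apply R u' D
    exact this.symm
  have hinj : Function.Injective i0 := by
    rw [injective_iff_map_eq_zero]
    intro D hD
    by_contra hD0
    apply h.tr
    refine ⟨D, hD0, ?_⟩
    rw [← hi0, hD]
    rfl
  let _ : Algebra (RatFunc F) (Fuv F u r) := (IsFractionRing.lift hinj : RatFunc F →+* Fuv F u r).toAlgebra
  have hiF : ∀ D : F[X], iF F (Fuv F u r) D = i0 D := fun D => IsFractionRing.lift_algebraMap hinj D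
  have hiF' : iF F (Fuv F u r) = i0 := RingHom.ext hiF
  set P := Bivariate.swap Q with hP
  have hPirr : Irreducible P := (MulEquiv.irreducible_iff (Bivariate.swap (R := F)).toMulEquiv).2 h.irr
  have hPr0 : ev u r P = 0 := by
    rw [hP, ev_swapB3]
    exact h.rel
  have hPr : P.eval₂ (iF F (Fuv F u r)) r' = 0 := by
    apply Subtype.ext
    rw [hiF']
    have h1 : ((P.eval₂ i0 r' : Fuv F u r) : R) = (Fuv F u r).val.toRingHom (P.eval₂ i0 r') := rfl
    rw [h1, hom_eval₂]
    have h2 : (Fuv F u r).val.toRingHom.comp i0 = (aeval (R := F) u : F[X] →ₐ[F] R).toRingHom := RingHom.ext hi0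
    rw [h2]
    exact hPr0
  have hPdeg : P.natDegree ≠ 0 := by
    intro h0
    have h1 : P = C (P.coeff 0) := eq_C_of_natDegree_eq_zero h0
    apply h.tr
    refine ⟨P.coeff 0, ?_, ?_⟩
    · intro h2
      rw [h2, C_0] at h1
      exact hPirr.ne_zero h1
    · rw [h1, ev_C] at hPr0
      exact hPr0
  have hPprim : P.IsPrimitive := hPirr.isPrimitive hPdeg
  have hPirr' : Irreducible (P.map (algebraMap F[X] (RatFunc F))) :=
    (hPprim.irreducible_iff_irreducible_map_fraction_map).1 hPirr
  have htop : IntermediateField.adjoin (RatFunc F) {r'} = ⊤ := by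
    rw [eq_top_iff]
    rintro ⟨z, hz⟩ -
    induction hz using IntermediateField.adjoin_induction with
    | mem x hx =>
      rcases hx with hx | hx
      · have h0 : (⟨x, IntermediateField.subset_adjoin F _ (Or.inl hx)⟩ : Fuv F u r) = u' := Subtype.ext hx
        rw [h0]
        have h1 : u' = algebraMap (RatFunc F) (Fuv F u r) (algebraMap F[X] (RatFunc F) X) := by
          have h2 := hiF X
          rw [iF, RingHom.comp_apply] at h2
          rw [h2]
          show u' = aeval u' X
          rw [aeval_X]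
        have h3 := (IntermediateField.adjoin (RatFunc F) {r'}).algebraMap_mem (algebraMap F[X] (RatFunc F) X)
        rw [← h1] at h3
        exact h3
      · have h1 : x = r := hx
        subst h1
        exact IntermediateField.subset_adjoin _ _ rfl
    | algebraMap c =>
      have h1 : algebraMap F (Fuv F u r) c = algebraMap (RatFunc F) (Fuv F u r) (algebraMap F[X] (RatFunc F) (C c)) := by
        have h2 := hiF (C c)
        rw [iF, RingHom.comp_apply] at h2
        rw [h2]
        show _ = aeval u' (C c)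
        rw [aeval_C]
      have h3 := (IntermediateField.adjoin (RatFunc F) {r'}).algebraMap_mem (algebraMap F[X] (RatFunc F) (C c))
      rw [← h1] at h3
      exact h3
    | add x y hx hy hx' hy' => exact add_mem hx' hy'
    | inv x hx hx' => exact inv_mem hx'
    | mul x y hx hy hx' hy' => exact mul_mem hx' hy'
  have hint : ∀ z : Fuv F u r, IntU F u (z : R) → (iF F (Fuv F u r)).IsIntegralElem z := by
    intro z hz
    obtain ⟨p, hp, hpz⟩ := hz
    let g : F[X] →+* Algebra.adjoin F ({u} : Set R) :=
      (aeval (R := F) (⟨u, Algebra.subset_adjoin rfl⟩ : Algebra.adjoin F ({u} : Set R)) : F[X] →ₐ[F] Algebra.adjoin F ({u} : Set R)).toRingHom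
    have hg : ∀ D : F[X], ((g D : Algebra.adjoin F ({u} : Set R)) : R) = aeval u D := by
      intro D
      have := aeval_algebraMap_apply R (⟨u, Algebra.subset_adjoin rfl⟩ : Algebra.adjoin F ({u} : Set R)) D
      exact this.symm
    have hgs : Function.Surjective g := by
      rintro ⟨y, hy⟩
      have hy2 := hy
      rw [Algebra.adjoin_singleton_eq_range_aeval] at hy2
      obtain ⟨D, hD⟩ := hy2
      refine ⟨D, Subtype.ext ?_⟩
      rw [hg]
      exact hD
    have hpl : p ∈ Polynomial.lifts g := by
      rw [Polynomial.lifts_iff_coeff_lifts]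
      intro m
      exact hgs _
    obtain ⟨q, hq, -, hqm⟩ := Polynomial.lifts_and_natDegree_eq_and_monic hpl hp
    refine ⟨q, hqm, ?_⟩
    apply Subtype.ext
    rw [hiF']
    have h1 : ((q.eval₂ i0 z : Fuv F u r) : R) = (Fuv F u r).val.toRingHom (q.eval₂ i0 z) := rfl
    rw [h1, hom_eval₂]
    have h2 : (Fuv F u r).val.toRingHom.comp i0 = (algebraMap (Algebra.adjoin F ({u} : Set R)) R).comp g := by
      apply RingHom.ext
      intro D
      exact (hi0 D).trans (hg D).symm
    rw [h2, ← eval₂_map, hq]
    exact hpz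
  intro a ha
  have hspec : spec Q e = P.eval (C e) := (coeffB3_swap_eval Q e).symm
  rw [simp, Finset.mem_filter, Multiset.mem_toFinset, hspec] at ha
  have h0 : aeval a (P.eval (C e)) = 0 := by
    have h1 := isRoot_of_mem_roots ha.1
    rw [IsRoot.def, eval_map_algebraMap] at h1
    exact h1
  refine ml_psi P hPprim hPirr' r' hPr htop e a h0 ha.2 ⟨G, hG⟩ ⟨G', hG'⟩ ⟨s, hs⟩ N (hint _ hGi) (hint _ hGi') ?_ ?_
  · apply Subtype.ext
    rw [hiF, hi0, hN]
    rfl
  · apply Subtype.ext
    rw [hiF]
    have h1 : ((i0 (C e) : Fuv F u r) : R) = algebraMap F R e := by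
      rw [hi0, aeval_C]
    show (r - ((i0 (C e) : Fuv F u r) : R)) * G = s ^ 2
    rw [h1, hsq]

theorem ml (u r : R) (Q : F[X][Y]) (n : ℕ) (h : Rel u r Q n) (e : F) (G G' s : R) (hG : G ∈ Fuv F u r) (hG' : G' ∈ Fuv F u r)
    (hs : s ∈ Fuv F u r) (hGi : IntU F u G) (hGi' : IntU F u G') (N : F[X]) (hN : aeval u N = G * G') (hN0 : N ≠ 0)
    (hsq : (r - algebraMap F R e) * G = s ^ 2) : ∀ a ∈ simp (spec Q e), aeval a (lcU Q) = 0 ∨ aeval a N = 0 :=
  fun a ha => Or.inr (ml_strong u r Q n h e G G' s hG hG' hs hGi hGi' N hN hsq a ha)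

end BSCG
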