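import Pool.Agent.Lib_MP_49ddc8_g.Defs

/-!
# Evaluation of bivariate polynomials
-/

set_option autoImplicit false

open Polynomial Polynomial.Bivariate

namespace BSCG

section

variable {K R : Type} [CommRing K] [CommRing R] [Algebra K R]

/-- `ev` as a ring homomorphism -/
noncomputable def evHom (u v : R) : K[X][Y] →+* R := eval₂RingHom (aeval (R := K) u : K[X] →ₐ[K] R).toRingHom v

theorem evHom_apply (u v : R) (P : K[X][Y]) : evHom u v P = ev u v P := rfl

@[simp] theorem ev_zero (u v : R) : ev u v (0 : K[X][Y]) = 0 := (evHom (K := K) u v).map_zero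
@[simp] theorem ev_one (u v : R) : ev u v (1 : K[X][Y]) = 1 := (evHom (K := K) u v).map_one
theorem ev_add (u v : R) (P Q : K[X][Y]) : ev u v (P + Q) = ev u v P + ev u v Q := (evHom (K := K) u v).map_add P Q
theorem ev_sub (u v : R) (P Q : K[X][Y]) : ev u v (P - Q) = ev u v P - ev u v Q := (evHom (K := K) u v).map_sub P Q
theorem ev_mul (u v : R) (P Q : K[X][Y]) : ev u v (P * Q) = ev u v P * ev u v Q := (evHom (K := K) u v).map_mul P Q
theorem ev_pow (u v : R) (P : K[X][Y]) (m : ℕ) : ev u v (P ^ m) = ev u v P ^ m := (evHom (K := K) u v).map_pow P m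
theorem ev_C (u v : R) (q : K[X]) : ev u v (C q : K[X][Y]) = aeval u q := by
  unfold ev
  rw [eval₂_C]
  rfl
theorem ev_X (u v : R) : ev u v (X : K[X][Y]) = v := by
  unfold ev
  rw [eval₂_X]

theorem ev_eq_sum (u v : R) (P : K[X][Y]) : ev u v P = P.sum fun j q => aeval u q * v ^ j := by
  unfold ev
  rw [eval₂_eq_sum]
  rfl

end

end BSCG
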