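import Pool.Agent.Lib_MP_49ddc8_g.A3
import Pool.Agent.Lib_MP_49ddc8_g.Ev

/-!
# [B4] counting  (v2, V1 (2) - (5))
-/

set_option autoImplicit false

open Polynomial Polynomial.Bivariate

namespace BSCG

variable {F R : Type} [Field F] [Field R] [Algebra F R]

private theorem b4_coeff_swap (Q : F[X][Y]) (i j : ℕ) :
    ((Polynomial.Bivariate.swap (R := F) Q).coeff i).coeff j = (Q.coeff j).coeff i := by
  induction Q using Polynomial.induction_on' with
  | add p q hp hq => rw [map_add, coeff_add, coeff_add, coeff_add, coeff_add, hp, hq]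
  | monomial n a =>
    induction a using Polynomial.induction_on' with
    | add p q hp hq =>
      rw [map_add, map_add, coeff_add, coeff_add, coeff_add, coeff_add, hp, hq]
    | monomial m r =>
      rw [Polynomial.Bivariate.swap_monomial_monomial, coeff_monomial, coeff_monomial]
      by_cases h1 : m = i
      · by_cases h2 : n = j
        · rw [if_pos h1, if_pos h2, coeff_monomial, coeff_monomial, if_pos h1, if_pos h2]
        · rw [if_pos h1, if_neg h2, coeff_monomial, if_neg h2, coeff_zero]
      · by_cases h2 : n = j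
        · rw [if_neg h1, if_pos h2, coeff_monomial, if_neg h1, coeff_zero]
        · rw [if_neg h1, if_neg h2, coeff_zero, coeff_zero]

theorem lcU_ne_zero (u r : R) (Q : F[X][Y]) (n : ℕ) (h : Rel u r Q n) : lcU Q ≠ 0 := by
  unfold lcU
  rw [Ne, leadingCoeff_eq_zero]
  intro h0
  apply h.irr.ne_zero
  exact (map_eq_zero_iff _ (Polynomial.Bivariate.swap (R := F)).injective).1 h0

theorem natDegree_lcU (Q : F[X][Y]) : (lcU Q).natDegree ≤ Q.natDegree := by
  rw [natDegree_le_iff_coeff_eq_zero]
  intro N hN
  unfold lcU leadingCoeff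
  rw [b4_coeff_swap, coeff_eq_zero_of_natDegree_lt hN, coeff_zero]

theorem one_le_natDegree (u r : R) (Q : F[X][Y]) (n : ℕ) (h : Rel u r Q n) : 1 ≤ Q.natDegree := by
  rw [Nat.one_le_iff_ne_zero]
  intro h0
  apply h.der
  rw [natDegree_eq_zero] at h0
  obtain ⟨c, hc⟩ := h0
  rw [← hc, derivative_C]

private theorem b4_eval (Q : F[X][Y]) (a : AlgebraicClosure F) (e : F) :
    eval (algebraMap F (AlgebraicClosure F) e)
      ((Polynomial.Bivariate.swap (R := F) Q).map (aeval (R := F) a).toRingHom) = aeval a (spec Q e) := by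
  have h1 : ((evalRingHom (algebraMap F (AlgebraicClosure F) e)).comp
      (mapRingHom (aeval (R := F) a).toRingHom)).comp
        (Polynomial.Bivariate.swap (R := F)).toAlgHom.toRingHom =
      (aeval (R := F) a).toRingHom.comp (mapRingHom (evalRingHom e)) := by
    apply Polynomial.ringHom_ext'
    · apply Polynomial.ringHom_ext'
      · ext x
        simp [Polynomial.Bivariate.swap_C_C]
      · simp [Polynomial.Bivariate.swap_X]
    · simp [Polynomial.Bivariate.swap_Y]
  have h2 := congrArg (fun φ => φ Q) h1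
  exact h2

theorem card_le_of_root (u r : R) (Q : F[X][Y]) (n : ℕ) (h : Rel u r Q n) (a : AlgebraicClosure F) (E : Finset F)
    (hE : ∀ e ∈ E, aeval a (spec Q e) = 0) : E.card ≤ n := by
  classical
  set Qa : (AlgebraicClosure F)[X] :=
    (Polynomial.Bivariate.swap (R := F) Q).map (aeval (R := F) a).toRingHom with hQa
  by_cases h0 : Qa = 0
  · exfalso
    have hint : IsIntegral F a := Algebra.IsIntegral.isIntegral a
    have h1 : C (minpoly F a) ∣ Polynomial.Bivariate.swap (R := F) Q := by
      rw [C_dvd_iff_dvd_coeff]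
      intro i
      apply minpoly.dvd
      have h2 := congrArg (fun q => coeff q i) h0
      simp only [hQa, coeff_map, coeff_zero] at h2
      exact h2
    obtain ⟨Q', hQ'⟩ := h1
    have h2 : Q = (minpoly F a).map C * Polynomial.Bivariate.swap (R := F) Q' := by
      have h3 := congrArg (Polynomial.Bivariate.swap (R := F)) hQ'
      rw [Polynomial.Bivariate.swap_swap_apply, map_mul, Polynomial.Bivariate.swap_C] at h3
      exact h3
    have hmu : ¬ IsUnit ((minpoly F a).map C : F[X][Y]) := by
      intro hu
      have h3 := natDegree_eq_zero_of_isUnit hu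
      rw [natDegree_map_eq_of_injective C_injective] at h3
      exact (minpoly.natDegree_pos hint).ne' h3
    have hu := (h.irr.isUnit_or_isUnit h2).resolve_left hmu
    have h3 := h.rel
    rw [h2, ev_mul] at h3
    have h4 : ev r u (Polynomial.Bivariate.swap (R := F) Q') ≠ 0 := by
      have h5 := hu.map (evHom (K := F) r u)
      exact h5.ne_zero
    have h5 := (mul_eq_zero.1 h3).resolve_right h4
    have h6 : ev r u ((minpoly F a).map C : F[X][Y]) = aeval u (minpoly F a) := by
      unfold ev
      rw [eval₂_map, aeval_def]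
      congr 1
      ext x
      simp
    rw [h6] at h5
    exact h.tr ⟨minpoly F a, minpoly.ne_zero hint, h5⟩
  · have hdeg : Qa.natDegree ≤ n := by
      refine natDegree_map_le.trans ?_
      rw [natDegree_le_iff_coeff_eq_zero]
      intro N hN
      ext j
      rw [b4_coeff_swap, coeff_zero]
      exact coeff_eq_zero_of_natDegree_lt (lt_of_le_of_lt (h.deg j) hN)
    have h1 : E.image (algebraMap F (AlgebraicClosure F)) ⊆ Qa.roots.toFinset := by
      intro x hx
      rw [Finset.mem_image] at hx
      obtain ⟨e, he, rfl⟩ := hx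
      rw [Multiset.mem_toFinset, mem_roots h0, IsRoot.def, hQa, b4_eval]
      exact hE e he
    calc E.card = (E.image (algebraMap F (AlgebraicClosure F))).card :=
          (Finset.card_image_of_injective _ (algebraMap F (AlgebraicClosure F)).injective).symm
      _ ≤ Qa.roots.toFinset.card := Finset.card_le_card h1
      _ ≤ Qa.roots.card := Multiset.toFinset_card_le _
      _ ≤ Qa.natDegree := card_roots' _
      _ ≤ n := hdeg

private theorem b4_mem_simp (q : F[X]) (a : AlgebraicClosure F) (h : a ∈ simp q) : aeval a q = 0 := by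
  classical
  unfold simp at h
  rw [Finset.mem_filter, Multiset.mem_toFinset] at h
  have h1 := isRoot_of_mem_roots h.1
  rw [IsRoot.def, eval_map_algebraMap] at h1
  exact h1

open scoped Classical in
/-- double counting over the roots of `lcU Q` -/
theorem card_common (u r : R) (Q : F[X][Y]) (n : ℕ) (h : Rel u r Q n) (E : Finset F) :
    (∑ e ∈ E, ((simp (spec Q e)).filter (fun a => aeval a (lcU Q) = 0)).card) ≤ n * Q.natDegree := by
  set Z : Finset (AlgebraicClosure F) :=
    ((lcU Q).map (algebraMap F (AlgebraicClosure F))).roots.toFinset with hZ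
  have hl : (lcU Q).map (algebraMap F (AlgebraicClosure F)) ≠ 0 :=
    (Polynomial.map_ne_zero_iff (algebraMap F (AlgebraicClosure F)).injective).2 (lcU_ne_zero u r Q n h)
  have hZc : Z.card ≤ Q.natDegree := by
    refine (Multiset.toFinset_card_le _).trans ((card_roots' _).trans ?_)
    exact natDegree_map_le.trans (natDegree_lcU Q)
  calc (∑ e ∈ E, ((simp (spec Q e)).filter (fun a => aeval a (lcU Q) = 0)).card)
      ≤ ∑ e ∈ E, (Z.filter (fun a => aeval a (spec Q e) = 0)).card := by
        refine Finset.sum_le_sum fun e _ => Finset.card_le_card ?_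
        intro a ha
        rw [Finset.mem_filter] at ha ⊢
        refine ⟨?_, b4_mem_simp _ a ha.1⟩
        rw [hZ, Multiset.mem_toFinset, mem_roots hl, IsRoot.def, eval_map_algebraMap]
        exact ha.2
    _ = ∑ a ∈ Z, (E.filter (fun e => aeval a (spec Q e) = 0)).card := by
        simp only [Finset.card_filter]
        exact Finset.sum_comm
    _ ≤ ∑ _a ∈ Z, n := by
        refine Finset.sum_le_sum fun a _ => ?_
        refine card_le_of_root u r Q n h a _ fun e he => ?_
        rw [Finset.mem_filter] at he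
        exact he.2
    _ = Z.card * n := by rw [Finset.sum_const, smul_eq_mul]
    _ ≤ n * Q.natDegree := by
        rw [mul_comm]
        exact Nat.mul_le_mul_left n hZc

private theorem b4_roots (N : F[X]) (hN : N ≠ 0) (Z : Finset (AlgebraicClosure F))
    (hZ : ∀ a ∈ Z, aeval a N = 0) : Z.card ≤ N.natDegree := by
  classical
  have hl : N.map (algebraMap F (AlgebraicClosure F)) ≠ 0 :=
    (Polynomial.map_ne_zero_iff (algebraMap F (AlgebraicClosure F)).injective).2 hN
  have h1 : Z ⊆ (N.map (algebraMap F (AlgebraicClosure F))).roots.toFinset := by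
    intro a ha
    rw [Multiset.mem_toFinset, mem_roots hl, IsRoot.def, eval_map_algebraMap]
    exact hZ a ha
  refine (Finset.card_le_card h1).trans ((Multiset.toFinset_card_le _).trans ((card_roots' _).trans ?_))
  exact natDegree_map_le

theorem height_le (u r : R) (Q : F[X][Y]) (n : ℕ) (h : Rel u r Q n) (hn : 1 ≤ n) (E : Finset F) (hE : E.card = 7 * n) (T : ℕ)
    (hT : ∀ e ∈ E, ∃ N : F[X], N ≠ 0 ∧ N.natDegree ≤ T ∧ ∀ a ∈ simp (spec Q e), aeval a (lcU Q) = 0 ∨ aeval a N = 0) :
    Q.natDegree ≤ 7 * T := by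
  classical
  have h1 := count Q h.irr h.der n h.deg E
  have h2 := card_common u r Q n h E
  have h3 : (∑ e ∈ E, (simp (spec Q e)).card) ≤
      (∑ e ∈ E, ((simp (spec Q e)).filter (fun a => aeval a (lcU Q) = 0)).card) + E.card * T := by
    rw [← smul_eq_mul (a := E.card), ← Finset.sum_const, ← Finset.sum_add_distrib]
    refine Finset.sum_le_sum fun e he => ?_
    obtain ⟨N, hN0, hNT, hN⟩ := hT e he
    rw [← Finset.card_filter_add_card_filter_not (s := simp (spec Q e)) (fun a => aeval a (lcU Q) = 0)]
    refine Nat.add_le_add_left ?_ _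
    refine le_trans (b4_roots N hN0 _ fun a ha => ?_) hNT
    rw [Finset.mem_filter] at ha
    exact (hN a ha.1).resolve_left ha.2
  rw [hE] at h1 h3
  have h4 : n * Q.natDegree ≤ n * (7 * T) := by nlinarith
  exact Nat.le_of_mul_le_mul_left h4 hn

/-- good values `e` -/
def Good (Q : F[X][Y]) (e : F) : Prop :=
  (spec Q e).natDegree = Q.natDegree ∧ gd (spec Q e) = 0 ∧ ∀ a ∈ simp (spec Q e), aeval a (lcU Q) ≠ 0

private theorem b4_spec_ne (Q : F[X][Y]) (hirr : Irreducible Q) (hder : derivative Q ≠ 0) (e : F) :
    spec Q e ≠ 0 := by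
  intro h0
  have h1 : C (X - C e) ∣ Q := by
    rw [C_dvd_iff_dvd_coeff]
    intro i
    rw [dvd_iff_isRoot, IsRoot.def]
    have h2 := congrArg (fun q => coeff q i) h0
    simp only [spec, coeff_map, coeff_zero, coe_evalRingHom] at h2
    exact h2
  obtain ⟨Q', hQ'⟩ := h1
  rcases hirr.isUnit_or_isUnit hQ' with hu | hu
  · rw [isUnit_C] at hu
    exact not_isUnit_X_sub_C e hu
  · obtain ⟨c, -, hc⟩ := Polynomial.isUnit_iff.1 hu
    apply hder
    rw [hQ', ← hc, ← C_mul, derivative_C]

open scoped Classical in
theorem card_bad (u r : R) (Q : F[X][Y]) (n : ℕ) (h : Rel u r Q n) (E : Finset F) :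
    (E.filter (fun e => ¬ Good Q e)).card ≤ n + 3 * n * Q.natDegree := by
  have h1 := one_le_natDegree u r Q n h
  set E1 := E.filter (fun e => (spec Q e).natDegree ≠ Q.natDegree) with hE1
  set E2 := E.filter (fun e => gd (spec Q e) ≠ 0) with hE2
  set E3 := E.filter (fun e => ¬ ∀ a ∈ simp (spec Q e), aeval a (lcU Q) ≠ 0) with hE3
  have hsub : E.filter (fun e => ¬ Good Q e) ⊆ E1 ∪ (E2 ∪ E3) := by
    intro e he
    rw [Finset.mem_filter] at he
    rw [Finset.mem_union, Finset.mem_union, hE1, hE2, hE3, Finset.mem_filter, Finset.mem_filter,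
      Finset.mem_filter]
    by_cases c1 : (spec Q e).natDegree = Q.natDegree
    · by_cases c2 : gd (spec Q e) = 0
      · right
        right
        exact ⟨he.1, fun c3 => he.2 ⟨c1, c2, c3⟩⟩
      · right
        left
        exact ⟨he.1, c2⟩
    · left
      exact ⟨he.1, c1⟩
  have hc1 : E1.card ≤ n := by
    have hl : Q.leadingCoeff ≠ 0 := leadingCoeff_ne_zero.2 h.irr.ne_zero
    have h2 : E1 ⊆ Q.leadingCoeff.roots.toFinset := by
      intro e he
      rw [hE1, Finset.mem_filter] at he
      rw [Multiset.mem_toFinset, mem_roots hl, IsRoot.def]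
      by_contra h3
      apply he.2
      unfold spec
      exact natDegree_map_of_leadingCoeff_ne_zero _ h3
    refine (Finset.card_le_card h2).trans ((Multiset.toFinset_card_le _).trans ((card_roots' _).trans ?_))
    exact h.deg _
  have hc2 : E2.card ≤ n * (2 * Q.natDegree - 1) := by
    have hd := dres_ne_zero Q h.irr h.der
    have h2 : ∏ e ∈ E2, (X - C e) ∣ dres Q := by
      refine Finset.prod_dvd_of_coprime ?_ ?_
      · intro a _ b _ hab
        exact isCoprime_X_sub_C_of_isUnit_sub (isUnit_iff_ne_zero.2 (sub_ne_zero.2 hab))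
      · intro e he
        rw [hE2, Finset.mem_filter] at he
        refine (dvd_pow_self _ he.2).trans (pow_dvd_dres Q h1 e (b4_spec_ne Q h.irr h.der e))
    have h3 := natDegree_le_of_dvd h2 hd
    rw [natDegree_prod_of_monic _ _ (fun e _ => monic_X_sub_C e)] at h3
    simp only [natDegree_X_sub_C, Finset.sum_const, smul_eq_mul, mul_one] at h3
    exact h3.trans (natDegree_dres Q n h.deg)
  have hc3 : E3.card ≤ n * Q.natDegree := by
    refine le_trans ?_ (card_common u r Q n h E3)
    rw [Finset.card_eq_sum_ones]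
    refine Finset.sum_le_sum fun e he => ?_
    rw [hE3, Finset.mem_filter] at he
    have h2 := he.2
    push Not at h2
    obtain ⟨a, ha, ha0⟩ := h2
    rw [Nat.one_le_iff_ne_zero, Finset.card_ne_zero]
    exact ⟨a, Finset.mem_filter.2 ⟨ha, ha0⟩⟩
  have h2 := Finset.card_le_card hsub
  have h3 := Finset.card_union_le E1 (E2 ∪ E3)
  have h4 := Finset.card_union_le E2 E3
  have h5 : n * (2 * Q.natDegree - 1) + n * Q.natDegree ≤ 3 * n * Q.natDegree := by
    rw [← Nat.mul_add]
    calc n * (2 * Q.natDegree - 1 + Q.natDegree) ≤ n * (3 * Q.natDegree) :=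
          Nat.mul_le_mul_left n (by omega)
      _ = 3 * n * Q.natDegree := by ring
  omega

theorem dvd_of_good (u r : R) (Q : F[X][Y]) (n : ℕ) (h : Rel u r Q n) (e : F) (hg : Good Q e) (N : F[X])
    (hN : ∀ a ∈ simp (spec Q e), aeval a (lcU Q) = 0 ∨ aeval a N = 0) : spec Q e ∣ N := by
  classical
  by_cases hN0 : N = 0
  · rw [hN0]
    exact dvd_zero _
  obtain ⟨-, h2, h3⟩ := hg
  have hq := b4_spec_ne Q h.irr h.der e
  set q := spec Q e with hqd
  have hsep : q.Separable := by
    unfold gd at h2
    rw [natDegree_eq_zero] at h2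
    obtain ⟨c, hc⟩ := h2
    have hgu : IsUnit (EuclideanDomain.gcd q (derivative q)) := by
      rw [← hc, isUnit_C, isUnit_iff_ne_zero]
      rintro rfl
      rw [C_0] at hc
      exact hq (EuclideanDomain.gcd_eq_zero_iff.1 hc.symm).1
    exact EuclideanDomain.gcd_isUnit_iff.1 hgu
  have hq' : q.map (algebraMap F (AlgebraicClosure F)) ≠ 0 :=
    (Polynomial.map_ne_zero_iff (algebraMap F (AlgebraicClosure F)).injective).2 hq
  have hN' : N.map (algebraMap F (AlgebraicClosure F)) ≠ 0 :=
    (Polynomial.map_ne_zero_iff (algebraMap F (AlgebraicClosure F)).injective).2 hN0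
  rw [← map_dvd_map' (algebraMap F (AlgebraicClosure F)), IsAlgClosed.dvd_iff_roots_le_roots hq' hN']
  rw [Multiset.le_iff_subset (nodup_roots hsep.map)]
  intro a ha
  have h4 := isRoot_of_mem_roots ha
  rw [IsRoot.def, eval_map_algebraMap] at h4
  rw [mem_roots hN', IsRoot.def, eval_map_algebraMap]
  have h5 : a ∈ simp q := by
    unfold simp
    rw [Finset.mem_filter, Multiset.mem_toFinset]
    exact ⟨ha, hsep.aeval_derivative_ne_zero h4⟩
  exact (hN a h5).resolve_left (h3 a h5)

end BSCG
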