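import Pool.Agent.Lib_MP_49ddc8_g.B6

/-!
# [B5] uniqueness of the interpolation (`exists_subset` is in `B6.lean`)  (v2, V4)
-/

set_option autoImplicit false

open Polynomial Polynomial.Bivariate

namespace BSCG

/-- `h = Q.natDegree`. `Q' * C (Q.coeff h) - Q * C (Q'.coeff h)` vanishes at all `e ∈ E` (inner variable), its coefficients have degree at most `2 n`,
so it is zero. `Q` is prime, does not divide `C (Q.coeff h)` (`h ≥ 1` since `derivative Q ≠ 0`), so it divides `Q'`. -/
theorem interp {F R : Type} [Field F] [Field R] [Algebra F R] (u r : R) (Q : F[X][Y]) (n : ℕ) (h : Rel u r Q n) (Q' : F[X][Y])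
    (hQ' : Q'.natDegree ≤ Q.natDegree) (hn' : InLE Q' n) (E : Finset F) (hE : 2 * n < E.card) (D : F → F[X])
    (hD : ∀ e ∈ E, (D e).Monic ∧ (D e).natDegree = Q.natDegree ∧ ∃ l : F, spec Q e = C l * D e)
    (hD' : ∀ e ∈ E, ∃ l : F, spec Q' e = C l * D e) : ev r u Q' = 0 := by
  have irr := h.irr
  have hQ0 : Q ≠ 0 := irr.ne_zero
  have hpos : 0 < Q.natDegree := by
    by_contra hc
    have h0 : Q.natDegree = 0 := by omega
    obtain ⟨q, hq⟩ := natDegree_eq_zero.1 h0
    apply h.der
    rw [← hq, derivative_C]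
  obtain ⟨m, hm⟩ : ∃ m, m = Q.natDegree := ⟨_, rfl⟩
  rw [← hm] at hpos hQ' hD
  have key : Q' * C (Q.coeff m) - Q * C (Q'.coeff m) = 0 := by
    ext1 j
    rw [coeff_sub, coeff_mul_C, coeff_mul_C, coeff_zero]
    refine eq_zero_of_natDegree_lt_card_of_eval_eq_zero' _ E ?_ ?_
    · intro e he
      obtain ⟨hmon, hdeg, l, hl⟩ := hD e he
      obtain ⟨l', hl'⟩ := hD' e he
      have hc : ∀ i, (Q.coeff i).eval e = l * (D e).coeff i := by
        intro i
        have h1 := congrArg (fun P : F[X] => P.coeff i) hl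
        simp only [spec, coeff_map, coeff_C_mul, coe_evalRingHom] at h1
        exact h1
      have hc' : ∀ i, (Q'.coeff i).eval e = l' * (D e).coeff i := by
        intro i
        have h1 := congrArg (fun P : F[X] => P.coeff i) hl'
        simp only [spec, coeff_map, coeff_C_mul, coe_evalRingHom] at h1
        exact h1
      rw [eval_sub, eval_mul, eval_mul, hc, hc, hc', hc']
      ring
    · refine lt_of_le_of_lt ?_ hE
      refine (natDegree_sub_le _ _).trans (max_le ?_ ?_)
      · refine natDegree_mul_le.trans ?_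
        have h1 := hn' j
        have h2 := h.deg m
        omega
      · refine natDegree_mul_le.trans ?_
        have h1 := h.deg j
        have h2 := hn' m
        omega
  have hdvd : Q ∣ Q' * C (Q.coeff m) := ⟨C (Q'.coeff m), sub_eq_zero.1 key⟩
  rcases irr.prime.dvd_or_dvd hdvd with hd | hd
  · obtain ⟨T, hT⟩ := hd
    rw [hT, ev_mul, h.rel, zero_mul]
  · exfalso
    have hc0 : Q.coeff m ≠ 0 := by
      rw [hm]
      exact leadingCoeff_ne_zero.2 hQ0
    have h1 := natDegree_le_of_dvd hd (C_ne_zero.2 hc0)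
    rw [natDegree_C, ← hm] at h1
    omega

end BSCG
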