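import Pool.Agent.Lib_MP_49ddc8_g.Ev

/-!
# [B6] divisors of a split polynomial
-/

set_option autoImplicit false

open Polynomial

namespace BSCG

private theorem exists_subset_aux6 {F ι : Type} [Field F] (b : ι → F) (c : F) (hc : c ≠ 0) (s : Finset ι) :
    ∀ q : F[X], q ≠ 0 → q ∣ C c * ∏ j ∈ s, (X - C (b j)) →
      ∃ J ⊆ s, q = C q.leadingCoeff * ∏ j ∈ J, (X - C (b j)) := by
  classical
  induction s using Finset.induction_on with
  | empty =>
    intro q _ h
    rw [Finset.prod_empty, mul_one] at h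
    have hu : IsUnit q := isUnit_of_dvd_unit h (isUnit_C.mpr (isUnit_iff_ne_zero.mpr hc))
    refine ⟨∅, Finset.Subset.refl _, ?_⟩
    rw [Finset.prod_empty, mul_one]
    have h1 : q.natDegree = 0 := natDegree_eq_zero_of_isUnit hu
    rw [leadingCoeff, h1]
    exact eq_C_of_natDegree_eq_zero h1
  | insert a s ha ih =>
    intro q hq h
    rw [Finset.prod_insert ha] at h
    by_cases hd : (X - C (b a)) ∣ q
    · obtain ⟨q', rfl⟩ := hd
      have hq' : q' ≠ 0 := right_ne_zero_of_mul hq
      have h1 : q' ∣ C c * ∏ j ∈ s, (X - C (b j)) := by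
        apply (mul_dvd_mul_iff_left (X_sub_C_ne_zero (b a))).mp
        have h2 : (X - C (b a)) * (C c * ∏ j ∈ s, (X - C (b j))) =
            C c * ((X - C (b a)) * ∏ j ∈ s, (X - C (b j))) := by ring
        rw [h2]
        exact h
      obtain ⟨J, hJ, hJ2⟩ := ih q' hq' h1
      refine ⟨insert a J, Finset.insert_subset_insert _ hJ, ?_⟩
      have haJ : a ∉ J := fun h3 => ha (hJ h3)
      have h3 : ((X - C (b a)) * q').leadingCoeff = q'.leadingCoeff := by
        rw [leadingCoeff_mul, leadingCoeff_X_sub_C, one_mul]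
      rw [Finset.prod_insert haJ, h3]
      conv_lhs => rw [hJ2]
      ring
    · have hcop : IsCoprime q (X - C (b a)) :=
        ((irreducible_X_sub_C (b a)).coprime_iff_not_dvd.mpr hd).symm
      have h1 : q ∣ (X - C (b a)) * (C c * ∏ j ∈ s, (X - C (b j))) := by
        have h2 : (X - C (b a)) * (C c * ∏ j ∈ s, (X - C (b j))) =
            C c * ((X - C (b a)) * ∏ j ∈ s, (X - C (b j))) := by ring
        rw [h2]
        exact h
      obtain ⟨J, hJ, hJ2⟩ := ih q hq (hcop.dvd_of_dvd_mul_left h1)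
      exact ⟨J, fun x hx => Finset.mem_insert_of_mem (hJ hx), hJ2⟩

theorem exists_subset {F : Type} [Field F] (m : ℕ) (b : Fin m → F) (c : F) (hc : c ≠ 0) (q : F[X]) (hq : q ≠ 0)
    (h : q ∣ C c * ∏ j, (X - C (b j))) : ∃ J : Finset (Fin m), q = C q.leadingCoeff * ∏ j ∈ J, (X - C (b j)) := by
  obtain ⟨J, -, hJ⟩ := exists_subset_aux6 b c hc Finset.univ q hq h
  exact ⟨J, hJ⟩

end BSCG
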