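import Pool.Agent.Lib_MP_49ddc8_g.Ev

/-!
# [C1] a generator with a separable relation  (text 4.8)

`F₀ = F(u)`, `F = ZMod p`. `F₀(θ)` has degree `m ≤ n < p` over `F₀`, separable. For `c = 0, .., n ^ 2` at least one `r + c θ` generates `F₀(θ)` (the conjugates `σ_i` differ on `θ`: `c ≠ - (σ_i r - σ_j r) / (σ_i θ - σ_j θ)`; or: the number of
intermediate fields). `u` is not a `p`-th power in `F₀(θ)`, so `r*` or `r* + u` is not a `p`-th power. The primitive polynomial `P ∈ F[X][Y]` (`Y` for `r*`) of the minimal polynomial of `r*` over `F₀` is irreducible; `Q` is `P` with the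
variables exchanged (`Polynomial.Bivariate.swap`). `derivative Q = 0` would mean that `P` has coefficients in `F[X ^ p]`, then `r*` is algebraic and separable over `F(u ^ p)`, so `r* ∈ F(u ^ p)(r* ^ p)`, a `p`-th power.
-/

set_option autoImplicit false

open Polynomial Polynomial.Bivariate IntermediateField

namespace BSCG

/-- in characteristic `p`, an irreducible polynomial of degree less than `p` is separable -/
private theorem sep_of_lt {p : ℕ} [Fact p.Prime] {K : Type} [Field K] [CharP K p] {q : K[X]} (hq : Irreducible q)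
    (hd : q.natDegree < p) : q.Separable := by
  rw [separable_iff_derivative_ne_zero hq]
  intro h
  have h1 : 0 < q.natDegree := hq.natDegree_pos
  have h2 := congrArg (fun s => s.coeff (q.natDegree - 1)) h
  simp only [coeff_derivative, coeff_zero] at h2
  rw [Nat.sub_add_cancel h1] at h2
  rcases mul_eq_zero.1 h2 with h3 | h3
  · exact hq.ne_zero (leadingCoeff_eq_zero.1 h3)
  · have h4 : ((q.natDegree : ℕ) : K) = 0 := by
      rw [← h3]
      have : ((q.natDegree - 1 : ℕ) : K) + 1 = ((q.natDegree - 1 + 1 : ℕ) : K) := by push_cast; rfl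
      rw [this, Nat.sub_add_cancel h1]
    rw [CharP.cast_eq_zero_iff K p] at h4
    exact absurd (Nat.le_of_dvd h1 h4) (by omega)

/-- Lemma A: an element whose `p`-th power is in `K` and which has degree less than `p` over `K` is in `K` -/
private theorem lemA {p : ℕ} [Fact p.Prime] {R : Type} [Field R] [CharP R p] (K : Subfield R) (z : R) (hz : z ^ p ∈ K) (H : R[X])
    (hH : H ≠ 0) (hc : ∀ i, H.coeff i ∈ K) (hd : H.natDegree < p) (h0 : H.eval z = 0) : z ∈ K := by
  have hp : p.Prime := Fact.out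
  -- descend `H`
  obtain ⟨H', hH'⟩ : ∃ H' : K[X], H'.map (algebraMap K R) = H := by
    have : H ∈ Polynomial.lifts (algebraMap K R) := by
      rw [Polynomial.lifts_iff_coeff_lifts]
      intro i
      exact ⟨⟨_, hc i⟩, rfl⟩
    obtain ⟨q, hq⟩ := this
    exact ⟨q, hq⟩
  have hH0 : H' ≠ 0 := by
    rintro rfl
    exact hH (by rw [← hH', Polynomial.map_zero])
  have hHd : H'.natDegree < p := by
    rw [← hH'] at hd
    rwa [natDegree_map] at hd
  have hHe : aeval z H' = 0 := by
    rw [← h0, ← hH', eval_map_algebraMap]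
  have hint : IsIntegral K z := by
    rw [← isAlgebraic_iff_isIntegral]
    exact ⟨H', hH0, hHe⟩
  have hirr := minpoly.irreducible hint
  have : CharP K p := (algebraMap K R).charP (algebraMap K R).injective p
  have hdeg : (minpoly K z).natDegree < p :=
    lt_of_le_of_lt (natDegree_le_of_dvd (minpoly.dvd K z hHe) hH0) hHd
  have hsep := sep_of_lt hirr hdeg
  have hdvd : minpoly K z ∣ X ^ p - C (⟨z ^ p, hz⟩ : K) := by
    apply minpoly.dvd
    simp only [map_sub, map_pow, aeval_X, aeval_C]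
    exact sub_self _
  have hdvd2 : (minpoly K z).map (algebraMap K R) ∣ (X - C z) ^ p := by
    have h1 := Polynomial.map_dvd (algebraMap K R) hdvd
    have h2 : (X ^ p - C (⟨z ^ p, hz⟩ : K)).map (algebraMap K R) = (X - C z) ^ p := by
      rw [sub_pow_char]
      simp only [Polynomial.map_sub, Polynomial.map_pow, map_X, map_C]
      rw [← C_pow]
      rfl
    rwa [h2] at h1
  have hsq : Squarefree ((minpoly K z).map (algebraMap K R)) := (hsep.map).squarefree
  rw [hsq.dvd_pow_iff_dvd hp.ne_zero] at hdvd2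
  have h3 : ((minpoly K z).map (algebraMap K R)).natDegree ≤ 1 :=
    (natDegree_le_of_dvd hdvd2 (X_sub_C_ne_zero z)).trans (natDegree_X_sub_C z).le
  rw [natDegree_map] at h3
  have h4 : (minpoly K z).natDegree = 1 := le_antisymm h3 hirr.natDegree_pos
  rw [minpoly.natDegree_eq_one_iff] at h4
  obtain ⟨y, hy⟩ := h4
  rw [← hy]
  exact y.2

/-- the sum of the transposed polynomial -/
private theorem swap_coeff {K : Type} [CommRing K] (P : K[X][Y]) (i j : ℕ) :
    ((Polynomial.Bivariate.swap (R := K) P).coeff i).coeff j = (P.coeff j).coeff i := by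
  induction P using Polynomial.induction_on' with
  | add p q hp hq =>
    rw [map_add, coeff_add, coeff_add, coeff_add, coeff_add, hp, hq]
  | monomial n a =>
    induction a using Polynomial.induction_on' with
    | add p q hp hq =>
      rw [map_add, map_add, coeff_add, coeff_add, coeff_add, coeff_add, hp, hq]
    | monomial m a =>
      rw [Bivariate.swap_monomial_monomial, coeff_monomial, coeff_monomial]
      by_cases h1 : m = i
      · by_cases h2 : n = j
        · rw [if_pos h1, if_pos h2, coeff_monomial, coeff_monomial, if_pos h1, if_pos h2]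
        · rw [if_pos h1, if_neg h2, coeff_monomial, if_neg h2, coeff_zero]
      · by_cases h2 : n = j
        · rw [if_neg h1, if_pos h2, coeff_monomial, if_neg h1, coeff_zero]
        · rw [if_neg h1, if_neg h2, coeff_zero, coeff_zero]

private theorem ev_swap {K R : Type} [CommRing K] [CommRing R] [Algebra K R] (u v : R) (P : K[X][Y]) :
    ev u v (Polynomial.Bivariate.swap (R := K) P) = ev v u P := by
  induction P using Polynomial.induction_on' with
  | add p q hp hq =>
    rw [map_add, ev_add, ev_add, hp, hq]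
  | monomial n a =>
    induction a using Polynomial.induction_on' with
    | add p q hp hq =>
      rw [map_add, map_add, ev_add, ev_add, hp, hq]
    | monomial m a =>
      rw [Bivariate.swap_monomial_monomial]
      rw [← C_mul_X_pow_eq_monomial, ← C_mul_X_pow_eq_monomial, ← C_mul_X_pow_eq_monomial, ← C_mul_X_pow_eq_monomial]
      rw [ev_mul, ev_mul, ev_pow, ev_pow, ev_C, ev_C, ev_X, ev_X]
      simp only [map_mul, map_pow, aeval_C, aeval_X]
      ring

/-- one of the elements `r + c θ`, `c ≤ n`, generates -/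
private theorem gen_c {K L : Type} [Field K] [Field L] [Algebra K L] [FiniteDimensional K L] [Algebra.IsSeparable K L] {p : ℕ}
    [CharP K p] (r θ : L) (hθ : K⟮θ⟯ = ⊤) (n : ℕ) (hn : Module.finrank K L ≤ n) (hp : n < p) :
    ∃ c : ℕ, c ≤ n ∧ K⟮r + (c : L) * θ⟯ = ⊤ := by
  by_contra hcon
  push Not at hcon
  have hA : ∀ x : L, ((minpoly K x).map (algebraMap K (AlgebraicClosure K))).Splits := fun x => IsAlgClosed.splits _
  have : CharP (AlgebraicClosure K) p := charP_of_injective_algebraMap (algebraMap K (AlgebraicClosure K)).injective p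
  let φ : L →ₐ[K] AlgebraicClosure K := IsAlgClosed.lift
  have hθ' := (Field.primitive_element_iff_algHom_eq_of_eval K (AlgebraicClosure K) hA θ φ).1 hθ
  have key : ∀ c : Fin (n + 1), ∃ ψ : L →ₐ[K] AlgebraicClosure K,
      φ (r + ((c : ℕ) : L) * θ) = ψ (r + ((c : ℕ) : L) * θ) ∧ φ ≠ ψ := by
    intro c
    have h1 := hcon (c : ℕ) (by omega)
    rw [Ne, Field.primitive_element_iff_algHom_eq_of_eval K (AlgebraicClosure K) hA _ φ] at h1
    push Not at h1
    exact h1
  choose ψ hψ1 hψ2 using key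
  have hinj : Function.Injective ψ := by
    intro c d hcd
    have h1 := hψ1 c
    have h2 := hψ1 d
    rw [hcd] at h1
    simp only [map_add, map_mul, map_natCast] at h1 h2
    have h3 : (((c : ℕ) : AlgebraicClosure K) - ((d : ℕ) : AlgebraicClosure K)) * (φ θ - ψ d θ) = 0 := by
      linear_combination h1 - h2
    rcases mul_eq_zero.1 h3 with h4 | h4
    · have h5 : ((c : ℕ) : AlgebraicClosure K) = ((d : ℕ) : AlgebraicClosure K) := sub_eq_zero.1 h4
      rw [CharP.cast_eq_iff_mod_eq (AlgebraicClosure K) p] at h5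
      rw [Nat.mod_eq_of_lt (by omega), Nat.mod_eq_of_lt (by omega)] at h5
      exact Fin.ext h5
    · exact absurd (hθ' (ψ d) (sub_eq_zero.1 h4)) (hψ2 d)
  have hcard := Fintype.card_le_of_injective ψ hinj
  rw [Fintype.card_fin, AlgHom.card_of_splits K L (AlgebraicClosure K) hA] at hcard
  omega

/-- the same for a simple extension inside a field -/
private theorem gen_c' {R : Type} [Field R] {K : Type} [Field K] [Algebra K R] {p : ℕ} [CharP K p] (θ r : R)
    (hsep : IsSeparable K θ) (n : ℕ) (hn : (minpoly K θ).natDegree ≤ n) (hp : n < p) (hr : r ∈ K⟮θ⟯) :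
    ∃ c : ℕ, c ≤ n ∧ K⟮r + (c : R) * θ⟯ = K⟮θ⟯ := by
  have hint : IsIntegral K θ := hsep.isIntegral
  have : FiniteDimensional K K⟮θ⟯ := adjoin.finiteDimensional hint
  have : Algebra.IsSeparable K K⟮θ⟯ := (isSeparable_adjoin_simple_iff_isSeparable K R).2 hsep
  have h1 : K⟮AdjoinSimple.gen K θ⟯ = ⊤ := by
    apply lift_injective
    rw [lift_adjoin_simple, lift_top]
    rfl
  obtain ⟨c, hc, h2⟩ := gen_c (p := p) (⟨r, hr⟩ : K⟮θ⟯) (AdjoinSimple.gen K θ) h1 n
    (by rw [adjoin.finrank hint]; exact hn) hp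
  refine ⟨c, hc, ?_⟩
  have h3 := congrArg lift h2
  rw [lift_adjoin_simple, lift_top] at h3
  rw [← h3]
  congr 1

/-- `u` is not a `p`-th power of an element of small degree -/
private theorem not_pow {p : ℕ} [Fact p.Prime] {R : Type} [Field R] [Algebra (ZMod p) R] (u : R) (hu : Transcendental (ZMod p) u)
    (z : R) (hz : z ^ p = u) (H : (ZMod p)⟮u⟯[X]) (hH : H ≠ 0) (hd : H.natDegree < p) (h0 : aeval z H = 0) : False := by
  have hp : p.Prime := Fact.out
  have : CharP R p := charP_of_injective_algebraMap (algebraMap (ZMod p) R).injective p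
  have h1 : z ∈ (ZMod p)⟮u⟯.toSubfield := by
    apply lemA (p := p) _ z _ (H.map (algebraMap (ZMod p)⟮u⟯ R))
    · rwa [Ne, Polynomial.map_eq_zero]
    · intro i
      rw [coeff_map]
      exact (H.coeff i).2
    · rwa [natDegree_map]
    · rw [eval_map_algebraMap]
      exact h0
    · rw [hz]
      exact mem_adjoin_simple_self (ZMod p) u
  have h2 : z ∈ (ZMod p)⟮u⟯ := h1
  rw [mem_adjoin_simple_iff] at h2
  obtain ⟨a, b, hab⟩ := h2
  have hu0 : u ≠ 0 := by
    rintro rfl
    exact hu (isAlgebraic_zero)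
  have hb : aeval u b ≠ 0 := by
    intro hb
    rw [hb, div_zero] at hab
    rw [hab, zero_pow hp.ne_zero] at hz
    exact hu0 hz.symm
  have h3 : aeval u (a ^ p - X * b ^ p) = 0 := by
    rw [map_sub, map_mul, map_pow, map_pow, aeval_X]
    rw [eq_div_iff hb] at hab
    rw [← hab, mul_pow, hz, sub_self]
  have h4 : a ^ p - X * b ^ p = 0 := by
    by_contra h
    exact hu ⟨_, h, h3⟩
  have hb0 : b ≠ 0 := by
    rintro rfl
    exact hb (map_zero _)
  have h5 : a ^ p = X * b ^ p := sub_eq_zero.1 h4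
  have h6 := congrArg natDegree h5
  rw [natDegree_pow, natDegree_X_mul (pow_ne_zero _ hb0), natDegree_pow] at h6
  have h7 : p ∣ 1 := by
    have h8 : p ∣ p * b.natDegree + 1 := ⟨a.natDegree, h6.symm⟩
    exact (Nat.dvd_add_right (Dvd.intro _ rfl)).1 h8
  exact absurd (Nat.le_of_dvd one_pos h7) (by have := hp.two_le; omega)

/-- common denominators -/
private theorem common_den {F R : Type} [Field F] [Field R] [Algebra F R] (u : R) (m : ℕ) (x : ℕ → R)
    (hx : ∀ i < m, x i ∈ F⟮u⟯) : ∃ D : F[X], aeval u D ≠ 0 ∧ ∃ a : ℕ → F[X], ∀ i < m, aeval u D * x i = aeval u (a i) := by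
  induction m with
  | zero => exact ⟨1, by simp, fun _ => 0, fun i hi => absurd hi (by omega)⟩
  | succ m ih =>
    obtain ⟨D, hD, a, ha⟩ := ih fun i hi => hx i (by omega)
    have h1 := hx m (by omega)
    rw [mem_adjoin_simple_iff] at h1
    obtain ⟨r, s, hrs⟩ := h1
    by_cases hs : aeval u s = 0
    · refine ⟨D, hD, fun i => if i = m then 0 else a i, ?_⟩
      intro i hi
      simp only []
      by_cases him : i = m
      · rw [if_pos him, map_zero, him, hrs, hs, div_zero, mul_zero]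
      · rw [if_neg him]
        exact ha i (by omega)
    · refine ⟨D * s, ?_, fun i => if i = m then D * r else a i * s, ?_⟩
      · rw [map_mul]
        exact mul_ne_zero hD hs
      · intro i hi
        simp only []
        by_cases him : i = m
        · rw [if_pos him, map_mul, map_mul, him, hrs]
          field_simp
        · rw [if_neg him, map_mul, map_mul, ← ha i (by omega)]
          ring

/-- a relation with polynomial coefficients -/
private theorem exists_int_rel {F R : Type} [Field F] [Field R] [Algebra F R] (u s : R) (μ : F⟮u⟯[X]) (hμ : μ ≠ 0)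
    (h0 : aeval s μ = 0) : ∃ G : F[X][Y], G ≠ 0 ∧ G.natDegree ≤ μ.natDegree ∧ ev u s G = 0 := by
  obtain ⟨D, hD, a, ha⟩ := common_den (F := F) u (μ.natDegree + 1) (fun i => (μ.coeff i : R)) fun i _ => (μ.coeff i).2
  refine ⟨∑ i ∈ Finset.range (μ.natDegree + 1), C (a i) * X ^ i, ?_, ?_, ?_⟩
  · intro h
    have h1 := congrArg (fun q => q.coeff μ.natDegree) h
    simp only [finsetSum_coeff, coeff_C_mul, coeff_X_pow, coeff_zero, mul_ite, mul_one, mul_zero] at h1
    rw [Finset.sum_ite_eq, if_pos (Finset.mem_range.2 (Nat.lt_succ_self _))] at h1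
    have h2 := ha μ.natDegree (Nat.lt_succ_self _)
    rw [h1, map_zero] at h2
    rcases mul_eq_zero.1 h2 with h3 | h3
    · exact hD h3
    · apply hμ
      rw [← leadingCoeff_eq_zero]
      exact Subtype.ext h3
  · apply natDegree_sum_le_of_forall_le
    intro i hi
    exact (natDegree_C_mul_X_pow_le _ _).trans (Nat.lt_succ_iff.1 (Finset.mem_range.1 hi))
  · have h1 : evHom u s (∑ i ∈ Finset.range (μ.natDegree + 1), C (a i) * X ^ i : F[X][Y]) = 0 := by
      rw [map_sum]
      have h2 : ∀ i ∈ Finset.range (μ.natDegree + 1), evHom u s (C (a i) * X ^ i : F[X][Y]) = aeval u D * ((μ.coeff i : R) * s ^ i) := by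
        intro i hi
        rw [evHom_apply, ev_mul, ev_C, ev_pow, ev_X, ← ha i (Finset.mem_range.1 hi), mul_assoc]
      rw [Finset.sum_congr rfl h2, ← Finset.mul_sum]
      rw [aeval_eq_sum_range] at h0
      have h3 : ∑ i ∈ Finset.range (μ.natDegree + 1), ((μ.coeff i : R) * s ^ i) = 0 := h0
      rw [h3, mul_zero]
    exact h1

/-- an irreducible relation -/
private theorem exists_irr {F R : Type} [Field F] [Field R] [Algebra F R] (u s : R) (G : F[X][Y]) (hG : G ≠ 0)
    (h0 : ev u s G = 0) : ∃ Q : F[X][Y], Irreducible Q ∧ Q.natDegree ≤ G.natDegree ∧ ev u s Q = 0 := by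
  obtain ⟨f, hf, hfG⟩ := WfDvdMonoid.exists_factors G hG
  have h1 : evHom u s f.prod = 0 := by
    obtain ⟨c, hc⟩ := hfG.symm
    rw [← hc, map_mul]
    have : evHom u s G = 0 := h0
    rw [this, zero_mul]
  rw [map_multiset_prod, Multiset.prod_eq_zero_iff, Multiset.mem_map] at h1
  obtain ⟨Q, hQ, hQ0⟩ := h1
  refine ⟨Q, hf Q hQ, ?_, hQ0⟩
  exact natDegree_le_of_dvd ((Multiset.dvd_prod hQ).trans hfG.dvd) hG

private theorem ev_expand {K R : Type} [CommRing K] [CommRing R] [Algebra K R] (u v : R) (p : ℕ) (P : K[X][Y]) :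
    ev u v (expand K[X] p P) = ev u (v ^ p) P := by
  induction P using Polynomial.induction_on' with
  | add q r hq hr => rw [map_add, ev_add, ev_add, hq, hr]
  | monomial n a =>
    rw [expand_monomial, ← C_mul_X_pow_eq_monomial, ← C_mul_X_pow_eq_monomial]
    rw [ev_mul, ev_mul, ev_pow, ev_pow, ev_C, ev_C, ev_X, ev_X, ← pow_mul, mul_comm n p]

/-- if the derivative vanishes then `s` is a `p`-th power -/
private theorem der_pow {p : ℕ} [Fact p.Prime] {R : Type} [Field R] [Algebra (ZMod p) R] (E : IntermediateField (ZMod p) R)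
    (u s : R) (hu : Transcendental (ZMod p) u) (huE : u ∈ E) (hsE : s ∈ E) (Q : (ZMod p)[X][Y]) (hQ0 : Q ≠ 0)
    (hQ : derivative Q = 0) (n : ℕ) (hn : n < p) (hQn : InLE Q n) (h0 : ev s u Q = 0) : ∃ z ∈ E, z ^ p = s := by
  have hp : p.Prime := Fact.out
  have : CharP R p := charP_of_injective_algebraMap (algebraMap (ZMod p) R).injective p
  have h1 : expand (ZMod p)[X] p (contract p Q) = Q := expand_contract p hQ hp.ne_zero
  have h2 : ev s (u ^ p) (contract p Q) = 0 := by
    rw [← ev_expand, h1, h0]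
  have h3 : contract p Q ≠ 0 := by
    intro h
    rw [h, map_zero] at h1
    exact hQ0 h1.symm
  have hup : Transcendental (ZMod p) (u ^ p) := hu.pow hp.pos
  have hinj : Function.Injective (aeval (R := ZMod p) (u ^ p) : (ZMod p)[X] →ₐ[ZMod p] R).toRingHom :=
    transcendental_iff_injective.1 hup
  have h4 : Polynomial.Bivariate.swap (R := ZMod p) (contract p Q) ≠ 0 := by
    rw [Ne, EmbeddingLike.map_eq_zero_iff]
    exact h3
  have h5 : s ∈ E.toSubfield.map (frobenius R p) := by
    apply lemA (p := p) _ s _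
      ((Polynomial.Bivariate.swap (R := ZMod p) (contract p Q)).map (aeval (R := ZMod p) (u ^ p) : (ZMod p)[X] →ₐ[ZMod p] R).toRingHom)
    · rw [Ne, Polynomial.map_eq_zero_iff hinj]
      exact h4
    · intro i
      rw [coeff_map]
      have h6 : ∀ q : (ZMod p)[X], aeval (u ^ p) q ∈ E.toSubfield.map (frobenius R p) := by
        intro q
        refine ⟨aeval u q, ?_, ?_⟩
        · have h7 := aeval_algHom_apply E.val (⟨u, huE⟩ : E) q
          have h8 : (aeval u q : R) = ((aeval (⟨u, huE⟩ : E) q : E) : R) := h7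
          rw [h8]
          exact (aeval (⟨u, huE⟩ : E) q).2
        · rw [frobenius_def, ← map_pow]
          rw [← ZMod.expand_card, expand_aeval]
      exact h6 _
    · refine lt_of_le_of_lt ?_ hn
      rw [natDegree_le_iff_coeff_eq_zero]
      intro i hi
      rw [coeff_map]
      have h6 : (Polynomial.Bivariate.swap (R := ZMod p) (contract p Q)).coeff i = 0 := by
        ext j
        rw [swap_coeff, coeff_zero, coeff_contract hp.ne_zero]
        exact coeff_eq_zero_of_natDegree_lt (lt_of_le_of_lt (hQn _) hi)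
      rw [h6, map_zero]
    · have h6 := ev_swap (u ^ p) s (contract p Q)
      rw [h2] at h6
      unfold ev at h6
      rw [eval_map]
      exact h6
    · exact ⟨s, hsE, rfl⟩
  obtain ⟨z, hz, hzs⟩ := h5
  exact ⟨z, hz, hzs⟩

/-- elements of a simple extension have small degree -/
private theorem deg_le' {K R : Type} [Field K] [Field R] [Algebra K R] (θ z : R) (hint : IsIntegral K θ) (hz : z ∈ K⟮θ⟯) :
    ∃ μ : K[X], μ ≠ 0 ∧ μ.natDegree ≤ (minpoly K θ).natDegree ∧ aeval z μ = 0 := by
  have hfd : FiniteDimensional K K⟮θ⟯ := adjoin.finiteDimensional hint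
  refine ⟨minpoly K (⟨z, hz⟩ : K⟮θ⟯), minpoly.ne_zero (IsIntegral.of_finite _ _), ?_, ?_⟩
  · refine (minpoly.natDegree_le _).trans ?_
    rw [adjoin.finrank hint]
  · have h1 := aeval_algHom_apply (K⟮θ⟯).val (⟨z, hz⟩ : K⟮θ⟯) (minpoly K (⟨z, hz⟩ : K⟮θ⟯))
    rw [minpoly.aeval, map_zero] at h1
    exact h1

theorem exists_rel {p : ℕ} [Fact p.Prime] {R : Type} [Field R] [Algebra (ZMod p) R] (u θ r : R) (hu : Transcendental (ZMod p) u)
    (n : ℕ) (hn : 1 ≤ n) (hp : n ^ 2 + n < p) (f : (ZMod p)[X][Y]) (hf : f.Monic) (hfn : f.natDegree = n) (hfθ : ev u θ f = 0)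
    (hr : r ∈ Fuv (ZMod p) u θ) :
    ∃ c : ℕ, c ≤ n ^ 2 ∧ ∃ c' : ℕ, c' ≤ 1 ∧ ∃ Q : (ZMod p)[X][Y], Rel u (r + (c : R) * θ + (c' : R) * u) Q n ∧
      θ ∈ Fuv (ZMod p) u (r + (c : R) * θ + (c' : R) * u) := by
  have hch : CharP R p := charP_of_injective_algebraMap (algebraMap (ZMod p) R).injective p
  have hch2 : CharP (ZMod p)⟮u⟯ p := charP_of_injective_algebraMap (algebraMap (ZMod p) (ZMod p)⟮u⟯).injective p
  have hnp : n < p := by omega
  have hn2 : n ≤ n ^ 2 := by nlinarith
  -- the degree of `θ`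
  have hcomp : (algebraMap (ZMod p)⟮u⟯ R).comp
      (aeval (R := ZMod p) (AdjoinSimple.gen (ZMod p) u) : (ZMod p)[X] →ₐ[ZMod p] (ZMod p)⟮u⟯).toRingHom
      = (aeval (R := ZMod p) u : (ZMod p)[X] →ₐ[ZMod p] R).toRingHom := by
    ext x
    · simp
    · simp
  have hg : aeval θ (f.map (aeval (R := ZMod p) (AdjoinSimple.gen (ZMod p) u) :
      (ZMod p)[X] →ₐ[ZMod p] (ZMod p)⟮u⟯).toRingHom) = 0 := by
    rw [aeval_def, eval₂_map, hcomp]
    exact hfθ
  have hgm := hf.map (aeval (R := ZMod p) (AdjoinSimple.gen (ZMod p) u) : (ZMod p)[X] →ₐ[ZMod p] (ZMod p)⟮u⟯).toRingHom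
  have hgd := hf.natDegree_map (aeval (R := ZMod p) (AdjoinSimple.gen (ZMod p) u) : (ZMod p)[X] →ₐ[ZMod p] (ZMod p)⟮u⟯).toRingHom
  have hint : IsIntegral (ZMod p)⟮u⟯ θ := ⟨_, hgm, hg⟩
  have hmd : (minpoly (ZMod p)⟮u⟯ θ).natDegree ≤ n := by
    have h1 := natDegree_le_of_dvd (minpoly.dvd _ _ hg) hgm.ne_zero
    rw [hgd, hfn] at h1
    exact h1
  have hsep : IsSeparable (ZMod p)⟮u⟯ θ := sep_of_lt (p := p) (minpoly.irreducible hint) (lt_of_le_of_lt hmd hnp)
  have hEq : ((ZMod p)⟮u⟯⟮θ⟯).restrictScalars (ZMod p) = Fuv (ZMod p) u θ := adjoin_simple_adjoin_simple (ZMod p) u θ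
  have hmem : ∀ z : R, z ∈ Fuv (ZMod p) u θ ↔ z ∈ (ZMod p)⟮u⟯⟮θ⟯ := by
    intro z
    rw [← hEq, mem_restrictScalars]
  obtain ⟨c, hc, hgen⟩ := gen_c' (p := p) θ r hsep n hmd hnp ((hmem r).1 hr)
  have hdeg : ∀ z ∈ Fuv (ZMod p) u θ, ∃ μ : (ZMod p)⟮u⟯[X], μ ≠ 0 ∧ μ.natDegree ≤ n ∧ aeval z μ = 0 := by
    intro z hz
    obtain ⟨μ, h1, h2, h3⟩ := deg_le' θ z hint ((hmem z).1 hz)
    exact ⟨μ, h1, h2.trans hmd, h3⟩
  have huE : u ∈ Fuv (ZMod p) u θ := subset_adjoin _ _ (Set.mem_insert _ _)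
  have hθE : θ ∈ Fuv (ZMod p) u θ := subset_adjoin _ _ (Set.mem_insert_of_mem _ rfl)
  -- not a `p`-th power
  obtain ⟨c', hc', hnot⟩ : ∃ c' : ℕ, c' ≤ 1 ∧
      ¬ ∃ z ∈ Fuv (ZMod p) u θ, z ^ p = r + (c : R) * θ + (c' : R) * u := by
    by_cases h : ∃ z ∈ Fuv (ZMod p) u θ, z ^ p = r + (c : R) * θ
    · obtain ⟨z, hz, hzp⟩ := h
      refine ⟨1, le_rfl, ?_⟩
      rintro ⟨w, hw, hwp⟩
      have h1 : (w - z) ^ p = u := by
        rw [sub_pow_char, hwp, hzp]
        push_cast
        ring
      obtain ⟨μ, hμ0, hμn, hμ⟩ := hdeg (w - z) (sub_mem hw hz)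
      exact not_pow u hu (w - z) h1 μ hμ0 (lt_of_le_of_lt hμn hnp) hμ
    · refine ⟨0, by omega, ?_⟩
      rwa [Nat.cast_zero, zero_mul, add_zero]
  refine ⟨c, hc.trans hn2, c', hc', ?_⟩
  have hsE : r + (c : R) * θ + (c' : R) * u ∈ Fuv (ZMod p) u θ :=
    add_mem (add_mem hr (mul_mem (_root_.natCast_mem _ c) hθE)) (mul_mem (_root_.natCast_mem _ c') huE)
  obtain ⟨μ, hμ0, hμn, hμ⟩ := hdeg _ hsE
  obtain ⟨G, hG0, hGn, hG⟩ := exists_int_rel u _ μ hμ0 hμ
  obtain ⟨Q', hQ', hQn, hQ0⟩ := exists_irr u _ G hG0 hG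
  have hQirr : Irreducible (Polynomial.Bivariate.swap (R := ZMod p) Q') := by
    rw [MulEquiv.irreducible_iff]
    exact hQ'
  have hQle : InLE (Polynomial.Bivariate.swap (R := ZMod p) Q') n := by
    intro j
    rw [natDegree_le_iff_coeff_eq_zero]
    intro i hi
    rw [swap_coeff, coeff_eq_zero_of_natDegree_lt (lt_of_le_of_lt (hQn.trans (hGn.trans hμn)) hi), coeff_zero]
  have hQev : ev (r + (c : R) * θ + (c' : R) * u) u (Polynomial.Bivariate.swap (R := ZMod p) Q') = 0 := by
    rw [ev_swap, hQ0]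
  refine ⟨Polynomial.Bivariate.swap (R := ZMod p) Q', ⟨hu, hQirr, ?_, hQle, hQev⟩, ?_⟩
  · intro hder
    exact hnot (der_pow (Fuv (ZMod p) u θ) u _ hu huE hsE _ hQirr.ne_zero hder n hnp hQle hQev)
  · have h1 : θ ∈ (ZMod p)⟮u⟯⟮r + (c : R) * θ⟯ := by
      rw [hgen]
      exact mem_adjoin_simple_self _ θ
    have h2 : θ ∈ Fuv (ZMod p) u (r + (c : R) * θ) := by
      have h3 : ((ZMod p)⟮u⟯⟮r + (c : R) * θ⟯).restrictScalars (ZMod p) = Fuv (ZMod p) u (r + (c : R) * θ) :=
        adjoin_simple_adjoin_simple (ZMod p) u (r + (c : R) * θ)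
      rw [← h3, mem_restrictScalars]
      exact h1
    have h3 : Fuv (ZMod p) u (r + (c : R) * θ) ≤ Fuv (ZMod p) u (r + (c : R) * θ + (c' : R) * u) := by
      have h4 : u ∈ Fuv (ZMod p) u (r + (c : R) * θ + (c' : R) * u) := subset_adjoin _ _ (Set.mem_insert _ _)
      have h5 : r + (c : R) * θ + (c' : R) * u ∈ Fuv (ZMod p) u (r + (c : R) * θ + (c' : R) * u) :=
        subset_adjoin _ _ (Set.mem_insert_of_mem _ rfl)
      rw [adjoin_le_iff]
      rintro z (rfl | hz)
      · exact h4
      · rw [Set.mem_singleton_iff] at hz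
        rw [hz]
        have h6 := sub_mem h5 (mul_mem (_root_.natCast_mem _ c') h4)
        rwa [add_sub_cancel_right] at h6
    exact h3 h2

end BSCG
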