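import Pool.Agent.Lib_MP_49ddc8_g.A1
import Pool.Agent.Lib_MP_49ddc8_g.Ev

/-!
# [C3a] norms by resultants

`N = resultant f A` (outer variable), `exists_mul_add_mul_eq_C_resultant`: `N = α f + β A`. Not zero: `f` is irreducible, monic, and
`A ≠ 0` has smaller degree. Degree: [A1] `natDegree_det_le`.
-/

set_option autoImplicit false

open Polynomial Polynomial.Bivariate

namespace BSCG

private theorem resultant_ne_zero_c3a {F : Type} [Field F] (f A : F[X][Y]) (hf : f.Monic) (hirr : Irreducible f) (hA : A ≠ 0)
    (hAf : A.natDegree < f.natDegree) : resultant f A ≠ 0 := by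
  intro h
  have hinj : Function.Injective (algebraMap F[X] (FractionRing F[X])) := IsFractionRing.injective _ _
  have hirr' : Irreducible (f.map (algebraMap F[X] (FractionRing F[X]))) :=
    (Monic.irreducible_iff_irreducible_map_fraction_map hf).1 hirr
  have hA' : A.map (algebraMap F[X] (FractionRing F[X])) ≠ 0 := by
    intro h0
    exact hA ((Polynomial.map_eq_zero_iff hinj).1 h0)
  have hcop : IsCoprime (f.map (algebraMap F[X] (FractionRing F[X]))) (A.map (algebraMap F[X] (FractionRing F[X]))) := by
    rw [hirr'.coprime_iff_not_dvd]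
    intro h1
    have h2 := Polynomial.natDegree_le_of_dvd h1 hA'
    rw [natDegree_map_eq_of_injective hinj, natDegree_map_eq_of_injective hinj] at h2
    omega
  have h3 := resultant_ne_zero _ _ hcop
  apply h3
  rw [natDegree_map_eq_of_injective hinj, natDegree_map_eq_of_injective hinj, resultant_map_map, h, map_zero]

theorem exists_norm {F : Type} [Field F] (f A : F[X][Y]) (hf : f.Monic) (hirr : Irreducible f) (hA : A ≠ 0)
    (hAf : A.natDegree < f.natDegree) (D : ℕ) (hfD : InLE f D) (hAD : InLE A D) :
    ∃ (N : F[X]) (α β : F[X][Y]), N ≠ 0 ∧ N.natDegree ≤ 2 * f.natDegree * D ∧ C N = α * f + β * A := by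
  obtain ⟨p, q, -, -, hpq⟩ := exists_mul_add_mul_eq_C_resultant f A le_rfl le_rfl (Or.inl (by omega))
  refine ⟨resultant f A, p, q, resultant_ne_zero_c3a f A hf hirr hA hAf, ?_, ?_⟩
  · have h1 : (resultant f A).natDegree ≤ (f.natDegree + A.natDegree) * D := by
      unfold resultant
      apply natDegree_det_le
      intro i j
      unfold sylvester
      rw [Matrix.of_apply]
      refine Fin.addCases (fun j => ?_) (fun j => ?_) j
      · rw [Fin.addCases_left]
        split_ifs
        · exact hAD _
        · simp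
      · rw [Fin.addCases_right]
        split_ifs
        · exact hfD _
        · simp
    refine h1.trans (Nat.mul_le_mul_right _ (by omega))
  · rw [← hpq]
    ring

private theorem exists_inLE_c3a {K : Type} [CommRing K] (P : K[X][Y]) : ∃ D, InLE P D := by
  refine ⟨P.support.sup fun j => (P.coeff j).natDegree, fun j => ?_⟩
  by_cases hj : j ∈ P.support
  · exact Finset.le_sup (f := fun j => (P.coeff j).natDegree) hj
  · rw [notMem_support_iff.1 hj]
    simp

/-- `A(u, θ) = 0` only for multiples of the irreducible `f` -/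
theorem dvd_of_ev {F R : Type} [Field F] [Field R] [Algebra F R] (u θ : R) (hu : Transcendental F u) (f A : F[X][Y]) (hf : f.Monic)
    (hirr : Irreducible f) (hfθ : ev u θ f = 0) (hA : ev u θ A = 0) : f ∣ A := by
  rw [← modByMonic_eq_zero_iff_dvd hf]
  by_contra hr
  have h1 : ev u θ (A %ₘ f) = 0 := by
    have h2 := modByMonic_add_div A f
    have h3 := congrArg (ev u θ) h2
    rw [ev_add, ev_mul, hfθ, zero_mul, add_zero, hA] at h3
    exact h3
  have hne : f ≠ 1 := fun h => hirr.not_isUnit (by rw [h]; exact isUnit_one)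
  have hdeg : (A %ₘ f).natDegree < f.natDegree := natDegree_modByMonic_lt A hf hne
  obtain ⟨D1, hD1⟩ := exists_inLE_c3a f
  obtain ⟨D2, hD2⟩ := exists_inLE_c3a (A %ₘ f)
  obtain ⟨N, α, β, hN, -, hNe⟩ := exists_norm f (A %ₘ f) hf hirr hr hdeg (max D1 D2)
    (fun j => (hD1 j).trans (le_max_left _ _)) (fun j => (hD2 j).trans (le_max_right _ _))
  have h4 := congrArg (ev u θ) hNe
  rw [ev_C, ev_add, ev_mul, ev_mul, hfθ, h1, mul_zero, mul_zero, add_zero] at h4
  exact hu ⟨N, hN, h4⟩

end BSCG
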