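import Pool.Agent.Lib_MP_49ddc8_g.Ev

/-!
# [C3b] integrality of `F[u, θ]`, quotients, irreducible factors
-/

set_option autoImplicit false

open Polynomial Polynomial.Bivariate

namespace BSCG

/-- elements of `F[u, θ]` are integral over `F[u]` -/
theorem int_ev {F R : Type} [Field F] [Field R] [Algebra F R] (u θ : R) (f A : F[X][Y]) (hf : f.Monic) (hfθ : ev u θ f = 0) :
    IntU F u (ev u θ A) := by
  let u' : Algebra.adjoin F ({u} : Set R) := ⟨u, Algebra.subset_adjoin rfl⟩
  let φ : F[X] →+* Algebra.adjoin F ({u} : Set R) := (aeval (R := F) u').toRingHom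
  have hφ : ∀ q : F[X], ((φ q : Algebra.adjoin F ({u} : Set R)) : R) = aeval u q := by
    intro q
    show (algebraMap (Algebra.adjoin F ({u} : Set R)) R) (aeval u' q) = aeval u q
    rw [← aeval_algebraMap_apply]
    rfl
  have hcoe : ∀ q : F[X], IsIntegral (Algebra.adjoin F ({u} : Set R)) (aeval u q) := by
    intro q
    rw [← hφ q]
    exact isIntegral_algebraMap (R := Algebra.adjoin F ({u} : Set R)) (A := R) (x := φ q)
  have hθ : IsIntegral (Algebra.adjoin F ({u} : Set R)) θ := by
    refine ⟨f.map φ, hf.map φ, ?_⟩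
    rw [eval₂_map]
    have e : (algebraMap (Algebra.adjoin F ({u} : Set R)) R).comp φ = (aeval (R := F) u : F[X] →ₐ[F] R).toRingHom := by
      ext q
      · exact hφ (C q)
      · exact hφ X
    rw [e]
    exact hfθ
  unfold IntU
  rw [ev_eq_sum, Polynomial.sum]
  exact IsIntegral.sum _ fun j _ => (hcoe _).mul (hθ.pow j)

private theorem c3b_ne {F R : Type} [Field F] [Field R] [Algebra F R] {u : R} (hu : Transcendental F u) {b : F[X]} (hb : b ≠ 0) :
    aeval u b ≠ 0 := by
  intro h
  exact hu ⟨b, hb, h⟩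

private theorem c3b_red {F R : Type} [Field F] [Field R] [Algebra F R] (u θ : R) (f : F[X][Y]) (hf : f.Monic)
    (hfθ : ev u θ f = 0) (a : F[X][Y]) : (a %ₘ f).natDegree < f.natDegree ∧ ev u θ (a %ₘ f) = ev u θ a := by
  constructor
  · refine natDegree_modByMonic_lt _ hf ?_
    rintro rfl
    rw [ev_one] at hfθ
    exact one_ne_zero hfθ
  · conv_rhs => rw [← modByMonic_add_div a f]
    rw [ev_add, ev_mul, hfθ, zero_mul, add_zero]

private theorem c3b_const {S R : Type} [CommRing S] [Field R] [Algebra S R] {w : R} (hw : w ≠ 0) (n : ℕ) :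
    ∀ m : S[X], m.natDegree ≤ n → m ≠ 0 → aeval w m = 0 → ∃ q : S[X], q.coeff 0 ≠ 0 ∧ aeval w q = 0 := by
  induction n with
  | zero =>
    intro m hm hm0 h
    refine ⟨m, ?_, h⟩
    intro h0
    apply hm0
    rw [eq_C_of_natDegree_le_zero hm, h0, map_zero]
  | succ n ih =>
    intro m hm hm0 h
    by_cases h0 : m.coeff 0 = 0
    · have e := divX_mul_X_add m
      rw [h0, map_zero, add_zero] at e
      refine ih m.divX ?_ ?_ ?_
      · rw [natDegree_divX_eq_natDegree_tsub_one]
        omega
      · intro h1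
        rw [h1, zero_mul] at e
        exact hm0 e.symm
      · rw [← e, map_mul, aeval_X] at h
        exact (mul_eq_zero.1 h).resolve_right hw
    · exact ⟨m, h0, h⟩

/-- elements of `F(u, θ)` are quotients -/
theorem mem_Fuv {F R : Type} [Field F] [Field R] [Algebra F R] (u θ : R) (hu : Transcendental F u) (f : F[X][Y]) (hf : f.Monic)
    (hfθ : ev u θ f = 0) (z : R) :
    z ∈ Fuv F u θ ↔ ∃ (a : F[X][Y]) (b : F[X]), b ≠ 0 ∧ a.natDegree < f.natDegree ∧ aeval u b * z = ev u θ a := by
  constructor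
  · intro hz
    -- without the bound for the degree
    suffices h : ∃ (a : F[X][Y]) (b : F[X]), b ≠ 0 ∧ aeval u b * z = ev u θ a by
      obtain ⟨a, b, hb, h⟩ := h
      obtain ⟨h1, h2⟩ := c3b_red u θ f hf hfθ a
      exact ⟨a %ₘ f, b, hb, h1, by rw [h2, h]⟩
    induction hz using IntermediateField.adjoin_induction with
    | mem x hx =>
      rcases hx with rfl | hx
      · exact ⟨C X, 1, one_ne_zero, by rw [ev_C, aeval_X, map_one, one_mul]⟩
      · rw [Set.mem_singleton_iff] at hx
        subst hx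
        exact ⟨X, 1, one_ne_zero, by rw [ev_X, map_one, one_mul]⟩
    | algebraMap x => exact ⟨C (C x), 1, one_ne_zero, by rw [ev_C, aeval_C, map_one, one_mul]⟩
    | add x y hx hy h1 h2 =>
      obtain ⟨a, b, hb, h⟩ := h1
      obtain ⟨a', b', hb', h'⟩ := h2
      refine ⟨C b' * a + C b * a', b * b', mul_ne_zero hb hb', ?_⟩
      rw [ev_add, ev_mul, ev_mul, ev_C, ev_C, ← h, ← h', map_mul]
      ring
    | mul x y hx hy h1 h2 =>
      obtain ⟨a, b, hb, h⟩ := h1
      obtain ⟨a', b', hb', h'⟩ := h2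
      refine ⟨a * a', b * b', mul_ne_zero hb hb', ?_⟩
      rw [ev_mul, ← h, ← h', map_mul]
      ring
    | inv x hx h1 =>
      obtain ⟨a, b, hb, h⟩ := h1
      have hb0 := c3b_ne hu hb
      by_cases hx0 : x = 0
      · exact ⟨0, 1, one_ne_zero, by rw [hx0, inv_zero, mul_zero, ev_zero]⟩
      have hw0 : ev u θ a ≠ 0 := by
        rw [← h]
        exact mul_ne_zero hb0 hx0
      have hint : IsIntegral (Algebra.adjoin F ({u} : Set R)) (ev u θ a) := int_ev u θ f a hf hfθ
      obtain ⟨w, hw⟩ : ∃ w, w = ev u θ a := ⟨_, rfl⟩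
      rw [← hw] at h hw0 hint
      -- elements of `F[u]`
      have hS : ∀ s : Algebra.adjoin F ({u} : Set R), ∃ q : F[X], aeval u q = (s : R) := by
        intro s
        obtain ⟨s, hs⟩ := s
        rw [Algebra.adjoin_singleton_eq_range_aeval] at hs
        exact hs
      have hV : ∀ s : Algebra.adjoin F ({u} : Set R), (s : R) ∈ (evHom (K := F) u θ).range := by
        intro s
        obtain ⟨q, hq⟩ := hS s
        exact ⟨C q, by rw [evHom_apply, ev_C, hq]⟩
      have hwV : w ∈ (evHom (K := F) u θ).range := ⟨a, by rw [evHom_apply, hw]⟩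
      have hqV : ∀ q : (Algebra.adjoin F ({u} : Set R))[X], aeval w q ∈ (evHom (K := F) u θ).range := by
        intro q
        rw [aeval_eq_sum_range]
        refine sum_mem fun i _ => ?_
        rw [Algebra.smul_def]
        exact mul_mem (hV _) (pow_mem hwV i)
      obtain ⟨m, hm0, hmw⟩ : ∃ m : (Algebra.adjoin F ({u} : Set R))[X], m.coeff 0 ≠ 0 ∧ aeval w m = 0 := by
        obtain ⟨m, hm, hmw⟩ := hint
        exact c3b_const hw0 m.natDegree m le_rfl hm.ne_zero hmw
      rw [← divX_mul_X_add m, map_add, map_mul, aeval_X, aeval_C] at hmw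
      obtain ⟨c, hc⟩ := hS (m.coeff 0)
      obtain ⟨v, hv⟩ := hqV m.divX
      rw [evHom_apply] at hv
      have hc0 : c ≠ 0 := by
        rintro rfl
        rw [map_zero] at hc
        exact hm0 (Subtype.ext hc.symm)
      have hmw' : ev u θ v * w + aeval u c = 0 := by
        rw [hv, hc]
        exact hmw
      refine ⟨-(C b * v), c, hc0, ?_⟩
      have h3 : ev u θ (-(C b * v)) = -(aeval u b * ev u θ v) := by
        rw [← zero_sub, ev_sub, ev_zero, ev_mul, ev_C, zero_sub]
      rw [h3]
      have h4 : aeval u c = -(ev u θ v * w) := by linear_combination hmw'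
      rw [h4, ← h]
      field_simp
  · rintro ⟨a, b, hb, -, h⟩
    have hb0 := c3b_ne hu hb
    have huL : u ∈ Fuv F u θ := IntermediateField.subset_adjoin F _ (Set.mem_insert _ _)
    have hθL : θ ∈ Fuv F u θ := IntermediateField.subset_adjoin F _ (Set.mem_insert_of_mem _ rfl)
    have hq : ∀ q : F[X], aeval u q ∈ Fuv F u θ := by
      intro q
      rw [aeval_eq_sum_range]
      exact sum_mem fun i _ => (Fuv F u θ).smul_mem (pow_mem huL i)
    have hev : ev u θ a ∈ Fuv F u θ := by
      rw [ev_eq_sum, Polynomial.sum]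
      exact sum_mem fun i _ => mul_mem (hq _) (pow_mem hθL i)
    have e : z = ev u θ a / aeval u b := by
      rw [← h]
      field_simp
    rw [e]
    exact div_mem hev (hq b)

/-- a monic polynomial with root `θ` has an irreducible monic factor with root `θ` -/
theorem exists_irr {F R : Type} [Field F] [Field R] [Algebra F R] (u θ : R) (f : F[X][Y]) (hf : f.Monic) (hfθ : ev u θ f = 0) :
    ∃ g : F[X][Y], g.Monic ∧ Irreducible g ∧ ev u θ g = 0 := by
  obtain ⟨n, hn⟩ : ∃ n, n = f.natDegree := ⟨_, rfl⟩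
  induction n using Nat.strong_induction_on generalizing f with
  | _ n ih =>
    have hf1 : f ≠ 1 := by
      rintro rfl
      rw [ev_one] at hfθ
      exact one_ne_zero hfθ
    by_cases hirr : Irreducible f
    · exact ⟨f, hf, hirr, hfθ⟩
    rw [irreducible_of_monic hf hf1] at hirr
    push Not at hirr
    obtain ⟨g, h, hg, hh, hgh, hg1, hh1⟩ := hirr
    have hgd : 0 < g.natDegree := Nat.pos_of_ne_zero fun h0 => hg1 (hg.natDegree_eq_zero.1 h0)
    have hhd : 0 < h.natDegree := Nat.pos_of_ne_zero fun h0 => hh1 (hh.natDegree_eq_zero.1 h0)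
    have hd : f.natDegree = g.natDegree + h.natDegree := by rw [← hgh, hg.natDegree_mul hh]
    have h0 : ev u θ g * ev u θ h = 0 := by rw [← ev_mul, hgh, hfθ]
    rcases mul_eq_zero.1 h0 with h1 | h1
    · exact ih g.natDegree (by omega) g hg h1 rfl
    · exact ih h.natDegree (by omega) h hh h1 rfl

end BSCG
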