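import Pool.Agent.Lib_MP_49ddc8_g.Counts

/-!
# The sum of the degrees of gcd (P_e, P_e') (MP_49ddc8_ag, general version, sections 4.1 - 4.3)
-/

set_option autoImplicit false

open Polynomial Matrix

namespace BSCG

theorem coeff_swap {R : Type*} [CommRing R] (P : R[X][X]) (i j : ℕ) :
    ((Bivariate.swap P).coeff i).coeff j = (P.coeff j).coeff i := by
  classical
  induction P using Polynomial.induction_on' with
  | add p q hp hq => simp only [map_add, coeff_add, hp, hq]
  | monomial n f =>
    rw [Bivariate.swap_monomial, coeff_mul_C, coeff_map, coeff_monomial, coeff_C_mul_X_pow]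
    by_cases h : n = j
    · subst h
      simp
    · have h' : ¬ j = n := fun h2 => h h2.symm
      simp [h, h']

theorem swap_map_eval {R : Type*} [CommRing R] (P : R[X][X]) (e : R) :
    (Bivariate.swap P).map (evalRingHom e) = P.eval (C e) := by
  induction P using Polynomial.induction_on' with
  | add p q hp hq => simp only [map_add, Polynomial.map_add, eval_add, hp, hq]
  | monomial n f =>
    rw [Bivariate.swap_monomial, Polynomial.map_mul, Polynomial.map_map, Polynomial.map_C, eval_monomial]
    have h1 : (evalRingHom e).comp C = RingHom.id R := by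
      ext x
      simp
    rw [h1, Polynomial.map_id]
    simp

section

variable {k : Type*} [Field k]

theorem swap_irred {P : k[X][X]} (hP : Irreducible P) : Irreducible (Bivariate.swap P) :=
  (MulEquiv.irreducible_iff (Bivariate.swap (R := k)).toMulEquiv).2 hP

/-- `P(u, e) ≠ 0` -/
theorem eval_ne_zero (P : k[X][X]) (hP : Irreducible P) (hd : derivative (Bivariate.swap P) ≠ 0) (e : k) : P.eval (C e) ≠ 0 := by
  intro h
  have h1 : (X - C (C e)) ∣ P := dvd_iff_isRoot.2 h
  obtain ⟨q, hq⟩ := h1
  have h2 : IsUnit q := (hP.isUnit_or_isUnit hq).resolve_left (not_isUnit_X_sub_C _)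
  obtain ⟨c, hc, hcq⟩ := Polynomial.isUnit_iff.1 h2
  obtain ⟨c', hc', hcc⟩ := Polynomial.isUnit_iff.1 hc
  apply hd
  rw [hq, ← hcq, ← hcc]
  rw [map_mul, map_sub, Bivariate.swap_Y, Bivariate.swap_C_C, Bivariate.swap_C_C, derivative_mul]
  simp

theorem natDegree_det_le {N : ℕ} (M : Matrix (Fin N) (Fin N) k[X]) (n : ℕ) (h : ∀ i j, (M i j).natDegree ≤ n) : M.det.natDegree ≤ N * n := by
  classical
  rw [Matrix.det_apply]
  refine natDegree_sum_le_of_forall_le _ _ fun σ _ => ?_
  refine (natDegree_smul_le _ _).trans ?_
  refine (natDegree_prod_le _ _).trans ?_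
  refine (Finset.sum_le_card_nsmul _ _ n fun i _ => h _ _).trans ?_
  simp

theorem natDegree_coeff_swap_le (P : k[X][X]) (i : ℕ) : ((Bivariate.swap P).coeff i).natDegree ≤ P.natDegree := by
  rw [natDegree_le_iff_coeff_eq_zero]
  intro j hj
  rw [coeff_swap, coeff_eq_zero_of_natDegree_lt hj, coeff_zero]

theorem resultant_swap_ne_zero (P : k[X][X]) (hP : Irreducible P) (hd : derivative (Bivariate.swap P) ≠ 0) :
    resultant (Bivariate.swap P) (derivative (Bivariate.swap P)) (Bivariate.swap P).natDegree ((Bivariate.swap P).natDegree - 1) ≠ 0 := by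
  classical
  set Q := Bivariate.swap P with hQ
  have hirr : Irreducible Q := swap_irred hP
  have hh : 0 < Q.natDegree := by
    rcases Nat.eq_zero_or_pos Q.natDegree with h | h
    · exfalso
      apply hd
      rw [eq_C_of_natDegree_eq_zero h, derivative_C]
    · exact h
  have hdeg : (derivative Q).natDegree ≤ Q.natDegree - 1 := natDegree_derivative_le Q
  obtain ⟨j, hj⟩ := Nat.exists_eq_add_of_le hdeg
  rw [hj, resultant_add_right_deg _ _ _ _ _ le_rfl]
  refine mul_ne_zero (pow_ne_zero _ ?_) ?_
  · rw [coeff_natDegree]
    exact leadingCoeff_ne_zero.2 hirr.ne_zero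
  · intro h0
    have hinj : Function.Injective (algebraMap k[X] (RatFunc k)) := IsFractionRing.injective _ _
    have hprim : Q.IsPrimitive := hirr.isPrimitive hh.ne'
    have hirr' : Irreducible (Q.map (algebraMap k[X] (RatFunc k))) :=
      (hprim.irreducible_iff_irreducible_map_fraction_map).1 hirr
    have h1 : resultant (Q.map (algebraMap k[X] (RatFunc k))) ((derivative Q).map (algebraMap k[X] (RatFunc k))) = 0 := by
      rw [natDegree_map_eq_of_injective hinj, natDegree_map_eq_of_injective hinj, resultant_map_map, h0, map_zero]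
    rw [resultant_eq_zero_iff] at h1
    apply h1.2
    rw [hirr'.coprime_iff_not_dvd]
    intro h2
    have h3 : (derivative Q).map (algebraMap k[X] (RatFunc k)) ≠ 0 := (Polynomial.map_ne_zero_iff hinj).2 hd
    have h4 := natDegree_le_of_dvd h2 h3
    rw [natDegree_map_eq_of_injective hinj, natDegree_map_eq_of_injective hinj] at h4
    omega

theorem pow_dvd_resultant [DecidableEq k] (P : k[X][X]) (hP : Irreducible P) (hd : derivative (Bivariate.swap P) ≠ 0) (e : k) :
    (X - C e) ^ (EuclideanDomain.gcd (P.eval (C e)) (derivative (P.eval (C e)))).natDegree ∣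
      resultant (Bivariate.swap P) (derivative (Bivariate.swap P)) (Bivariate.swap P).natDegree ((Bivariate.swap P).natDegree - 1) := by
  set Q := Bivariate.swap P with hQ
  have hQe : Q.map (evalRingHom e) = P.eval (C e) := swap_map_eval P e
  have hQe' : (derivative Q).map (evalRingHom e) = derivative (P.eval (C e)) := by rw [← derivative_map, hQe]
  have h2 : (P.eval (C e)).natDegree ≤ Q.natDegree := by
    rw [← hQe]
    exact natDegree_map_le
  have h3 : (derivative (P.eval (C e))).natDegree ≤ Q.natDegree - 1 := by
    rw [← hQe']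
    exact natDegree_map_le.trans (natDegree_derivative_le Q)
  obtain ⟨w, hw, hker⟩ := syl_corank (P.eval (C e)) (derivative (P.eval (C e))) Q.natDegree (Q.natDegree - 1) h2 h3 (eval_ne_zero P hP hd e)
  refine det_lemma _ e w hw fun i => ?_
  have h1 := hker i
  rw [← hQe', ← hQe, sylvester_map_map] at h1
  exact h1

theorem sum_gcd_le [DecidableEq k] (P : k[X][X]) (hP : Irreducible P) (hd : derivative (Bivariate.swap P) ≠ 0) (E : Finset k) :
    ∑ e ∈ E, (EuclideanDomain.gcd (P.eval (C e)) (derivative (P.eval (C e)))).natDegree ≤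
      (2 * (Bivariate.swap P).natDegree - 1) * P.natDegree := by
  set Q := Bivariate.swap P with hQ
  set R := resultant Q (derivative Q) Q.natDegree (Q.natDegree - 1) with hR
  have hR0 : R ≠ 0 := resultant_swap_ne_zero P hP hd
  have hh : 0 < Q.natDegree := by
    rcases Nat.eq_zero_or_pos Q.natDegree with h | h
    · exfalso
      apply hd
      rw [eq_C_of_natDegree_eq_zero h, derivative_C]
    · exact h
  have hdeg : R.natDegree ≤ (Q.natDegree + (Q.natDegree - 1)) * P.natDegree := by
    apply natDegree_det_le
    intro i j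
    have h1 : ∀ l, (Q.coeff l).natDegree ≤ P.natDegree := fun l => natDegree_coeff_swap_le P l
    have h2 : ∀ l, ((derivative Q).coeff l).natDegree ≤ P.natDegree := by
      intro l
      rw [coeff_derivative]
      refine natDegree_mul_le.trans ?_
      have h3 : ((l : k[X]) + 1).natDegree = 0 := by
        have : ((l : k[X]) + 1) = ((l + 1 : ℕ) : k[X]) := by push_cast; ring
        rw [this, natDegree_natCast]
      rw [h3, add_zero]
      exact h1 _
    rw [sylvester, Matrix.of_apply]
    induction j using Fin.addCases with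
    | left j =>
      rw [Fin.addCases_left]
      split_ifs
      · exact h2 _
      · simp
    | right j =>
      rw [Fin.addCases_right]
      split_ifs
      · exact h1 _
      · simp
  have hdvd : ∏ e ∈ E, (X - C e) ^ (EuclideanDomain.gcd (P.eval (C e)) (derivative (P.eval (C e)))).natDegree ∣ R := by
    refine Finset.prod_dvd_of_coprime ?_ fun e _ => pow_dvd_resultant P hP hd e
    intro a _ b _ hab
    exact (pairwise_coprime_X_sub_C Function.injective_id hab).pow
  have h1 := natDegree_le_of_dvd hdvd hR0
  rw [natDegree_prod_of_monic _ _ fun e _ => (monic_X_sub_C e).pow _] at h1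
  simp only [natDegree_pow, natDegree_X_sub_C, mul_one] at h1
  refine h1.trans (hdeg.trans ?_)
  apply Nat.mul_le_mul_right
  omega

end

end BSCG
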