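import Pool.Agent.Lib_MP_49ddc8.Defs
import Pool.Agent.Lib_MP_49ddc8_v.VFam

/-!
# Birational section conjecture over finitely generated fields which are not number fields: definitions of the global part

Text: /team-store/bsc_fg_proof.md.  Bivariate polynomials `P : K[X][Y]`: `ev u v P` puts `u` for the inner variable and `v` for the outer one.
-/

set_option autoImplicit false

open Polynomial Polynomial.Bivariate

namespace BSCG

/-- evaluation of a bivariate polynomial: inner variable at `u`, outer variable at `v` -/
noncomputable def ev {K R : Type} [CommRing K] [CommRing R] [Algebra K R] (u v : R) (P : K[X][Y]) : R :=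
  P.eval₂ (aeval (R := K) u : K[X] →ₐ[K] R).toRingHom v

/-- all coefficients of `P` have degree at most `d` in the inner variable -/
def InLE {K : Type} [CommRing K] (P : K[X][Y]) (d : ℕ) : Prop := ∀ j, (P.coeff j).natDegree ≤ d

/-- the monomials of `P` are `X ^ b * Y ^ a` with `a < N`, `b < D` -/
def Box {K : Type} [CommRing K] (P : K[X][Y]) (N D : ℕ) : Prop := ∀ a b, (P.coeff a).coeff b ≠ 0 → a < N ∧ b < D

/-- the simple roots of `q` in the algebraic closure -/
noncomputable def simp {F : Type} [Field F] (q : F[X]) : Finset (AlgebraicClosure F) :=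
  open scoped Classical in
  (q.map (algebraMap F (AlgebraicClosure F))).roots.toFinset.filter fun a => aeval a (derivative q) ≠ 0

/-- the specialisation of `Q` at `e` (inner variable) -/
noncomputable def spec {F : Type} [Field F] (Q : F[X][Y]) (e : F) : F[X] := Q.map (evalRingHom e)

/-- the degree of the greatest common divisor of `q` and its derivative -/
noncomputable def gd {F : Type} [Field F] (q : F[X]) : ℕ :=
  open scoped Classical in (EuclideanDomain.gcd q (derivative q)).natDegree

/-- the resultant of `Q` and its derivative in the outer variable -/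
noncomputable def dres {F : Type} [Field F] (Q : F[X][Y]) : F[X] := resultant Q (derivative Q) Q.natDegree (Q.natDegree - 1)

/-- `F(u, v)` inside `R` -/
noncomputable abbrev Fuv (F : Type) {R : Type} [Field F] [Field R] [Algebra F R] (u v : R) : IntermediateField F R :=
  IntermediateField.adjoin F ({u, v} : Set R)

/-- `z` is integral over `F[u]` -/
def IntU (F : Type) {R : Type} [Field F] [Field R] [Algebra F R] (u z : R) : Prop :=
  IsIntegral (Algebra.adjoin F ({u} : Set R)) z

/-- The relation between the elements `u`, `r`: `Q` is irreducible, `Q(r; u) = 0` (inner variable `r`, outer variable `u`), the derivative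
of `Q` in the outer variable is not zero, and the degree in the inner variable is at most `n`. -/
structure Rel {F R : Type} [Field F] [Field R] [Algebra F R] (u r : R) (Q : F[X][Y]) (n : ℕ) : Prop where
  tr : Transcendental F u
  irr : Irreducible Q
  der : derivative Q ≠ 0
  deg : InLE Q n
  rel : ev r u Q = 0

/-- the leading coefficient of `Q` in the inner variable, a polynomial in the outer variable -/
noncomputable def lcU {F : Type} [Field F] (Q : F[X][Y]) : F[X] := (Polynomial.Bivariate.swap (R := F) Q).leadingCoeff

section

variable {κ Ω : Type} [Field κ] [Field Ω] [Algebra κ Ω]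

/-- The interface between the local part (valuation rings `W t` above Gauss valuations) and the global part.
`K` is the algebraic closure of `k` in `Ω`, `κ = k(u, θ)`; `fam` is the family of reductions `K → ZMod p` (lemmas in VFam.lean). -/
structure Pack (S : BSC.Sec κ Ω) (K : Subfield Ω) (u θ : Ω) where
  fam : BSC.Fam K
  W : fam.T → ValuationSubring Ω
  char : ∀ t, (W t).valuation ((fam.p t : ℕ) : Ω) < 1
  comp : ∀ c : K, ∀ᶠ t in (fam.U : Filter fam.T), (W t).valuation ((c : Ω) - (((fam.red t c).val : ℕ) : Ω)) < 1
  unit : ∀ z : Ω, IsAlgebraic κ z → z ≠ 0 → ∀ᶠ t in (fam.U : Filter fam.T), (W t).valuation z = 1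
  utr : ∀ t, ∀ a : ℤ[X], BSC.ired (fam.p t) a ≠ 0 → (W t).valuation (aeval u a) = 1
  res : ∀ᶠ t in (fam.U : Filter fam.T), ∀ x ∈ S.F ∅, x ∈ W t → ∃ (a : ℤ[X][Y]) (b : ℤ[X]),
      BSC.ired (fam.p t) b ≠ 0 ∧ (W t).valuation (x - ev u θ a / aeval u b) < 1

/-- standing hypotheses of the global part: `κ = k(u, θ)` is a finite extension of `k(u)`, `θ` is integral over `k[u]`, `K` is the
algebraic closure of `k` in `Ω` -/
structure Base (κ : Type) {Ω : Type} [Field κ] [Field Ω] [Algebra κ Ω] (K : Subfield Ω) (u θ : Ω) : Prop where
  closed : IsAlgClosed K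
  alg : ∀ c ∈ K, IsAlgebraic κ c
  memu : u ∈ Set.range (algebraMap κ Ω)
  memθ : θ ∈ Set.range (algebraMap κ Ω)
  tr : Transcendental K u
  gen : ∀ c : κ, algebraMap κ Ω c ∈ Fuv K u θ
  int : ∃ f : K[X][Y], f.Monic ∧ ev u θ f = 0

end

end BSCG
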