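import Pool.Agent.Lib_MP_49ddc8_g.R1
import Pool.Agent.Lib_MP_49ddc8_v.VLin

/-!
# [E0] evaluation of polynomials in the residue fields of a `Pack`
-/

set_option autoImplicit false

open Polynomial Polynomial.Bivariate

namespace BSCG

section

variable {Ω : Type} [Field Ω] (W : ValuationSubring Ω)

theorem rs_sum {ι : Type} (s : Finset ι) (f : ι → Ω) (hf : ∀ i ∈ s, f i ∈ W) : rs W (∑ i ∈ s, f i) = ∑ i ∈ s, rs W (f i) := by
  classical
  induction s using Finset.induction_on with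
  | empty => simp [rs_zero]
  | insert a s ha ih =>
    rw [Finset.sum_insert ha, Finset.sum_insert ha, rs_add W (hf a (Finset.mem_insert_self a s))
      (sum_mem fun i hi => hf i (Finset.mem_insert_of_mem hi)), ih fun i hi => hf i (Finset.mem_insert_of_mem hi)]

theorem rs_prod {ι : Type} (s : Finset ι) (f : ι → Ω) (hf : ∀ i ∈ s, f i ∈ W) : rs W (∏ i ∈ s, f i) = ∏ i ∈ s, rs W (f i) := by
  classical
  induction s using Finset.induction_on with
  | empty => simp [rs_one]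
  | insert a s ha ih =>
    rw [Finset.prod_insert ha, Finset.prod_insert ha, rs_mul W (hf a (Finset.mem_insert_self a s))
      (prod_mem fun i hi => hf i (Finset.mem_insert_of_mem hi)), ih fun i hi => hf i (Finset.mem_insert_of_mem hi)]

end

section

variable {κ Ω : Type} [Field κ] [Field Ω] [Algebra κ Ω] {S : BSC.Sec κ Ω} {K : Subfield Ω} {u θ : Ω}

/-- the constant `c` is congruent to its reduction -/
def Pack.Ok (P : Pack S K u θ) (t : P.fam.T) (c : K) : Prop :=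
  (P.W t).valuation ((c : Ω) - (((P.fam.red t c).val : ℕ) : Ω)) < 1

theorem Pack.ok (P : Pack S K u θ) (c : K) : ∀ᶠ t in (P.fam.U : Filter P.fam.T), P.Ok t c := P.comp c

theorem Pack.Ok.mem {P : Pack S K u θ} {t : P.fam.T} {c : K} (h : P.Ok t c) : (c : Ω) ∈ P.W t := by
  have h2 := add_mem (mem_of_lt (P.W t) h) (natCast_mem (P.W t) (P.fam.red t c).val)
  rwa [sub_add_cancel] at h2

theorem Pack.Ok.rs {P : Pack S K u θ} {t : P.fam.T} {c : K} (h : P.Ok t c) :
    rs (P.W t) (c : Ω) = algebraMap (ZMod (P.fam.p t)) (Rf P t) (P.fam.red t c) := by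
  rw [rs_eq_of_sub (P.W t) (natCast_mem (P.W t) (P.fam.red t c).val) h, rs_natCast]
  conv_rhs => rw [← ZMod.natCast_zmod_val (P.fam.red t c)]
  rw [map_natCast]

/-- all coefficients are congruent to their reductions -/
theorem Pack.ok_poly (P : Pack S K u θ) (f : K[X]) : ∀ᶠ t in (P.fam.U : Filter P.fam.T), ∀ j, P.Ok t (f.coeff j) := by
  have h1 : ∀ᶠ t in (P.fam.U : Filter P.fam.T), ∀ j ∈ Finset.range (f.natDegree + 1), P.Ok t (f.coeff j) := by
    rw [Filter.eventually_all_finset]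
    exact fun j _ => P.ok _
  filter_upwards [h1, P.ok 0] with t h2 h3 j
  by_cases hj : j < f.natDegree + 1
  · exact h2 j (Finset.mem_range.2 hj)
  · rw [coeff_eq_zero_of_natDegree_lt (by omega)]
    exact h3

theorem Pack.natDegree_pr_le (P : Pack S K u θ) (t : P.fam.T) (f : K[X]) : (P.fam.pr t f).natDegree ≤ f.natDegree := by
  rw [natDegree_le_iff_coeff_eq_zero]
  intro j hj
  rw [P.fam.pr_coeff, coeff_eq_zero_of_natDegree_lt hj, P.fam.zero]

/-- evaluation commutes with reduction -/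
theorem Pack.rs_aeval {P : Pack S K u θ} {t : P.fam.T} {f : K[X]} (hf : ∀ j, P.Ok t (f.coeff j)) {x : Ω} (hx : x ∈ P.W t) :
    aeval x f ∈ P.W t ∧ rs (P.W t) (aeval x f) = aeval (rs (P.W t) x) (P.fam.pr t f) := by
  have h0 : aeval x f = ∑ j ∈ Finset.range (f.natDegree + 1), ((f.coeff j : K) : Ω) * x ^ j := by
    rw [aeval_eq_sum_range]
    refine Finset.sum_congr rfl fun j _ => ?_
    rw [Algebra.smul_def]
    rfl
  have h1 : ∀ j ∈ Finset.range (f.natDegree + 1), ((f.coeff j : K) : Ω) * x ^ j ∈ P.W t := fun j _ =>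
    mul_mem (hf j).mem (pow_mem hx j)
  constructor
  · rw [h0]
    exact sum_mem h1
  · rw [h0, rs_sum _ _ _ h1, aeval_eq_sum_range' (Nat.lt_succ_of_le (P.natDegree_pr_le t f))]
    refine Finset.sum_congr rfl fun j _ => ?_
    rw [rs_mul _ (hf j).mem (pow_mem hx j), rs_pow _ hx, (hf j).rs, P.fam.pr_coeff, Algebra.smul_def]

theorem Pack.natDegree_pr2_le (P : Pack S K u θ) (t : P.fam.T) (G : K[X][Y]) : (pr2 P.fam t G).natDegree ≤ G.natDegree := by
  rw [natDegree_le_iff_coeff_eq_zero]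
  intro j hj
  rw [pr2_coeff, coeff_eq_zero_of_natDegree_lt hj, P.fam.pr_zero]

theorem Pack.ok_poly2 (P : Pack S K u θ) (G : K[X][Y]) :
    ∀ᶠ t in (P.fam.U : Filter P.fam.T), ∀ j l, P.Ok t ((G.coeff j).coeff l) := by
  have h1 : ∀ᶠ t in (P.fam.U : Filter P.fam.T), ∀ j ∈ Finset.range (G.natDegree + 1), ∀ l, P.Ok t ((G.coeff j).coeff l) := by
    rw [Filter.eventually_all_finset]
    exact fun j _ => P.ok_poly _
  filter_upwards [h1, P.ok 0] with t h2 h3 j l
  by_cases hj : j < G.natDegree + 1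
  · exact h2 j (Finset.mem_range.2 hj) l
  · rw [coeff_eq_zero_of_natDegree_lt (p := G) (by omega), coeff_zero]
    exact h3

theorem Pack.rs_ev {P : Pack S K u θ} {t : P.fam.T} {G : K[X][Y]} (hG : ∀ j l, P.Ok t ((G.coeff j).coeff l)) {x y : Ω}
    (hx : x ∈ P.W t) (hy : y ∈ P.W t) :
    ev x y G ∈ P.W t ∧ rs (P.W t) (ev x y G) = ev (rs (P.W t) x) (rs (P.W t) y) (pr2 P.fam t G) := by
  have h0 : ev x y G = ∑ j ∈ Finset.range (G.natDegree + 1), aeval x (G.coeff j) * y ^ j := by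
    unfold ev
    rw [eval₂_eq_sum_range]
    rfl
  have h1 : ∀ j ∈ Finset.range (G.natDegree + 1), aeval x (G.coeff j) * y ^ j ∈ P.W t := fun j _ =>
    mul_mem (Pack.rs_aeval (hG j) hx).1 (pow_mem hy j)
  constructor
  · rw [h0]
    exact sum_mem h1
  · have h2 : ev (rs (P.W t) x) (rs (P.W t) y) (pr2 P.fam t G) =
        ∑ j ∈ Finset.range (G.natDegree + 1), aeval (rs (P.W t) x) ((pr2 P.fam t G).coeff j) * rs (P.W t) y ^ j := by
      unfold ev
      rw [eval₂_eq_sum_range' _ (Nat.lt_succ_of_le (P.natDegree_pr2_le t G))]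
      rfl
    rw [h0, rs_sum _ _ _ h1, h2]
    refine Finset.sum_congr rfl fun j _ => ?_
    rw [rs_mul _ (Pack.rs_aeval (hG j) hx).1 (pow_mem hy j), rs_pow _ hy, (Pack.rs_aeval (hG j) hx).2, pr2_coeff]

theorem ev_int (x y : Ω) (a : ℤ[X][Y]) : ev x y a = ∑ j ∈ Finset.range (a.natDegree + 1), aeval x (a.coeff j) * y ^ j := by
  unfold ev
  rw [eval₂_eq_sum_range]
  rfl

/-- evaluation of integer polynomials -/
theorem Pack.rs_aeval_int (P : Pack S K u θ) (t : P.fam.T) (a : ℤ[X]) {x : Ω} (hx : x ∈ P.W t) :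
    aeval x a ∈ P.W t ∧ rs (P.W t) (aeval x a) = aeval (rs (P.W t) x) (BSC.ired (P.fam.p t) a) := by
  have h0 : aeval x a = ∑ j ∈ Finset.range (a.natDegree + 1), ((a.coeff j : ℤ) : Ω) * x ^ j := by
    rw [aeval_eq_sum_range]
    refine Finset.sum_congr rfl fun j _ => ?_
    rw [zsmul_eq_mul]
  have h1 : ∀ j ∈ Finset.range (a.natDegree + 1), ((a.coeff j : ℤ) : Ω) * x ^ j ∈ P.W t := fun j _ =>
    mul_mem (intCast_mem _ _) (pow_mem hx j)
  constructor
  · rw [h0]
    exact sum_mem h1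
  · rw [h0, rs_sum _ _ _ h1]
    unfold BSC.ired
    rw [aeval_eq_sum_range' (Nat.lt_succ_of_le natDegree_map_le)]
    refine Finset.sum_congr rfl fun j _ => ?_
    rw [rs_mul _ (intCast_mem _ _) (pow_mem hx j), rs_pow _ hx, rs_intCast, coeff_map, Algebra.smul_def, eq_intCast, map_intCast]

theorem Pack.rs_ev_int (P : Pack S K u θ) (t : P.fam.T) (a : ℤ[X][Y]) {x y : Ω} (hx : x ∈ P.W t) (hy : y ∈ P.W t) :
    ev x y a ∈ P.W t ∧ ∃ A : (ZMod (P.fam.p t))[X][Y], rs (P.W t) (ev x y a) = ev (rs (P.W t) x) (rs (P.W t) y) A := by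
  have h1 : ∀ j ∈ Finset.range (a.natDegree + 1), aeval x (a.coeff j) * y ^ j ∈ P.W t := fun j _ =>
    mul_mem (P.rs_aeval_int t _ hx).1 (pow_mem hy j)
  constructor
  · rw [ev_int]
    exact sum_mem h1
  · refine ⟨∑ j ∈ Finset.range (a.natDegree + 1), C (BSC.ired (P.fam.p t) (a.coeff j)) * X ^ j, ?_⟩
    rw [ev_int, rs_sum _ _ _ h1, ← evHom_apply, map_sum]
    refine Finset.sum_congr rfl fun j _ => ?_
    rw [map_mul, map_pow, evHom_apply, evHom_apply, ev_C, ev_X, rs_mul _ (P.rs_aeval_int t _ hx).1 (pow_mem hy j), rs_pow _ hy,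
      (P.rs_aeval_int t _ hx).2]

/-- `u` is transcendental in the residue field -/
theorem Pack.tr_res (P : Pack S K u θ) (t : P.fam.T) (hu : u ∈ P.W t) : Transcendental (ZMod (P.fam.p t)) (rs (P.W t) u) := by
  rw [transcendental_iff]
  intro q hq
  obtain ⟨a, rfl⟩ : ∃ a : ℤ[X], a.map (Int.castRingHom (ZMod (P.fam.p t))) = q :=
    map_surjective _ ZMod.intCast_surjective q
  by_contra h0
  have h1 := P.utr t a h0
  have h2 := (P.rs_aeval_int t a hu).2
  unfold BSC.ired at h2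
  rw [hq] at h2
  exact rs_ne_zero _ h1 h2

theorem mem_Fuv_ev {F R : Type} [Field F] [Field R] [Algebra F R] (x y : R) (a : F[X][Y]) : ev x y a ∈ Fuv F x y := by
  have hx : x ∈ Fuv F x y := IntermediateField.subset_adjoin F _ (Set.mem_insert x {y})
  have hy : y ∈ Fuv F x y := IntermediateField.subset_adjoin F _ (Set.mem_insert_of_mem x rfl)
  have h0 : ev x y a = ∑ j ∈ Finset.range (a.natDegree + 1), aeval x (a.coeff j) * y ^ j := by
    unfold ev
    rw [eval₂_eq_sum_range]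
    rfl
  rw [h0]
  refine sum_mem fun j _ => mul_mem ?_ (pow_mem hy j)
  rw [aeval_eq_sum_range]
  exact sum_mem fun l _ => (Fuv F x y).smul_mem (pow_mem hx l)

/-- algebraic elements are in `W t` for almost all `t` -/
theorem Pack.mem_alg (P : Pack S K u θ) (z : Ω) (hz : IsAlgebraic κ z) : ∀ᶠ t in (P.fam.U : Filter P.fam.T), z ∈ P.W t := by
  by_cases h0 : z = 0
  · rw [h0]
    exact Filter.Eventually.of_forall fun t => zero_mem _
  · filter_upwards [P.unit z hz h0] with t h using mem_of_eq _ h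

/-- residue classes of elements of `S.F ∅` -/
theorem Pack.rs_mem (P : Pack S K u θ) (hu : u ≠ 0) (hua : IsAlgebraic κ u) (hθ : IsAlgebraic κ θ) :
    ∀ᶠ t in (P.fam.U : Filter P.fam.T), ∀ x ∈ S.F ∅, x ∈ P.W t →
      rs (P.W t) x ∈ Fuv (ZMod (P.fam.p t)) (rs (P.W t) u) (rs (P.W t) θ) := by
  have hθ' := P.mem_alg θ hθ
  filter_upwards [P.res, P.unit u hua hu, hθ'] with t h1 h2 h3 x hx hxt
  have hut := mem_of_eq _ h2
  obtain ⟨a, b, hb, hab⟩ := h1 x hx hxt
  have h4 := P.utr t b hb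
  obtain ⟨h5, A, h6⟩ := P.rs_ev_int t a hut h3
  have h7 : ev u θ a / aeval u b ∈ P.W t := by
    have h8 : (aeval u b)⁻¹ ∈ P.W t := mem_of_eq _ (by rw [map_inv₀, h4, inv_one])
    rw [div_eq_mul_inv]
    exact mul_mem h5 h8
  rw [rs_eq_of_sub _ h7 hab, rs_div _ h5 h4, h6, (P.rs_aeval_int t b hut).2]
  refine div_mem (mem_Fuv_ev _ _ A) ?_
  have h9 := mem_Fuv_ev (rs (P.W t) u) (rs (P.W t) θ) (C (BSC.ired (P.fam.p t) b))
  rwa [ev_C] at h9

end

end BSCG
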