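import Pool.Agent.Lib_MP_49ddc8_g.E0
import Pool.Agent.Lib_MP_49ddc8_g.B3
import Pool.Agent.Lib_MP_49ddc8_g.C3a
import Pool.Agent.Lib_MP_49ddc8_g.C3b
import Pool.Agent.Lib_MP_49ddc8.Gal

/-!
# [E1] the norm relation for the residues of `x - e`
-/

set_option autoImplicit false

open Polynomial Polynomial.Bivariate

namespace BSCG

section

variable {κ Ω : Type} [Field κ] [Field Ω] [Algebra κ Ω] {S : BSC.Sec κ Ω} {K : Subfield Ω} {u θ : Ω}

theorem exists_inLE {F : Type} [Field F] (G : F[X][Y]) : ∃ D, InLE G D := by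
  refine ⟨G.support.sup fun j => (G.coeff j).natDegree, fun j => ?_⟩
  by_cases hj : j ∈ G.support
  · exact Finset.le_sup (f := fun j => (G.coeff j).natDegree) hj
  · rw [notMem_support_iff.1 hj]
    simp

theorem InLE.mono {F : Type} [Field F] {G : F[X][Y]} {a b : ℕ} (h : InLE G a) (hab : a ≤ b) : InLE G b := fun j => (h j).trans hab

theorem Base.algu (B : Base κ K u θ) : IsAlgebraic κ u := by
  obtain ⟨c, hc⟩ := B.memu
  rw [← hc]
  exact isAlgebraic_algebraMap c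

theorem Base.algθ (B : Base κ K u θ) : IsAlgebraic κ θ := by
  obtain ⟨c, hc⟩ := B.memθ
  rw [← hc]
  exact isAlgebraic_algebraMap c

theorem Base.u_ne (B : Base κ K u θ) : u ≠ 0 := by
  intro h
  apply B.tr
  rw [h]
  exact isAlgebraic_zero

theorem Base.aeval_ne (B : Base κ K u θ) {q : K[X]} (hq : q ≠ 0) : aeval u q ≠ 0 := fun h => B.tr ⟨q, hq, h⟩

theorem isAlg_aeval (B : Base κ K u θ) (q : K[X]) {x : Ω} (hx : IsAlgebraic κ x) : IsAlgebraic κ (aeval x q) := by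
  have h0 : aeval x q = ∑ j ∈ Finset.range (q.natDegree + 1), ((q.coeff j : K) : Ω) * x ^ j := by
    rw [aeval_eq_sum_range]
    refine Finset.sum_congr rfl fun j _ => ?_
    rw [Algebra.smul_def]
    rfl
  have h1 : aeval x q ∈ algebraicClosure κ Ω := by
    rw [h0]
    exact sum_mem fun j _ => mul_mem ((mem_algebraicClosure_iff).2 (B.alg _ (q.coeff j).2))
      (pow_mem ((mem_algebraicClosure_iff).2 hx) j)
  exact (mem_algebraicClosure_iff).1 h1

theorem isAlg_ev (B : Base κ K u θ) (G : K[X][Y]) {x y : Ω} (hx : IsAlgebraic κ x) (hy : IsAlgebraic κ y) :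
    IsAlgebraic κ (ev x y G) := by
  have h0 : ev x y G = ∑ j ∈ Finset.range (G.natDegree + 1), aeval x (G.coeff j) * y ^ j := by
    unfold ev
    rw [eval₂_eq_sum_range]
    rfl
  have h1 : ev x y G ∈ algebraicClosure κ Ω := by
    rw [h0]
    exact sum_mem fun j _ => mul_mem ((mem_algebraicClosure_iff).2 (isAlg_aeval B _ hx))
      (pow_mem ((mem_algebraicClosure_iff).2 hy) j)
  exact (mem_algebraicClosure_iff).1 h1

/-- the class of `x - e` -/
theorem classes [CharZero κ] [IsAlgClosed Ω] (P : Pack S K u θ) (B : Base κ K u θ) (x : Ω) (hx : x ∈ S.F ∅) (e : ℕ) (hne : x ≠ e) :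
    ∃ (G G' : K[X][Y]) (N : K[X]), N ≠ 0 ∧ aeval u N = ev u θ G * ev u θ G' ∧
      ∀ᶠ t in (P.fam.U : Filter P.fam.T), x ∈ P.W t → rs (P.W t) x ≠ e →
        ∃ s ∈ Fuv (ZMod (P.fam.p t)) (rs (P.W t) u) (rs (P.W t) θ), (rs (P.W t) x - e) * rs (P.W t) (ev u θ G) = s ^ 2 := by
  obtain ⟨c, hc, hc0, w, hw, hw0, hcw⟩ := BSC.k2 S ∅ (fun z hz => absurd hz (Set.notMem_empty z)) (x - e)
    (sub_mem hx (natCast_mem _ e)) (sub_ne_zero.2 hne)
  rw [IntermediateField.adjoin_empty] at hc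
  obtain ⟨c0, hc1⟩ := IntermediateField.mem_bot.1 hc
  obtain ⟨f0, hf0, hf0'⟩ := B.int
  obtain ⟨f, hf, hirr, hfθ⟩ := exists_irr u θ f0 hf0 hf0'
  have hcF : c ∈ Fuv K u θ := by
    rw [← hc1]
    exact B.gen c0
  obtain ⟨a, b, hb, ha, hab⟩ := (mem_Fuv u θ B.tr f hf hfθ c).1 hcF
  have ha0 : a ≠ 0 := by
    rintro rfl
    rw [ev_zero] at hab
    exact mul_ne_zero (B.aeval_ne hb) hc0 hab
  obtain ⟨D1, hD1⟩ := exists_inLE f
  obtain ⟨D2, hD2⟩ := exists_inLE a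
  obtain ⟨N', α, β, hN', -, hNab⟩ := exists_norm f a hf hirr ha0 ha (max D1 D2) (hD1.mono (le_max_left _ _))
    (hD2.mono (le_max_right _ _))
  refine ⟨C b * a, β, b * N', mul_ne_zero hb hN', ?_, ?_⟩
  · have h1 := congrArg (ev u θ) hNab
    rw [ev_C, ev_add, ev_mul, ev_mul, hfθ, mul_zero, zero_add] at h1
    rw [map_mul, h1, ev_mul, ev_C]
    ring
  · have hcalg : IsAlgebraic κ c := by
      rw [← hc1]
      exact isAlgebraic_algebraMap c0
    have hbalg : IsAlgebraic κ (aeval u b) := isAlg_aeval B b B.algu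
    filter_upwards [P.unit c hcalg hc0, P.unit _ hbalg (B.aeval_ne hb), P.rs_mem B.u_ne B.algu B.algθ, P.ok_poly2 a,
      P.mem_alg u B.algu, P.mem_alg θ B.algθ] with t h1 h2 h3 h4 h5 h6 hxt hxe
    have h7 : x - e ∈ P.W t := sub_mem hxt (natCast_mem _ e)
    have h8 : (P.W t).valuation (x - e) = 1 := by
      apply val_eq_one _ h7
      rw [rs_sub _ hxt (natCast_mem _ e), rs_natCast]
      exact sub_ne_zero.2 hxe
    have h9 : (P.W t).valuation w = 1 := by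
      rw [hcw, map_mul, h1, one_mul, map_pow] at h8
      exact (pow_eq_one_iff.1 h8).resolve_right two_ne_zero
    have h10 := mem_of_eq _ h9
    have h11 := h3 w hw h10
    obtain ⟨h12, h13⟩ := Pack.rs_ev h4 h5 h6
    refine ⟨rs (P.W t) (ev u θ a) * rs (P.W t) w, mul_mem ?_ h11, ?_⟩
    · rw [h13]
      exact mem_Fuv_ev _ _ _
    · have h14 : ev u θ (C b * a) = aeval u b * ev u θ a := by rw [ev_mul, ev_C]
      have h15 : ev u θ (C b * a) ∈ P.W t := by
        rw [h14]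
        exact mul_mem (mem_of_eq _ h2) h12
      have h16 : rs (P.W t) x - e = rs (P.W t) (x - e) := by
        rw [rs_sub _ hxt (natCast_mem _ e), rs_natCast]
      rw [h16, ← rs_mul _ h7 h15, ← rs_mul _ h12 h10, ← rs_pow _ (mul_mem h12 h10), h14, hcw, ← hab]
      congr 1
      ring

/-- if `r` satisfies a relation it is not a constant -/
theorem Rel.spec_ne {F R : Type} [Field F] [Field R] [Algebra F R] {u r : R} {Q : F[X][Y]} {n : ℕ} (h : Rel u r Q n) (e : F) :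
    spec Q e ≠ 0 := by
  intro h0
  have h1 : C (X - C e) ∣ Q := by
    rw [C_dvd_iff_dvd_coeff]
    intro i
    rw [dvd_iff_isRoot, IsRoot.def]
    have h2 := congrArg (fun q => coeff q i) h0
    simpa [spec, coeff_map] using h2
  obtain ⟨Q', hQ'⟩ := h1
  rcases h.irr.isUnit_or_isUnit hQ' with h2 | h2
  · have h3 := isUnit_C.1 h2
    exact not_isUnit_X_sub_C e h3
  · apply h.der
    obtain ⟨q, -, hq⟩ := isUnit_iff.1 h2
    rw [hQ', ← hq, ← C_mul, derivative_C]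

theorem ev_spec {F R : Type} [Field F] [Field R] [Algebra F R] (u : R) (e : F) (Q : F[X][Y]) :
    ev (algebraMap F R e) u Q = aeval u (spec Q e) := by
  unfold ev spec
  rw [aeval_def, eval₂_map]
  congr 1
  apply Polynomial.ringHom_ext
  · intro a
    simp
  · simp

theorem Rel.r_ne {F R : Type} [Field F] [Field R] [Algebra F R] {u r : R} {Q : F[X][Y]} {n : ℕ} (h : Rel u r Q n) (e : F) :
    r ≠ algebraMap F R e := by
  intro h0
  have h1 := h.rel
  rw [h0, ev_spec] at h1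
  exact h.tr ⟨_, h.spec_ne e, h1⟩

/-- E1 -/
theorem simple_dvd [CharZero κ] [IsAlgClosed Ω] (P : Pack S K u θ) (B : Base κ K u θ) (x : Ω) (hx : x ∈ S.F ∅)
    (hxt : Transcendental κ x) (e : ℕ) :
    ∃ N : K[X], N ≠ 0 ∧ ∀ᶠ t in (P.fam.U : Filter P.fam.T), x ∈ P.W t → ∀ (Q : (ZMod (P.fam.p t))[X][Y]) (n : ℕ),
      Rel (rs (P.W t) u) (rs (P.W t) x) Q n →
      rs (P.W t) θ ∈ Fuv (ZMod (P.fam.p t)) (rs (P.W t) u) (rs (P.W t) x) →
      P.fam.pr t N ≠ 0 ∧
      ∀ a ∈ simp (spec Q ((e : ℕ) : ZMod (P.fam.p t))), aeval a (lcU Q) = 0 ∨ aeval a (P.fam.pr t N) = 0 := by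
  have hne : x ≠ e := by
    rintro h
    apply hxt
    rw [h]
    exact isAlgebraic_natCast e
  obtain ⟨G, G', N, hN, hNG, hev⟩ := classes P B x hx e hne
  obtain ⟨f, hf, hfθ⟩ := B.int
  refine ⟨N, hN, ?_⟩
  have hmonic : ∀ᶠ t in (P.fam.U : Filter P.fam.T), (pr2 P.fam t f).Monic := by
    filter_upwards [P.fam.pr_one] with t h1
    rw [Monic, leadingCoeff]
    have h2 : (pr2 P.fam t f).coeff f.natDegree = 1 := by
      rw [pr2_coeff, hf.coeff_natDegree, h1]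
    have h3 : (pr2 P.fam t f).natDegree = f.natDegree :=
      le_antisymm (P.natDegree_pr2_le t f) (le_natDegree_of_ne_zero (by rw [h2]; exact one_ne_zero))
    rw [h3, h2]
  filter_upwards [hev, hmonic, P.ok_poly2 G, P.ok_poly2 G', P.ok_poly N, P.ok_poly2 f, P.mem_alg u B.algu, P.mem_alg θ B.algθ,
    P.fam.pr_ne N hN] with t h1 h2 h3 h4 h5 h6 h7 h8 h9 hxW Q n hR hθ
  refine ⟨h9, ?_⟩
  have hxe : rs (P.W t) x ≠ e := by
    have := hR.r_ne ((e : ℕ) : ZMod (P.fam.p t))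
    rwa [map_natCast] at this
  obtain ⟨s, hs, hsq⟩ := h1 hxW hxe
  obtain ⟨hG1, hG2⟩ := Pack.rs_ev h3 h7 h8
  obtain ⟨hG3, hG4⟩ := Pack.rs_ev h4 h7 h8
  have hle : Fuv (ZMod (P.fam.p t)) (rs (P.W t) u) (rs (P.W t) θ) ≤ Fuv (ZMod (P.fam.p t)) (rs (P.W t) u) (rs (P.W t) x) := by
    rw [IntermediateField.adjoin_le_iff]
    rintro z (rfl | rfl)
    · exact IntermediateField.subset_adjoin _ _ (Set.mem_insert _ _)
    · exact hθ
  have hfθ' : ev (rs (P.W t) u) (rs (P.W t) θ) (pr2 P.fam t f) = 0 := by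
    rw [← (Pack.rs_ev h6 h7 h8).2, hfθ, rs_zero]
  refine ml (rs (P.W t) u) (rs (P.W t) x) Q n hR _ (rs (P.W t) (ev u θ G)) (rs (P.W t) (ev u θ G')) s ?_ ?_ (hle hs) ?_ ?_
    (P.fam.pr t N) ?_ h9 ?_
  · rw [hG2]
    exact hle (mem_Fuv_ev _ _ _)
  · rw [hG4]
    exact hle (mem_Fuv_ev _ _ _)
  · rw [hG2]
    exact int_ev _ _ _ _ h2 hfθ'
  · rw [hG4]
    exact int_ev _ _ _ _ h2 hfθ'
  · rw [← rs_mul _ hG1 hG3, ← hNG, (Pack.rs_aeval h5 h7).2]
  · rw [map_natCast]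
    exact hsq

end

end BSCG
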