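import Pool.Agent.Lib_MP_49ddc8_g.E2a

/-!
# [E2b] the linear system
-/

set_option autoImplicit false

open Polynomial Polynomial.Bivariate

namespace BSCG

section

variable {K : Type} [Field K]

theorem spec_coeff {F : Type} [Field F] (Q : F[X][Y]) (e : F) (l : ℕ) : (spec Q e).coeff l = (Q.coeff l).eval e := by
  unfold spec
  rw [coeff_map]
  rfl

/-- P with given coefficients -/
noncomputable def mk2 {F : Type} [Field F] (n h : ℕ) (v : Fin (h + 1) × Fin (n + 1) → F) : F[X][Y] :=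
  ∑ l : Fin (h + 1), monomial (l : ℕ) (∑ j : Fin (n + 1), monomial (j : ℕ) (v (l, j)))

theorem mk2_coeff {F : Type} [Field F] (n h : ℕ) (v : Fin (h + 1) × Fin (n + 1) → F) (l : Fin (h + 1)) :
    (mk2 n h v).coeff (l : ℕ) = ∑ j : Fin (n + 1), monomial (j : ℕ) (v (l, j)) := by
  unfold mk2
  rw [finsetSum_coeff, Finset.sum_eq_single l]
  · rw [coeff_monomial, if_pos rfl]
  · intro i _ hi
    rw [coeff_monomial, if_neg]
    intro h1
    exact hi (Fin.ext h1)
  · intro h1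
    exact absurd (Finset.mem_univ l) h1

theorem mk2_coeff_zero {F : Type} [Field F] (n h : ℕ) (v : Fin (h + 1) × Fin (n + 1) → F) (m : ℕ) (hm : h < m) :
    (mk2 n h v).coeff m = 0 := by
  unfold mk2
  rw [finsetSum_coeff]
  refine Finset.sum_eq_zero fun i _ => ?_
  rw [coeff_monomial, if_neg]
  have := i.2
  omega

theorem mk2_coeff_coeff {F : Type} [Field F] (n h : ℕ) (v : Fin (h + 1) × Fin (n + 1) → F) (l : Fin (h + 1)) (j : Fin (n + 1)) :
    ((mk2 n h v).coeff (l : ℕ)).coeff (j : ℕ) = v (l, j) := by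
  rw [mk2_coeff, finsetSum_coeff, Finset.sum_eq_single j]
  · rw [coeff_monomial, if_pos rfl]
  · intro i _ hi
    rw [coeff_monomial, if_neg]
    intro h1
    exact hi (Fin.ext h1)
  · intro h1
    exact absurd (Finset.mem_univ j) h1

theorem mk2_ne {F : Type} [Field F] (n h : ℕ) (v : Fin (h + 1) × Fin (n + 1) → F) (hv : ∃ j, v j ≠ 0) : mk2 n h v ≠ 0 := by
  obtain ⟨⟨l, j⟩, hlj⟩ := hv
  intro h0
  apply hlj
  rw [← mk2_coeff_coeff n h v l j, h0, coeff_zero, coeff_zero]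

theorem mk2_natDegree {F : Type} [Field F] (n h : ℕ) (v : Fin (h + 1) × Fin (n + 1) → F) : (mk2 n h v).natDegree ≤ h := by
  rw [natDegree_le_iff_coeff_eq_zero]
  intro m hm
  exact mk2_coeff_zero n h v m hm

theorem mk2_inLE {F : Type} [Field F] (n h : ℕ) (v : Fin (h + 1) × Fin (n + 1) → F) : InLE (mk2 n h v) n := by
  intro l
  by_cases hl : l < h + 1
  · have h1 := mk2_coeff n h v ⟨l, hl⟩
    rw [h1]
    refine natDegree_sum_le_of_forall_le _ _ fun j _ => (natDegree_monomial_le _).trans ?_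
    have := j.2
    omega
  · rw [mk2_coeff_zero n h v l (by omega), natDegree_zero]
    exact Nat.zero_le _

theorem mk2_spec {F : Type} [Field F] (n h : ℕ) (v : Fin (h + 1) × Fin (n + 1) → F) (e : F) (l : Fin (h + 1)) :
    (spec (mk2 n h v) e).coeff (l : ℕ) = ∑ j : Fin (n + 1), e ^ (j : ℕ) * v (l, j) := by
  rw [spec_coeff, mk2_coeff, eval_finsetSum]
  refine Finset.sum_congr rfl fun j _ => ?_
  rw [eval_monomial, mul_comm]

/-- every polynomial of small degrees has this form -/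
theorem eq_mk2 {F : Type} [Field F] (n h : ℕ) (Q : F[X][Y]) (hQ : Q.natDegree ≤ h) (hn : InLE Q n) :
    Q = mk2 n h (fun x => (Q.coeff (x.1 : ℕ)).coeff (x.2 : ℕ)) := by
  ext l j
  by_cases hl : l < h + 1
  · by_cases hj : j < n + 1
    · have h1 := mk2_coeff_coeff n h (fun x => (Q.coeff (x.1 : ℕ)).coeff (x.2 : ℕ)) ⟨l, hl⟩ ⟨j, hj⟩
      rw [h1]
    · rw [coeff_eq_zero_of_natDegree_lt (lt_of_le_of_lt (hn l) (by omega)),
        coeff_eq_zero_of_natDegree_lt (lt_of_le_of_lt (mk2_inLE n h _ l) (by omega))]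
  · rw [coeff_eq_zero_of_natDegree_lt (p := Q) (by omega), mk2_coeff_zero n h _ l (by omega)]

/-- the entry of the matrix of the linear system -/
noncomputable def ent {F : Type} [Field F] (h : ℕ) (e : F) (D : F[X]) (l : Fin (h + 1)) (l' : Fin (h + 1)) (j : ℕ) : F :=
  open scoped Classical in (if l' = l then e ^ j else 0) - if l' = Fin.last h then D.coeff (l : ℕ) * e ^ j else 0

theorem sum_ent {F : Type} [Field F] (n h : ℕ) (v : Fin (h + 1) × Fin (n + 1) → F) (e : F) (D : F[X]) (l : Fin (h + 1)) :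
    ∑ x : Fin (h + 1) × Fin (n + 1), ent h e D l x.1 (x.2 : ℕ) * v x =
      (spec (mk2 n h v) e).coeff (l : ℕ) - D.coeff (l : ℕ) * (spec (mk2 n h v) e).coeff h := by
  classical
  have h1 : (spec (mk2 n h v) e).coeff h = ∑ j : Fin (n + 1), e ^ (j : ℕ) * v (Fin.last h, j) := mk2_spec n h v e (Fin.last h)
  rw [Fintype.sum_prod_type, mk2_spec, h1]
  unfold ent
  simp only [sub_mul, ite_mul, zero_mul, Finset.sum_sub_distrib]
  congr 1
  · rw [Finset.sum_eq_single l]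
    · simp
    · intro i _ hi
      simp [hi]
    · intro h2
      exact absurd (Finset.mem_univ l) h2
  · rw [Finset.sum_eq_single (Fin.last h)]
    · rw [Finset.mul_sum]
      refine Finset.sum_congr rfl fun j _ => ?_
      rw [if_pos rfl, mul_assoc]
    · intro i _ hi
      simp [hi]
    · intro h2
      exact absurd (Finset.mem_univ _) h2

theorem exists_sol (F : BSC.Fam K) (n h : ℕ) (J : Finset ℕ) (D : ℕ → K[X])
    (hD : ∀ e ∈ J, (D e).Monic ∧ (D e).natDegree = h) (Q : ∀ t, (ZMod (F.p t))[X][Y])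
    (hQ : ∀ᶠ t in (F.U : Filter F.T), Q t ≠ 0 ∧ (Q t).natDegree ≤ h ∧ InLE (Q t) n ∧
      ∀ e ∈ J, ∃ l, spec (Q t) (e : ZMod (F.p t)) = C l * F.pr t (D e)) :
    ∃ P' : K[X][Y], P' ≠ 0 ∧ P'.natDegree ≤ h ∧ InLE P' n ∧ ∀ e ∈ J, ∃ l : K, spec P' (e : K) = C l * D e := by
  classical
  have hred : ∀ᶠ t in (F.U : Filter F.T), ∀ (i : J × Fin (h + 1)) (x : Fin (h + 1) × Fin (n + 1)),
      F.red t (ent h ((i.1 : ℕ) : K) (D i.1) i.2 x.1 (x.2 : ℕ)) =
        ent h ((i.1 : ℕ) : ZMod (F.p t)) (F.pr t (D i.1)) i.2 x.1 (x.2 : ℕ) := by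
    rw [Filter.eventually_all]
    intro i
    rw [Filter.eventually_all]
    intro x
    unfold ent
    have h1 : ∀ᶠ t in (F.U : Filter F.T), F.red t (if x.1 = i.2 then (((i.1 : ℕ) : K)) ^ (x.2 : ℕ) else 0) =
        if x.1 = i.2 then (((i.1 : ℕ) : ZMod (F.p t))) ^ (x.2 : ℕ) else 0 := by
      split_ifs
      · filter_upwards [red_pow F ((i.1 : ℕ) : K) (x.2 : ℕ), red_nat F (i.1 : ℕ)] with t h1 h2
        rw [h1, h2]
      · exact Filter.Eventually.of_forall fun t => F.zero t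
    have h2 : ∀ᶠ t in (F.U : Filter F.T),
        F.red t (if x.1 = Fin.last h then (D i.1).coeff (i.2 : ℕ) * (((i.1 : ℕ) : K)) ^ (x.2 : ℕ) else 0) =
        if x.1 = Fin.last h then (F.pr t (D i.1)).coeff (i.2 : ℕ) * (((i.1 : ℕ) : ZMod (F.p t))) ^ (x.2 : ℕ) else 0 := by
      split_ifs
      · filter_upwards [red_pow F ((i.1 : ℕ) : K) (x.2 : ℕ), red_nat F (i.1 : ℕ),
          F.mul ((D i.1).coeff (i.2 : ℕ)) ((((i.1 : ℕ) : K)) ^ (x.2 : ℕ))] with t h1 h2 h3
        rw [h3, h1, h2, F.pr_coeff]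
      · exact Filter.Eventually.of_forall fun t => F.zero t
    filter_upwards [h1, h2, red_sub F (if x.1 = i.2 then (((i.1 : ℕ) : K)) ^ (x.2 : ℕ) else 0)
      (if x.1 = Fin.last h then (D i.1).coeff (i.2 : ℕ) * (((i.1 : ℕ) : K)) ^ (x.2 : ℕ) else 0)] with t h3 h4 h5
    rw [h5, h3, h4]
  have hlead : ∀ᶠ t in (F.U : Filter F.T), ∀ e ∈ J, (F.pr t (D e)).coeff h = 1 := by
    rw [Filter.eventually_all_finset]
    intro e he
    filter_upwards [F.one] with t h1
    rw [F.pr_coeff]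
    have h2 := (hD e he).1.coeff_natDegree
    rw [(hD e he).2] at h2
    rw [h2, h1]
  obtain ⟨v, hv, hv'⟩ := transfer F (ι := Fin (h + 1) × Fin (n + 1)) (ρ := J × Fin (h + 1))
    (fun i x => ent h ((i.1 : ℕ) : K) (D i.1) i.2 x.1 (x.2 : ℕ)) (by
      filter_upwards [hQ, hred, hlead] with t h1 h2 h3
      obtain ⟨hQ0, hQh, hQn, hQe⟩ := h1
      have h4 := eq_mk2 n h (Q t) hQh hQn
      refine ⟨fun x => ((Q t).coeff (x.1 : ℕ)).coeff (x.2 : ℕ), ?_, ?_⟩
      · by_contra hc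
        push Not at hc
        apply hQ0
        rw [h4]
        have h5 : (fun x : Fin (h + 1) × Fin (n + 1) => ((Q t).coeff (x.1 : ℕ)).coeff (x.2 : ℕ)) = fun _ => 0 := funext hc
        rw [h5]
        ext l j
        unfold mk2
        simp
      · rintro ⟨⟨e, he⟩, l⟩
        have h6 : ∀ x : Fin (h + 1) × Fin (n + 1), F.red t (ent h ((e : ℕ) : K) (D e) l x.1 (x.2 : ℕ)) =
            ent h ((e : ℕ) : ZMod (F.p t)) (F.pr t (D e)) l x.1 (x.2 : ℕ) := fun x => h2 (⟨e, he⟩, l) x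
        have h7 := sum_ent n h (fun x => ((Q t).coeff (x.1 : ℕ)).coeff (x.2 : ℕ)) ((e : ℕ) : ZMod (F.p t)) (F.pr t (D e)) l
        rw [← h4] at h7
        have h8 : (∑ x : Fin (h + 1) × Fin (n + 1), F.red t (ent h ((e : ℕ) : K) (D e) l x.1 (x.2 : ℕ)) *
            ((Q t).coeff (x.1 : ℕ)).coeff (x.2 : ℕ)) = ∑ x : Fin (h + 1) × Fin (n + 1),
            ent h ((e : ℕ) : ZMod (F.p t)) (F.pr t (D e)) l x.1 (x.2 : ℕ) * ((Q t).coeff (x.1 : ℕ)).coeff (x.2 : ℕ) :=
          Finset.sum_congr rfl fun x _ => by rw [h6]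
        refine h8.trans ?_
        rw [h7]
        obtain ⟨c, hc⟩ := hQe e he
        rw [hc, coeff_C_mul, coeff_C_mul, h3 e he]
        ring)
  refine ⟨mk2 n h v, mk2_ne n h v hv, mk2_natDegree n h v, mk2_inLE n h v, fun e he => ⟨(spec (mk2 n h v) (e : K)).coeff h, ?_⟩⟩
  ext l
  rw [coeff_C_mul]
  by_cases hl : l < h + 1
  · have h1 := hv' (⟨e, he⟩, ⟨l, hl⟩)
    rw [sum_ent, sub_eq_zero] at h1
    rw [mul_comm]
    exact h1
  · have h2 : (spec (mk2 n h v) (e : K)).coeff l = 0 := by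
      rw [spec_coeff, mk2_coeff_zero n h v l (by omega), eval_zero]
    rw [h2, coeff_eq_zero_of_natDegree_lt (p := D e) (by rw [(hD e he).2]; omega), mul_zero]

end

end BSCG
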