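import Pool.Agent.Lib_MP_49ddc8_g.E1
import Pool.Agent.Lib_MP_49ddc8_g.E2b
import Pool.Agent.Lib_MP_49ddc8_g.B4
import Pool.Agent.Lib_MP_49ddc8_g.B5
import Pool.Agent.Lib_MP_49ddc8_g.C1

/-!
# [E2] a nonzero element in the maximal ideals of almost all `W t`
-/

set_option autoImplicit false

open Polynomial Polynomial.Bivariate

namespace BSCG

section

variable {K : Type} [Field K]

theorem spec_pr2 (F : BSC.Fam K) (G : K[X][Y]) (e : ℕ) :
    ∀ᶠ t in (F.U : Filter F.T), spec (pr2 F t G) (e : ZMod (F.p t)) = F.pr t (spec G (e : K)) := by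
  have h1 : ∀ᶠ t in (F.U : Filter F.T), ∀ l ∈ Finset.range (G.natDegree + 1),
      F.red t ((G.coeff l).eval (e : K)) = (F.pr t (G.coeff l)).eval (F.red t (e : K)) := by
    rw [Filter.eventually_all_finset]
    exact fun l _ => red_eval F (G.coeff l) (e : K)
  filter_upwards [h1, red_nat F e] with t h1 h2
  ext l
  rw [spec_coeff, pr2_coeff, F.pr_coeff, spec_coeff]
  by_cases hl : l < G.natDegree + 1
  · rw [h1 l (Finset.mem_range.2 hl), h2]
  · rw [coeff_eq_zero_of_natDegree_lt (p := G) (by omega), F.pr_zero, eval_zero, eval_zero, F.zero]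

theorem ev_swap {F R : Type} [Field F] [Field R] [Algebra F R] (x u : R) (G : F[X][Y]) :
    ev x u G = ev u x (Polynomial.Bivariate.swap (R := F) G) := by
  have h1 : (evHom (K := F) u x).comp (Polynomial.Bivariate.swap (R := F)).toAlgHom.toRingHom = evHom (K := F) x u := by
    apply Polynomial.ringHom_ext'
    · apply Polynomial.ringHom_ext'
      · ext a
        simp [Polynomial.Bivariate.swap_C_C, evHom]
      · simp [Polynomial.Bivariate.swap_X, evHom]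
    · simp [Polynomial.Bivariate.swap_Y, evHom]
  have h2 := congrArg (fun φ => φ G) h1
  exact h2.symm

theorem nat_injOn (p : ℕ) [Fact p.Prime] (M : ℕ) (hM : M < p + 1) (J : Finset ℕ) (hJ : ∀ e ∈ J, e < M) :
    (J.image (Nat.cast : ℕ → ZMod p)).card = J.card := by
  apply Finset.card_image_of_injOn
  intro a ha b hb hab
  have h1 := (ZMod.natCast_eq_natCast_iff' a b p).1 hab
  have h2 := hJ a ha
  have h3 := hJ b hb
  rwa [Nat.mod_eq_of_lt (by omega), Nat.mod_eq_of_lt (by omega)] at h1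

end

section

variable {κ Ω : Type} [Field κ] [Field Ω] [Algebra κ Ω] {S : BSC.Sec κ Ω} {K : Subfield Ω} {u θ : Ω}

theorem ev_ne (B : Base κ K u θ) (x : Ω) (hx : Transcendental κ x) (G : K[X][Y]) (hG : G ≠ 0) : ev x u G ≠ 0 := by
  intro h0
  rw [ev_swap] at h0
  set G' := Polynomial.Bivariate.swap (R := K) G with hG'
  have hG0 : G' ≠ 0 := by
    intro h1
    apply hG
    exact (map_eq_zero_iff _ (Polynomial.Bivariate.swap (R := K)).injective).1 h1
  let φ : K[X] →+* (algebraicClosure κ Ω) := (aeval (R := K) u : K[X] →ₐ[K] Ω).toRingHom.codRestrict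
    (algebraicClosure κ Ω).toSubring.toSubsemiring fun q => (mem_algebraicClosure_iff).2 (isAlg_aeval B q B.algu)
  have hφ : ∀ q, ((φ q : algebraicClosure κ Ω) : Ω) = aeval u q := fun q => rfl
  have hinj : Function.Injective φ := by
    rw [injective_iff_map_eq_zero]
    intro q hq
    by_contra hq0
    apply B.aeval_ne hq0
    rw [← hφ, hq]
    rfl
  apply hx
  have h1 : IsAlgebraic (algebraicClosure κ Ω) x := by
    refine ⟨G'.map φ, (Polynomial.map_ne_zero_iff hinj).2 hG0, ?_⟩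
    rw [aeval_def, eval₂_map]
    exact h0
  exact h1.restrictScalars κ

/-- a generator with a relation in almost all residue fields -/
theorem exists_gen [CharZero κ] [IsAlgClosed Ω] (P : Pack S K u θ) (B : Base κ K u θ) (y : Ω) (hy : y ∈ S.F ∅)
    (hyt : Transcendental κ y) (hW : ∀ᶠ t in (P.fam.U : Filter P.fam.T), y ∈ P.W t) :
    ∃ x ∈ S.F ∅, Transcendental κ x ∧ ∃ n : ℕ, 1 ≤ n ∧ ∀ᶠ t in (P.fam.U : Filter P.fam.T), x ∈ P.W t ∧
      ∃ Q : (ZMod (P.fam.p t))[X][Y], Rel (rs (P.W t) u) (rs (P.W t) x) Q n ∧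
        rs (P.W t) θ ∈ Fuv (ZMod (P.fam.p t)) (rs (P.W t) u) (rs (P.W t) x) := by
  obtain ⟨f, hf, hfθ⟩ := B.int
  have hn : 1 ≤ f.natDegree := by
    by_contra hc
    have h0 : f.natDegree = 0 := by omega
    have h1 : f = 1 := eq_one_of_monic_natDegree_zero hf h0
    rw [h1, ev_one] at hfθ
    exact one_ne_zero hfθ
  set n := f.natDegree with hnd
  have hcf : ∀ᶠ t in (P.fam.U : Filter P.fam.T), (pr2 P.fam t f).coeff n = 1 := by
    filter_upwards [P.fam.pr_one] with t h1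
    rw [pr2_coeff, hnd, hf.coeff_natDegree, h1]
  have h1 : ∀ᶠ t in (P.fam.U : Filter P.fam.T), ∃ c : Fin (n ^ 2 + 1) × Fin 2,
      ∃ Q : (ZMod (P.fam.p t))[X][Y],
        Rel (rs (P.W t) u) (rs (P.W t) y + ((c.1 : ℕ) : Rf P t) * rs (P.W t) θ + ((c.2 : ℕ) : Rf P t) * rs (P.W t) u) Q n ∧
        rs (P.W t) θ ∈ Fuv (ZMod (P.fam.p t)) (rs (P.W t) u)
          (rs (P.W t) y + ((c.1 : ℕ) : Rf P t) * rs (P.W t) θ + ((c.2 : ℕ) : Rf P t) * rs (P.W t) u) := by
    filter_upwards [hW, hcf, P.ok_poly2 f, P.mem_alg u B.algu, P.mem_alg θ B.algθ, P.rs_mem B.u_ne B.algu B.algθ,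
      P.fam.big (n ^ 2 + n)] with t h1 h2 h3 h4 h5 h6 h7
    have h8 : (pr2 P.fam t f).natDegree = n :=
      le_antisymm (P.natDegree_pr2_le t f) (le_natDegree_of_ne_zero (by rw [h2]; exact one_ne_zero))
    have h9 : (pr2 P.fam t f).Monic := by rw [Monic, leadingCoeff, h8, h2]
    have h10 : ev (rs (P.W t) u) (rs (P.W t) θ) (pr2 P.fam t f) = 0 := by
      rw [← (Pack.rs_ev h3 h4 h5).2, hfθ, rs_zero]
    obtain ⟨c, hc, c', hc', Q, hQ, hθ⟩ := exists_rel (rs (P.W t) u) (rs (P.W t) θ) (rs (P.W t) y) (P.tr_res t h4) n hn h7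
      (pr2 P.fam t f) h9 h8 h10 (h6 y hy h1)
    exact ⟨(⟨c, by omega⟩, ⟨c', by omega⟩), Q, hQ, hθ⟩
  rw [Ultrafilter.eventually_exists_iff] at h1
  obtain ⟨c, hc⟩ := h1
  refine ⟨y + ((c.1 : ℕ) : Ω) * θ + ((c.2 : ℕ) : Ω) * u, ?_, ?_, n, hn, ?_⟩
  · obtain ⟨a, ha⟩ := B.memθ
    obtain ⟨b, hb⟩ := B.memu
    have h2 : θ ∈ S.F ∅ := by rw [← ha]; exact BSC.algebraMap_mem_F S ∅ a
    have h3 : u ∈ S.F ∅ := by rw [← hb]; exact BSC.algebraMap_mem_F S ∅ b
    exact add_mem (add_mem hy (mul_mem (natCast_mem _ _) h2)) (mul_mem (natCast_mem _ _) h3)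
  · intro h2
    apply hyt
    have h3 : IsAlgebraic κ (((c.1 : ℕ) : Ω) * θ) := (isAlgebraic_natCast _).mul B.algθ
    have h4 : IsAlgebraic κ (((c.2 : ℕ) : Ω) * u) := (isAlgebraic_natCast _).mul B.algu
    have h5 : y = (y + ((c.1 : ℕ) : Ω) * θ + ((c.2 : ℕ) : Ω) * u) - (((c.1 : ℕ) : Ω) * θ) - (((c.2 : ℕ) : Ω) * u) := by ring
    rw [h5]
    exact (h2.sub h3).sub h4
  · filter_upwards [hc, hW, P.mem_alg u B.algu, P.mem_alg θ B.algθ] with t h2 h3 h4 h5
    have h6 : ((c.1 : ℕ) : Ω) * θ ∈ P.W t := mul_mem (natCast_mem _ _) h5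
    have h7 : ((c.2 : ℕ) : Ω) * u ∈ P.W t := mul_mem (natCast_mem _ _) h4
    have h8 : rs (P.W t) (y + ((c.1 : ℕ) : Ω) * θ + ((c.2 : ℕ) : Ω) * u) =
        rs (P.W t) y + ((c.1 : ℕ) : Rf P t) * rs (P.W t) θ + ((c.2 : ℕ) : Rf P t) * rs (P.W t) u := by
      rw [rs_add _ (add_mem h3 h6) h7, rs_add _ h3 h6, rs_mul _ (natCast_mem _ _) h5, rs_mul _ (natCast_mem _ _) h4, rs_natCast,
        rs_natCast]
    refine ⟨add_mem (add_mem h3 h6) h7, ?_⟩
    rw [h8]
    exact h2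

/-- E2: the maximal ideals of almost all `W t` have a common nonzero element -/
theorem nontrivial [CharZero κ] [IsAlgClosed Ω] (P : Pack S K u θ) (B : Base κ K u θ) (y : Ω) (hy : y ∈ S.F ∅)
    (hyt : Transcendental κ y) (hW : ∀ᶠ t in (P.fam.U : Filter P.fam.T), y ∈ P.W t) :
    ∃ ξ : Ω, ξ ≠ 0 ∧ ∀ᶠ t in (P.fam.U : Filter P.fam.T), (P.W t).valuation ξ < 1 := by
  classical
  haveI := B.closed
  obtain ⟨x, hx, hxt, n, hn, hgen⟩ := exists_gen P B y hy hyt hW
  let Q : ∀ t, (ZMod (P.fam.p t))[X][Y] := fun t =>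
    if h : ∃ Q : (ZMod (P.fam.p t))[X][Y], Rel (rs (P.W t) u) (rs (P.W t) x) Q n ∧
        rs (P.W t) θ ∈ Fuv (ZMod (P.fam.p t)) (rs (P.W t) u) (rs (P.W t) x) then h.choose else 0
  have hQ : ∀ᶠ t in (P.fam.U : Filter P.fam.T), x ∈ P.W t ∧ Rel (rs (P.W t) u) (rs (P.W t) x) (Q t) n ∧
      rs (P.W t) θ ∈ Fuv (ZMod (P.fam.p t)) (rs (P.W t) u) (rs (P.W t) x) := by
    filter_upwards [hgen] with t h1
    have h2 : Q t = h1.2.choose := dif_pos h1.2
    rw [h2]
    exact ⟨h1.1, h1.2.choose_spec⟩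
  choose N hN hNt using fun e : ℕ => simple_dvd P B x hx hxt e
  -- the divisibility for a fixed number of `e`
  have hNe : ∀ e : ℕ, ∀ᶠ t in (P.fam.U : Filter P.fam.T), P.fam.pr t (N e) ≠ 0 ∧
      ∀ a ∈ simp (spec (Q t) ((e : ℕ) : ZMod (P.fam.p t))), aeval a (lcU (Q t)) = 0 ∨ aeval a (P.fam.pr t (N e)) = 0 := by
    intro e
    filter_upwards [hQ, hNt e] with t h1 h2
    exact h2 h1.1 (Q t) n h1.2.1 h1.2.2
  -- the height is bounded
  obtain ⟨T, hT⟩ : ∃ T : ℕ, ∀ e ∈ Finset.range (7 * n), (N e).natDegree ≤ T :=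
    ⟨(Finset.range (7 * n)).sup fun e => (N e).natDegree, fun e he => Finset.le_sup (f := fun e => (N e).natDegree) he⟩
  have hheight : ∀ᶠ t in (P.fam.U : Filter P.fam.T), (Q t).natDegree ≤ 7 * T := by
    have h1 : ∀ᶠ t in (P.fam.U : Filter P.fam.T), ∀ e ∈ Finset.range (7 * n), P.fam.pr t (N e) ≠ 0 ∧
        ∀ a ∈ simp (spec (Q t) ((e : ℕ) : ZMod (P.fam.p t))), aeval a (lcU (Q t)) = 0 ∨ aeval a (P.fam.pr t (N e)) = 0 := by
      rw [Filter.eventually_all_finset]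
      exact fun e _ => hNe e
    filter_upwards [h1, hQ, P.fam.big (7 * n)] with t h2 h3 h4
    refine height_le (rs (P.W t) u) (rs (P.W t) x) (Q t) n h3.2.1 hn ((Finset.range (7 * n)).image (Nat.cast : ℕ → ZMod (P.fam.p t)))
      ?_ T ?_
    · rw [nat_injOn (P.fam.p t) (7 * n) (by omega) _ (fun e he => Finset.mem_range.1 he), Finset.card_range]
    · intro e he
      obtain ⟨e', he', rfl⟩ := Finset.mem_image.1 he
      exact ⟨P.fam.pr t (N e'), (h2 e' he').1, (P.natDegree_pr_le t _).trans (hT e' he'), (h2 e' he').2⟩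
  obtain ⟨h, hh⟩ : ∃ h : ℕ, ∀ᶠ t in (P.fam.U : Filter P.fam.T), (Q t).natDegree = h := by
    have h1 : ∀ᶠ t in (P.fam.U : Filter P.fam.T), ∃ h : Fin (7 * T + 1), (Q t).natDegree = h := by
      filter_upwards [hheight] with t h1
      exact ⟨⟨(Q t).natDegree, by omega⟩, rfl⟩
    rw [Ultrafilter.eventually_exists_iff] at h1
    obtain ⟨h, hh⟩ := h1
    exact ⟨h, hh⟩
  -- a set of good values
  set M := n + 3 * n * h + 2 * n + 1 with hM
  obtain ⟨J, hJM, hJ⟩ : ∃ J : Finset ℕ, J ⊆ Finset.range M ∧ ∀ᶠ t in (P.fam.U : Filter P.fam.T), 2 * n < J.card ∧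
      ∀ e ∈ J, Good (Q t) ((e : ℕ) : ZMod (P.fam.p t)) := by
    have h1 : ∀ᶠ t in (P.fam.U : Filter P.fam.T), ∃ J ∈ ((Finset.range M).powerset : Set (Finset ℕ)), 2 * n < J.card ∧
        ∀ e ∈ J, Good (Q t) ((e : ℕ) : ZMod (P.fam.p t)) := by
      filter_upwards [hQ, hh, P.fam.big M] with t h2 h3 h4
      have h5 := card_bad (rs (P.W t) u) (rs (P.W t) x) (Q t) n h2.2.1 ((Finset.range M).image (Nat.cast : ℕ → ZMod (P.fam.p t)))
      rw [h3] at h5
      have h6 : ((Finset.range M).filter fun e : ℕ => ¬ Good (Q t) ((e : ℕ) : ZMod (P.fam.p t))).card =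
          (((Finset.range M).image (Nat.cast : ℕ → ZMod (P.fam.p t))).filter fun e => ¬ Good (Q t) e).card := by
        rw [Finset.filter_image]
        exact (nat_injOn (P.fam.p t) M (by omega) _ (fun e he => Finset.mem_range.1 (Finset.mem_filter.1 he).1)).symm
      have h7 := Finset.card_filter_add_card_filter_not (s := Finset.range M)
        (fun e : ℕ => Good (Q t) ((e : ℕ) : ZMod (P.fam.p t)))
      rw [Finset.card_range] at h7
      refine ⟨(Finset.range M).filter fun e : ℕ => Good (Q t) ((e : ℕ) : ZMod (P.fam.p t)), ?_, by omega, ?_⟩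
      · exact Finset.mem_coe.2 (Finset.mem_powerset.2 (Finset.filter_subset _ _))
      · intro e he
        exact (Finset.mem_filter.1 he).2
    rw [Ultrafilter.eventually_exists_mem_iff (Finset.finite_toSet _)] at h1
    obtain ⟨J, hJ1, hJ2⟩ := h1
    exact ⟨J, Finset.mem_powerset.1 (Finset.mem_coe.1 hJ1), hJ2⟩
  have hJc : 2 * n < J.card := hJ.exists.choose_spec.1
  -- the divisors
  have hDex : ∀ e : ℕ, ∃ D : K[X], e ∈ J → D.Monic ∧ ∀ᶠ t in (P.fam.U : Filter P.fam.T),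
      spec (Q t) ((e : ℕ) : ZMod (P.fam.p t)) = C (spec (Q t) ((e : ℕ) : ZMod (P.fam.p t))).leadingCoeff * P.fam.pr t D := by
    intro e
    by_cases he : e ∈ J
    · obtain ⟨D, hD1, hD2⟩ := exists_div P.fam (N e) (hN e) (fun t => spec (Q t) ((e : ℕ) : ZMod (P.fam.p t))) (by
        filter_upwards [hQ, hJ, hNe e] with t h1 h2 h3
        exact ⟨h1.2.1.spec_ne _, dvd_of_good (rs (P.W t) u) (rs (P.W t) x) (Q t) n h1.2.1 _ (h2.2 e he) _ h3.2⟩)
      exact ⟨D, fun _ => ⟨hD1, hD2⟩⟩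
    · exact ⟨1, fun h1 => absurd h1 he⟩
  choose D hD using hDex
  have hDall : ∀ᶠ t in (P.fam.U : Filter P.fam.T), ∀ e ∈ J,
      spec (Q t) ((e : ℕ) : ZMod (P.fam.p t)) =
        C (spec (Q t) ((e : ℕ) : ZMod (P.fam.p t))).leadingCoeff * P.fam.pr t (D e) := by
    rw [Filter.eventually_all_finset]
    exact fun e he => (hD e he).2
  have hDdeg : ∀ e ∈ J, (D e).Monic ∧ (D e).natDegree = h := by
    intro e he
    refine ⟨(hD e he).1, ?_⟩
    obtain ⟨t, h1, h2, h3, h4, h5⟩ := (hQ.and (hJ.and (hh.and ((hD e he).2.and (P.fam.pr_natDegree (D e)))))).exists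
    have h6 := (h2.2 e he).1
    have h7 : (spec (Q t) ((e : ℕ) : ZMod (P.fam.p t))).leadingCoeff ≠ 0 := leadingCoeff_ne_zero.2 (h1.2.1.spec_ne _)
    rw [← h5, ← natDegree_C_mul h7, ← h4, h6, h3]
  obtain ⟨P', hP0, hPh, hPn, hPe⟩ := exists_sol P.fam n h J D hDdeg Q (by
    filter_upwards [hQ, hh, hDall] with t h1 h2 h3
    exact ⟨h1.2.1.irr.ne_zero, h2.le, h1.2.1.deg, fun e he => ⟨_, h3 e he⟩⟩)
  refine ⟨ev x u P', ev_ne B x hxt P' hP0, ?_⟩
  have hspec : ∀ᶠ t in (P.fam.U : Filter P.fam.T), ∀ e ∈ J, ∃ l,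
      spec (pr2 P.fam t P') ((e : ℕ) : ZMod (P.fam.p t)) = C l * P.fam.pr t (D e) := by
    rw [Filter.eventually_all_finset]
    intro e he
    obtain ⟨l, hl⟩ := hPe e he
    filter_upwards [spec_pr2 P.fam P' e, P.fam.pr_mul (C l) (D e)] with t h1 h2
    exact ⟨P.fam.red t l, by rw [h1, hl, h2, P.fam.pr_C]⟩
  have hmon : ∀ᶠ t in (P.fam.U : Filter P.fam.T), ∀ e ∈ J, (P.fam.pr t (D e)).Monic ∧ (P.fam.pr t (D e)).natDegree = h := by
    rw [Filter.eventually_all_finset]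
    intro e he
    filter_upwards [P.fam.pr_natDegree (D e), P.fam.one] with t h1 h2
    rw [(hDdeg e he).2] at h1
    refine ⟨?_, h1⟩
    rw [Monic, leadingCoeff, h1, P.fam.pr_coeff]
    have h3 := (hDdeg e he).1.coeff_natDegree
    rw [(hDdeg e he).2] at h3
    rw [h3, h2]
  filter_upwards [hQ, hh, hDall, hspec, hmon, P.fam.big M, P.ok_poly2 P', P.mem_alg u B.algu] with t h1 h2 h3 h4 h5 h6 h7 h8
  have hJlt : ∀ e ∈ J, e < M := fun e he => Finset.mem_range.1 (hJM he)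
  have hval : ∀ e ∈ J, (((e : ℕ) : ZMod (P.fam.p t))).val = e := by
    intro e he
    rw [ZMod.val_natCast, Nat.mod_eq_of_lt]
    have := hJlt e he
    omega
  have h9 := interp (rs (P.W t) u) (rs (P.W t) x) (Q t) n h1.2.1 (pr2 P.fam t P')
    ((P.natDegree_pr2_le t P').trans (hPh.trans h2.ge))
    (fun j => by rw [pr2_coeff]; exact (P.natDegree_pr_le t _).trans (hPn j))
    (J.image (Nat.cast : ℕ → ZMod (P.fam.p t)))
    (by rw [nat_injOn (P.fam.p t) M (by omega) J hJlt]; exact hJc)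
    (fun z => P.fam.pr t (D z.val))
    (by
      intro e he
      obtain ⟨e', he', rfl⟩ := Finset.mem_image.1 he
      rw [hval e' he']
      exact ⟨(h5 e' he').1, by rw [(h5 e' he').2, h2], _, h3 e' he'⟩)
    (by
      intro e he
      obtain ⟨e', he', rfl⟩ := Finset.mem_image.1 he
      rw [hval e' he']
      exact h4 e' he')
  obtain ⟨h10, h11⟩ := Pack.rs_ev h7 h1.1 h8
  rw [← rs_eq_zero _ h10, h11, h9]

end

end BSCG
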