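import Pool.Agent.Lib_MP_49ddc8_g.R1
import Pool.Agent.Lib_MP_49ddc8_g.B6
import Pool.Agent.Lib_MP_49ddc8_v.VLin

/-!
# [E2a] transfer of linear systems and of divisors from almost all reductions
-/

set_option autoImplicit false

open Polynomial Polynomial.Bivariate

namespace BSCG

section

variable {K : Type} [Field K]

/-- a homogeneous linear system which has a nonzero solution modulo almost all `t` has a nonzero solution -/
theorem transfer (F : BSC.Fam K) {ι ρ : Type} [Fintype ι] [Fintype ρ] (M : ρ → ι → K)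
    (h : ∀ᶠ t in (F.U : Filter F.T), ∃ v : ι → ZMod (F.p t), (∃ j, v j ≠ 0) ∧ ∀ i : ρ, ∑ j, F.red t (M i j) * v j = 0) :
    ∃ v : ι → K, (∃ j, v j ≠ 0) ∧ ∀ i : ρ, ∑ j, M i j * v j = 0 := by
  classical
  by_contra hc
  let e := Fintype.equivFin ι
  let g := Fintype.equivFin ρ
  let A : Fin (Fintype.card ι) → K[X] := fun j => ∑ i : ρ, monomial (g i : ℕ) (M i (e.symm j))
  have hA : ∀ j i, (A j).coeff (g i : ℕ) = M i (e.symm j) := by
    intro j i
    show (∑ i : ρ, monomial (g i : ℕ) (M i (e.symm j))).coeff (g i : ℕ) = M i (e.symm j)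
    rw [finsetSum_coeff, Finset.sum_eq_single i]
    · rw [coeff_monomial, if_pos rfl]
    · intro i' _ hi'
      rw [coeff_monomial, if_neg]
      intro h1
      exact hi' (g.injective (Fin.ext h1))
    · intro h1
      exact absurd (Finset.mem_univ i) h1
  have hA' : ∀ j (m : ℕ), (∀ i, (g i : ℕ) ≠ m) → (A j).coeff m = 0 := by
    intro j m hm
    show (∑ i : ρ, monomial (g i : ℕ) (M i (e.symm j))).coeff m = 0
    rw [finsetSum_coeff]
    refine Finset.sum_eq_zero fun i _ => ?_
    rw [coeff_monomial, if_neg (hm i)]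
  have hlin : LinearIndependent K A := by
    rw [Fintype.linearIndependent_iff]
    intro v hv
    by_contra hne
    push Not at hne
    obtain ⟨j, hj⟩ := hne
    apply hc
    refine ⟨fun a => v (e a), ⟨e.symm j, by simpa using hj⟩, fun i => ?_⟩
    have h1 := congrArg (fun q => coeff q (g i : ℕ)) hv
    simp only [finsetSum_coeff, coeff_smul, smul_eq_mul, coeff_zero, hA] at h1
    rw [← h1, ← e.sum_comp]
    refine Finset.sum_congr rfl fun a _ => ?_
    rw [Equiv.symm_apply_apply, mul_comm]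
  obtain ⟨t, ⟨v, ⟨j, hj⟩, hv⟩, ht⟩ := (h.and (F.pr_linInd _ A hlin)).exists
  rw [Fintype.linearIndependent_iff] at ht
  apply hj
  have h2 := ht (fun a => v (e.symm a)) (by
    ext m
    simp only [finsetSum_coeff, coeff_smul, smul_eq_mul, coeff_zero, F.pr_coeff]
    by_cases hm : ∃ i, (g i : ℕ) = m
    · obtain ⟨i, rfl⟩ := hm
      rw [← hv i, ← e.symm.sum_comp]
      refine Finset.sum_congr rfl fun a _ => ?_
      rw [hA, mul_comm]
    · push Not at hm
      refine Finset.sum_eq_zero fun a _ => ?_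
      rw [hA' a m hm, F.zero, mul_zero]) (e j)
  simpa using h2

theorem red_sub (F : BSC.Fam K) (a b : K) : ∀ᶠ t in (F.U : Filter F.T), F.red t (a - b) = F.red t a - F.red t b := by
  filter_upwards [F.add (a - b) b] with t h
  rw [sub_add_cancel] at h
  rw [h, add_sub_cancel_right]

theorem red_pow (F : BSC.Fam K) (a : K) (m : ℕ) : ∀ᶠ t in (F.U : Filter F.T), F.red t (a ^ m) = F.red t a ^ m := by
  induction m with
  | zero =>
    filter_upwards [F.one] with t h
    rw [pow_zero, pow_zero, h]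
  | succ m ih =>
    filter_upwards [ih, F.mul (a ^ m) a] with t h1 h2
    rw [pow_succ, pow_succ, h2, h1]

theorem red_nat (F : BSC.Fam K) (e : ℕ) : ∀ᶠ t in (F.U : Filter F.T), F.red t (e : K) = (e : ZMod (F.p t)) := by
  induction e with
  | zero => exact Filter.Eventually.of_forall fun t => by rw [Nat.cast_zero, Nat.cast_zero, F.zero]
  | succ m ih =>
    filter_upwards [ih, F.add (m : K) 1, F.one] with t h1 h2 h3
    rw [Nat.cast_add, Nat.cast_one, h2, h1, h3, Nat.cast_add, Nat.cast_one]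

theorem red_eval (F : BSC.Fam K) (q : K[X]) (a : K) :
    ∀ᶠ t in (F.U : Filter F.T), F.red t (q.eval a) = (F.pr t q).eval (F.red t a) := by
  induction q using Polynomial.induction_on' with
  | add p q hp hq =>
    filter_upwards [hp, hq, F.pr_add p q, F.add (p.eval a) (q.eval a)] with t h1 h2 h3 h4
    rw [eval_add, h4, h1, h2, h3, eval_add]
  | monomial m b =>
    filter_upwards [F.mul b (a ^ m), red_pow F a m] with t h1 h2
    have h3 : F.pr t (monomial m b) = monomial m (F.red t b) := by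
      ext i
      rw [F.pr_coeff, coeff_monomial, coeff_monomial]
      split_ifs
      · rfl
      · exact F.zero t
    rw [h3, eval_monomial, eval_monomial, h1, h2]

theorem pr_X_sub_C (F : BSC.Fam K) (b : K) : ∀ᶠ t in (F.U : Filter F.T), F.pr t (X - C b) = X - C (F.red t b) := by
  filter_upwards [F.pr_sub X (C b), F.one] with t h1 h2
  rw [h1, F.pr_C]
  congr 1
  ext i
  rw [F.pr_coeff, coeff_X, coeff_X]
  split_ifs
  · exact h2
  · exact F.zero t

theorem pr_prod (F : BSC.Fam K) {ι : Type} (s : Finset ι) (b : ι → K) :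
    ∀ᶠ t in (F.U : Filter F.T), F.pr t (∏ j ∈ s, (X - C (b j))) = ∏ j ∈ s, (X - C (F.red t (b j))) := by
  classical
  induction s using Finset.induction_on with
  | empty =>
    filter_upwards [F.pr_one] with t h
    rw [Finset.prod_empty, Finset.prod_empty, h]
  | insert a s ha ih =>
    filter_upwards [ih, F.pr_mul (X - C (b a)) (∏ j ∈ s, (X - C (b j))), pr_X_sub_C F (b a)] with t h1 h2 h3
    rw [Finset.prod_insert ha, Finset.prod_insert ha, h2, h1, h3]

theorem exists_fac [IsAlgClosed K] (N : K[X]) (hN : N ≠ 0) :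
    ∃ (m : ℕ) (b : Fin m → K) (c : K), c ≠ 0 ∧ N = C c * ∏ j, (X - C (b j)) := by
  obtain ⟨l, hl⟩ := Quot.exists_rep N.roots
  refine ⟨l.length, fun j => l[j.1], N.leadingCoeff, leadingCoeff_ne_zero.2 hN, ?_⟩
  have h1 := (IsAlgClosed.splits N).eq_prod_roots
  show N = C N.leadingCoeff * ∏ j : Fin l.length, (X - C l[j.1])
  rw [Fin.prod_univ_fun_getElem l (fun a => X - C a)]
  conv_lhs => rw [h1]
  rw [← hl]
  simp

/-- a divisor of almost all reductions of a polynomial comes from one monic polynomial -/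
theorem exists_div [IsAlgClosed K] (F : BSC.Fam K) (N : K[X]) (hN : N ≠ 0) (q : ∀ t, (ZMod (F.p t))[X])
    (hq : ∀ᶠ t in (F.U : Filter F.T), q t ≠ 0 ∧ q t ∣ F.pr t N) :
    ∃ D : K[X], D.Monic ∧ ∀ᶠ t in (F.U : Filter F.T), q t = C (q t).leadingCoeff * F.pr t D := by
  obtain ⟨m, b, c, hc, hfac⟩ := exists_fac N hN
  have h1 : ∀ᶠ t in (F.U : Filter F.T), ∃ J : Finset (Fin m),
      q t = C (q t).leadingCoeff * ∏ j ∈ J, (X - C (F.red t (b j))) := by
    filter_upwards [hq, F.red_ne c hc, F.pr_mul (C c) (∏ j, (X - C (b j))), pr_prod F Finset.univ b] with t h1 h2 h3 h4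
    obtain ⟨hq0, hdvd⟩ := h1
    rw [hfac, h3, h4, F.pr_C] at hdvd
    exact exists_subset m _ _ h2 (q t) hq0 hdvd
  rw [Ultrafilter.eventually_exists_iff] at h1
  obtain ⟨J, hJ⟩ := h1
  refine ⟨∏ j ∈ J, (X - C (b j)), monic_prod_of_monic _ _ fun j _ => monic_X_sub_C _, ?_⟩
  filter_upwards [hJ, pr_prod F J b] with t h1 h2
  rw [h2]
  exact h1

end

end BSCG
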