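import Pool.Agent.Lib_MP_49ddc8_g.Ev

/-!
# [F1] a finitely generated field which is not algebraic over `ℚ` is `k(u)(θ)`
-/

set_option autoImplicit false

open Polynomial Polynomial.Bivariate IntermediateField
open scoped IntermediateField.algebraAdjoinAdjoin

namespace BSCG

theorem isAlg_of_hom {A B E : Type} [CommRing A] [CommRing B] [CommRing E] [Algebra A E] [Algebra B E]
    (f : A →+* B) (hf : Function.Injective f) (hc : ∀ a, algebraMap B E (f a) = algebraMap A E a) {x : E}
    (hx : IsAlgebraic A x) : IsAlgebraic B x := by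
  obtain ⟨p, hp, hx⟩ := hx
  refine ⟨p.map f, (Polynomial.map_ne_zero_iff hf).2 hp, ?_⟩
  have h : (algebraMap B E).comp f = algebraMap A E := RingHom.ext hc
  rw [aeval_def, eval₂_map, h]
  exact hx

theorem alg_adjoin_of_top {F E : Type} [Field F] [Field E] [Algebra F E] {s : Set E}
    (hs : IntermediateField.adjoin F s = ⊤) : Algebra.IsAlgebraic (Algebra.adjoin F s) E := by
  refine ⟨fun x => ?_⟩
  have hx : x ∈ IntermediateField.adjoin F s := by rw [hs]; trivial
  rw [IsFractionRing.isAlgebraic_iff (Algebra.adjoin F s) (IntermediateField.adjoin F s) E]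
  exact isAlgebraic_algebraMap (⟨x, hx⟩ : IntermediateField.adjoin F s)

/-- `κ` is algebraic over `k(u)`, `k` finitely generated, `u` transcendental over `k` -/
theorem exists_ku (κ : Type) [Field κ] [CharZero κ] (h : (⊤ : IntermediateField ℚ κ).FG)
    (hna : ¬ Algebra.IsAlgebraic ℚ κ) :
    ∃ (k : IntermediateField ℚ κ) (u : κ), (⊤ : IntermediateField ℚ k).FG ∧ Transcendental k u ∧
      Algebra.IsAlgebraic (IntermediateField.adjoin k {u}) κ := by
  obtain ⟨s, hs⟩ := h
  haveI := alg_adjoin_of_top hs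
  obtain ⟨B, hBs, hB⟩ := exists_isTranscendenceBasis_subset (R := ℚ) (s : Set κ)
  have hfin : B.Finite := s.finite_toSet.subset hBs
  have hne : B.Nonempty := by
    by_contra hcon
    rw [Set.not_nonempty_iff_eq_empty] at hcon
    subst hcon
    apply hna
    have h1 := hB.isAlgebraic
    refine ⟨fun x => ?_⟩
    have h2 := h1.isAlgebraic x
    have h3 : ∀ a : Algebra.adjoin ℚ (Set.range (Subtype.val : (∅ : Set κ) → κ)), ∃ r : ℚ, algebraMap ℚ κ r = a := by
      rintro ⟨a, ha⟩
      rw [Subtype.range_coe_subtype] at ha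
      simp only [Set.mem_empty_iff_false, Set.setOf_false, Algebra.adjoin_empty] at ha
      obtain ⟨r, hr⟩ := Algebra.mem_bot.1 ha
      exact ⟨r, hr⟩
    obtain ⟨p, hp, hpx⟩ := h2
    have h4 : ∃ q : ℚ[X], q.map (algebraMap ℚ (Algebra.adjoin ℚ (Set.range (Subtype.val : (∅ : Set κ) → κ)))) = p := by
      rw [← Polynomial.mem_lifts, Polynomial.lifts_iff_coeff_lifts]
      intro n
      obtain ⟨r, hr⟩ := h3 (p.coeff n)
      exact ⟨r, Subtype.ext hr⟩
    obtain ⟨q, hq⟩ := h4
    refine ⟨q, ?_, ?_⟩
    · rintro rfl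
      exact hp (by rw [← hq, Polynomial.map_zero])
    · rw [← hq, aeval_map_algebraMap] at hpx
      exact hpx
  obtain ⟨u, hu⟩ := hne
  have htr : Transcendental (Algebra.adjoin ℚ (B \ {u})) u := by
    have h1 := hB.1.transcendental_adjoin (s := {b : B | (b : κ) ≠ u}) (i := ⟨u, hu⟩) (by simp)
    have h2 : (fun b : B => (b : κ)) '' {b : B | (b : κ) ≠ u} = B \ {u} := by
      ext x
      constructor
      · rintro ⟨b, hb, rfl⟩
        exact ⟨b.2, hb⟩
      · rintro ⟨hx, hxu⟩
        exact ⟨⟨x, hx⟩, hxu, rfl⟩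
    rw [h2] at h1
    exact h1
  refine ⟨IntermediateField.adjoin ℚ (B \ {u}), u, ?_, ?_, ?_⟩
  · rw [fg_top_iff]
    have h1 := (essFiniteType_iff (F := ℚ) (E := κ) (K := IntermediateField.adjoin ℚ (B \ {u}))).2
      ⟨(hfin.subset Set.diff_subset).toFinset, by rw [Set.Finite.coe_toFinset]⟩
    convert h1
    exact Subsingleton.elim _ _
  · intro hcon
    exact htr ((IsFractionRing.isAlgebraic_iff (Algebra.adjoin ℚ (B \ {u}))
      (IntermediateField.adjoin ℚ (B \ {u})) κ).2 hcon)
  · refine ⟨fun x => ?_⟩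
    have hx := hB.isAlgebraic.isAlgebraic x
    obtain ⟨k, hk⟩ : ∃ k, k = IntermediateField.adjoin ℚ (B \ {u}) := ⟨_, rfl⟩
    rw [← hk]
    have hsub : ∀ a : Algebra.adjoin ℚ (Set.range (Subtype.val : B → κ)),
        (a : κ) ∈ IntermediateField.adjoin k {u} := by
      rintro ⟨a, ha⟩
      show a ∈ IntermediateField.adjoin k {u}
      have hle : Algebra.adjoin ℚ (Set.range (Subtype.val : B → κ)) ≤
          ((IntermediateField.adjoin k {u}).restrictScalars ℚ).toSubalgebra := by
        refine Algebra.adjoin_le ?_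
        rintro _ ⟨b, rfl⟩
        show (b : κ) ∈ IntermediateField.adjoin k {u}
        by_cases hb : (b : κ) = u
        · rw [hb]
          exact subset_adjoin _ _ rfl
        · have hbk : (b : κ) ∈ k := by
            rw [hk]
            exact subset_adjoin _ _ ⟨b.2, hb⟩
          exact (IntermediateField.adjoin k {u}).algebraMap_mem ⟨b, hbk⟩
      exact hle ha
    refine isAlg_of_hom (A := Algebra.adjoin ℚ (Set.range (Subtype.val : B → κ)))
      (RingHom.codRestrict (algebraMap _ κ) (IntermediateField.adjoin k {u}) hsub) ?_ (fun a => rfl) hx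
    intro a b hab
    have h2 : (algebraMap (Algebra.adjoin ℚ (Set.range (Subtype.val : B → κ))) κ) a =
        (algebraMap (Algebra.adjoin ℚ (Set.range (Subtype.val : B → κ))) κ) b :=
      congrArg (fun z : IntermediateField.adjoin k {u} => (z : κ)) hab
    exact Subtype.ext h2

/-- **[F1]** `κ = k(u)(θ)`, `k` finitely generated over `ℚ`, `u` transcendental over `k`, `θ` integral over `k[u]` -/
theorem exists_base (κ : Type) [Field κ] [CharZero κ] (h : (⊤ : IntermediateField ℚ κ).FG)
    (hna : ¬ Algebra.IsAlgebraic ℚ κ) :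
    ∃ (k : IntermediateField ℚ κ) (u θ : κ) (φ : RatFunc k →+* κ), (⊤ : IntermediateField ℚ k).FG ∧
      Transcendental k u ∧ IntermediateField.adjoin k {u, θ} = ⊤ ∧
      (∃ f : k[X][Y], f.Monic ∧ ev u θ f = 0) ∧ (∀ c : k, φ (RatFunc.C c) = c) ∧ φ RatFunc.X = u ∧
      (letI := φ.toAlgebra; FiniteDimensional (RatFunc k) κ) ∧
      (letI := φ.toAlgebra; IntermediateField.adjoin (RatFunc k) {θ} = ⊤) := by
  obtain ⟨k, u, hk, hu, halg⟩ := exists_ku κ h hna
  obtain ⟨s, hs⟩ := h
  have hinj : Function.Injective (aeval u : k[X] →ₐ[k] κ) := transcendental_iff_injective.1 hu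
  have hcomap : nonZeroDivisors k[X] ≤ Submonoid.comap (aeval u : k[X] →ₐ[k] κ) (nonZeroDivisors κ) := by
    intro q hq
    rw [Submonoid.mem_comap, mem_nonZeroDivisors_iff_ne_zero]
    rw [mem_nonZeroDivisors_iff_ne_zero] at hq
    intro h0
    exact hq (hinj (by rw [h0, map_zero]))
  obtain ⟨φ, hφ⟩ : ∃ φ : RatFunc k →+* κ, φ = (RatFunc.liftAlgHom (aeval u : k[X] →ₐ[k] κ) hcomap).toRingHom :=
    ⟨_, rfl⟩
  have hφr : ∀ r : RatFunc k, φ r = aeval u r.num / aeval u r.denom := by
    intro r
    rw [hφ]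
    exact RatFunc.liftAlgHom_apply _ _ r
  have hφq : ∀ q : k[X], φ (algebraMap k[X] (RatFunc k) q) = aeval u q := by
    intro q
    rw [hφ]
    have := RatFunc.liftAlgHom_apply_div' (aeval u : k[X] →ₐ[k] κ) hcomap q 1
    simpa using this
  have hφC : ∀ c : k, φ (RatFunc.C c) = c := by
    intro c
    rw [← RatFunc.algebraMap_C, hφq, aeval_C]
    rfl
  have hφX : φ RatFunc.X = u := by
    rw [← RatFunc.algebraMap_X, hφq, aeval_X]
  letI := φ.toAlgebra
  letI : Algebra k[X] κ := (aeval u : k[X] →ₐ[k] κ).toRingHom.toAlgebra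
  haveI : IsScalarTower k[X] (RatFunc k) κ := IsScalarTower.of_algebraMap_eq fun q => (hφq q).symm
  have hmap : ∀ r : RatFunc k, algebraMap (RatFunc k) κ r = φ r := fun _ => rfl
  have hmem : ∀ (E : IntermediateField k κ), u ∈ E → ∀ r : RatFunc k, φ r ∈ E := by
    intro E hE r
    have h1 : ∀ q : k[X], aeval u q ∈ E := by
      intro q
      have : aeval u q ∈ Algebra.adjoin k {u} := aeval_mem_adjoin_singleton k u
      exact (Algebra.adjoin_le (S := E.toSubalgebra) (by
        intro x hx
        rw [Set.mem_singleton_iff.1 hx]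
        exact hE)) this
    rw [hφr]
    exact div_mem (h1 _) (h1 _)
  have hsurj : ∀ a ∈ IntermediateField.adjoin k {u}, ∃ r : RatFunc k, φ r = a := by
    intro a ha
    obtain ⟨r, t, hrt⟩ := (mem_adjoin_simple_iff k a).1 ha
    refine ⟨algebraMap k[X] (RatFunc k) r / algebraMap k[X] (RatFunc k) t, ?_⟩
    rw [map_div₀, hφq, hφq, hrt]
  haveI : Algebra.IsAlgebraic (RatFunc k) κ := by
    refine ⟨fun x => ?_⟩
    choose g hg using fun a : IntermediateField.adjoin k {u} => hsurj a a.2
    have hφi := φ.injective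
    refine isAlg_of_hom (A := IntermediateField.adjoin k {u})
      { toFun := g
        map_one' := hφi (by rw [hg, map_one]; rfl)
        map_mul' := fun a b => hφi (by rw [hg, map_mul, hg, hg]; rfl)
        map_zero' := hφi (by rw [hg, map_zero]; rfl)
        map_add' := fun a b => hφi (by rw [hg, map_add, hg, hg]; rfl) } ?_ ?_ (halg.isAlgebraic x)
    · intro a b hab
      have : φ (g a) = φ (g b) := congrArg φ hab
      rw [hg, hg] at this
      exact Subtype.ext this
    · intro a
      exact hg a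
  have htop : IntermediateField.adjoin (RatFunc k) (s : Set κ) = ⊤ := by
    rw [eq_top_iff]
    intro x _
    have hx : x ∈ IntermediateField.adjoin ℚ (s : Set κ) := by rw [hs]; trivial
    induction hx using IntermediateField.adjoin_induction with
    | mem x hx => exact subset_adjoin _ _ hx
    | algebraMap q =>
      have : algebraMap ℚ κ q = (q : κ) := rfl
      rw [this]
      exact SubfieldClass.ratCast_mem _ q
    | add x y _ _ hx hy => exact add_mem (hx trivial) (hy trivial)
    | inv x _ hx => exact inv_mem (hx trivial)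
    | mul x y _ _ hx hy => exact mul_mem (hx trivial) (hy trivial)
  haveI hfd : FiniteDimensional (RatFunc k) κ := by
    haveI : FiniteDimensional (RatFunc k) (IntermediateField.adjoin (RatFunc k) (s : Set κ)) :=
      IntermediateField.finiteDimensional_adjoin fun x _ => (Algebra.IsAlgebraic.isAlgebraic x).isIntegral
    rw [htop] at this
    exact (IntermediateField.topEquiv (F := RatFunc k) (E := κ)).toLinearEquiv.finiteDimensional
  haveI : CharZero (RatFunc k) := charZero_of_injective_algebraMap (algebraMap k (RatFunc k)).injective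
  obtain ⟨α, hα⟩ := Field.exists_primitive_element (RatFunc k) κ
  have hα1 : IsAlgebraic k[X] α :=
    (IsFractionRing.isAlgebraic_iff k[X] (RatFunc k) κ).2 (Algebra.IsAlgebraic.isAlgebraic α)
  obtain ⟨y, hy0, hy⟩ := hα1.exists_integral_multiple
  have hyu : aeval u y ≠ 0 := fun h0 => hy0 (hinj (by rw [h0, map_zero]))
  have hyα : y • α = aeval u y * α := Algebra.smul_def y α
  have hθ1 : ∀ E : IntermediateField (RatFunc k) κ, y • α ∈ E → α ∈ E := by
    intro E hE
    have h1 : aeval u y ∈ E := by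
      rw [← hφq y]
      exact E.algebraMap_mem _
    have h2 : α = (y • α) / aeval u y := by
      rw [hyα]
      field_simp
    rw [h2]
    exact div_mem hE h1
  have hθ : IntermediateField.adjoin (RatFunc k) {y • α} = ⊤ := by
    rw [eq_top_iff, ← hα, adjoin_simple_le_iff]
    exact hθ1 _ (mem_adjoin_simple_self _ _)
  refine ⟨k, u, y • α, φ, hk, hu, ?_, ?_, hφC, hφX, hfd, hθ⟩
  · rw [eq_top_iff]
    intro x _
    have hE : ∀ r : RatFunc k, algebraMap (RatFunc k) κ r ∈ (IntermediateField.adjoin k {u, y • α}).toSubfield :=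
      fun r => hmem _ (subset_adjoin _ _ (Or.inl rfl)) r
    have h1 : x ∈ IntermediateField.adjoin (RatFunc k) {y • α} := by rw [hθ]; trivial
    have h2 : IntermediateField.adjoin (RatFunc k) {y • α} ≤
        (IntermediateField.adjoin k {u, y • α}).toSubfield.toIntermediateField hE := by
      rw [adjoin_simple_le_iff]
      exact subset_adjoin k {u, y • α} (Or.inr rfl)
    exact h2 h1
  · obtain ⟨f, hf, hf0⟩ := hy
    exact ⟨f, hf, hf0⟩

/-- the algebraic closure of `k` is stable under the automorphisms over `κ` -/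
theorem stab_of (κ Ω : Type) [Field κ] [CharZero κ] [Field Ω] [Algebra κ Ω] [IsAlgClosed Ω]
    (k : IntermediateField ℚ κ) (τ : algebraicClosure κ Ω ≃ₐ[κ] algebraicClosure κ Ω) (x : algebraicClosure κ Ω)
    (hx : (x : Ω) ∈ (algebraicClosure k Ω).toSubfield) :
    ((τ x : algebraicClosure κ Ω) : Ω) ∈ (algebraicClosure k Ω).toSubfield := by
  have hK : ∀ c : Ω, c ∈ (algebraicClosure k Ω).toSubfield ↔ IsAlgebraic k c := fun c => mem_algebraicClosure_iff
  rw [hK] at hx ⊢
  obtain ⟨p, hp, hpx⟩ := hx
  refine ⟨p, hp, ?_⟩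
  have e : ∀ z : algebraicClosure κ Ω, algebraMap (algebraicClosure κ Ω) Ω (aeval z (p.map (algebraMap k κ))) =
      aeval (z : Ω) p := by
    intro z
    rw [← aeval_algebraMap_apply, aeval_map_algebraMap]
    rfl
  have h1 : aeval (x : algebraicClosure κ Ω) (p.map (algebraMap k κ)) = 0 := by
    apply (algebraMap (algebraicClosure κ Ω) Ω).injective
    rw [e, hpx, map_zero]
  have h2 : aeval (τ x) (p.map (algebraMap k κ)) = 0 := by
    have := congrArg τ h1
    rwa [map_zero, ← aeval_algHom_apply] at this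
  rw [← e, h2, map_zero]

/-- the standing hypotheses of the global part, for `K` = the algebraic closure of `k` in `Ω` -/
theorem base_of (κ Ω : Type) [Field κ] [CharZero κ] [Field Ω] [Algebra κ Ω] [IsAlgClosed Ω]
    (k : IntermediateField ℚ κ) (u θ : κ) (htr : Transcendental k u)
    (hgen : IntermediateField.adjoin k {u, θ} = ⊤) (hint : ∃ f : k[X][Y], f.Monic ∧ ev u θ f = 0) :
    Base κ (algebraicClosure k Ω).toSubfield (algebraMap κ Ω u) (algebraMap κ Ω θ) := by
  have hK : ∀ c : Ω, c ∈ (algebraicClosure k Ω).toSubfield ↔ IsAlgebraic k c := fun c => mem_algebraicClosure_iff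
  haveI hc : IsAlgClosed (algebraicClosure k Ω) := (algebraicClosure.isAlgClosure k Ω).isAlgClosed
  have hmap : ∀ c : k, (algebraMap κ Ω (c : κ)) ∈ (algebraicClosure k Ω).toSubfield := fun c =>
    (hK _).2 (isAlgebraic_algebraMap c)
  obtain ⟨i, hi⟩ : ∃ i : k →+* (algebraicClosure k Ω).toSubfield, ∀ c, ((i c : (algebraicClosure k Ω).toSubfield) : Ω) =
      algebraMap κ Ω c := ⟨(algebraMap k Ω).codRestrict _ hmap, fun c => rfl⟩
  refine ⟨hc, ?_, ⟨u, rfl⟩, ⟨θ, rfl⟩, ?_, ?_, ?_⟩
  · intro c h
    exact ((hK c).1 h).tower_top κ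
  · intro hcon
    apply htr
    have h1 : IsAlgebraic (algebraicClosure k Ω) (algebraMap κ Ω u) := hcon
    have h2 : IsAlgebraic k (algebraMap κ Ω u) := h1.restrictScalars k
    exact (isAlgebraic_algebraMap_iff (algebraMap κ Ω).injective).1 h2
  · intro c
    have hcm : c ∈ IntermediateField.adjoin k {u, θ} := by rw [hgen]; trivial
    induction hcm using IntermediateField.adjoin_induction with
    | mem x hx =>
      apply subset_adjoin
      rcases hx with rfl | hx
      · exact Or.inl rfl
      · rw [Set.mem_singleton_iff] at hx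
        rw [hx]
        exact Or.inr rfl
    | algebraMap c =>
      exact (Fuv _ _ _).algebraMap_mem (⟨_, hmap c⟩ : (algebraicClosure k Ω).toSubfield)
    | add x y _ _ hx hy => rw [map_add]; exact add_mem hx hy
    | inv x _ hx => rw [map_inv₀]; exact inv_mem hx
    | mul x y _ _ hx hy => rw [map_mul]; exact mul_mem hx hy
  · obtain ⟨f, hf, hf0⟩ := hint
    refine ⟨f.map (mapRingHom i), hf.map _, ?_⟩
    unfold ev at hf0 ⊢
    rw [eval₂_map]
    have hcomp : ((aeval (R := (algebraicClosure k Ω).toSubfield) (algebraMap κ Ω u)).toRingHom.comp (mapRingHom i)) =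
        (algebraMap κ Ω).comp (aeval (R := k) u : k[X] →ₐ[k] κ).toRingHom := by
      refine Polynomial.ringHom_ext ?_ ?_
      · intro a
        simp only [AlgHom.toRingHom_eq_coe, RingHom.coe_comp, RingHom.coe_coe, Function.comp_apply, coe_mapRingHom,
          map_C, aeval_C]
        exact hi a
      · simp
    rw [hcomp, ← hom_eval₂, hf0, map_zero]

end BSCG
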