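import Pool.Agent.Lib_MP_49ddc8_v.VRe
import Pool.Agent.Lib_MP_49ddc8_v.VE1
import Pool.Agent.Lib_MP_49ddc8.Gs4

/-!
# [L-W] The valuation ring `W` above the Gauss norm for a section over a finite extension `κ` of `k(u)`

`S : Sec κ Ω`, `κ / k(u)` finite, `L`, `nm` as in `GN` (over `k(u)`).  There is a valuation ring `W` of `Ω` whose trace on the elements algebraic
over `κ` is `{nm ≤ 1}` and which is stable under `S.s τ` for all `τ` fixing `L`.

Proof: `exists_W_all` (Lib_MP_49ddc8/Gs4.lean) for `O z = (nm z ≤ 1)` and the base field `adjoin κ L`: for a finite set `A` take `E₀` from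
`exists_stable` over `k(u)` for `A`, `i` and a basis of `κ / k(u)`; `π` from `exists_ME`.
-/

set_option autoImplicit false

open Polynomial

namespace BSC

variable {k κ Ω : Type} [Field k] [CharZero k] [Field κ] [Field Ω] [IsAlgClosed Ω] [Algebra k Ω] [Algebra (RatFunc k) Ω]
  [IsScalarTower k (RatFunc k) Ω] [Algebra κ Ω] [Algebra (RatFunc k) κ] [IsScalarTower (RatFunc k) κ Ω]
  {p : ℕ} [Fact p.Prime] {σ : k →+* ℚ_[p]} {L : IntermediateField (RatFunc k) Ω} {nm : Ω → ℝ}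

/-- `τ` fixes `adjoin κ L` if it fixes `L` -/
theorem lw_fix [CharZero κ] (S : Sec κ Ω) (L : Set Ω) (hL : ∀ x ∈ L, IsAlgebraic κ x)
    (τ : algebraicClosure κ Ω ≃ₐ[κ] algebraicClosure κ Ω)
    (hτ : ∀ x : algebraicClosure κ Ω, (x : Ω) ∈ L → τ x = x) (x : algebraicClosure κ Ω)
    (hx : (x : Ω) ∈ IntermediateField.adjoin κ L) : τ x = x := by
  have h1 : IntermediateField.adjoin κ L ≤ (S.F L).toIntermediateField fun z => algebraMap_mem_F S L z := by
    rw [IntermediateField.adjoin_le_iff]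
    intro z hz
    exact mem_F_of_mem S L z hz (hL z hz)
  have h2 : (x : Ω) ∈ S.F L := h1 hx
  have h3 : S.s τ (x : Ω) = x := h2 τ hτ
  rw [S.res] at h3
  exact Subtype.ext h3

private theorem lw_good [FiniteDimensional (RatFunc k) κ] [CharZero κ] (hp2 : p ≠ 2) (hG : GN p σ L nm) (S : Sec κ Ω)
    (A : Finset (algebraicClosure κ Ω)) :
    ∃ E : IntermediateField κ Ω, (∀ z ∈ A, (z : Ω) ∈ E) ∧
      ∃ (ord : Ω → ℤ) (π : Ω), GoodE S (IntermediateField.adjoin κ (L : Set Ω)) (fun z => nm z ≤ 1) E ord π ∧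
        ∀ z ∈ E, z ≠ 0 → (nm z ≤ 1 ↔ 0 ≤ ord z) := by
  classical
  haveI : CharZero (RatFunc k) := charZero_of_injective_algebraMap (algebraMap k (RatFunc k)).injective
  haveI : Algebra.IsAlgebraic (RatFunc k) κ := Algebra.IsAlgebraic.of_finite (RatFunc k) κ
  obtain ⟨i, hi⟩ : ∃ i : Ω, i ^ 2 = -1 := by
    obtain ⟨i, hi⟩ := IsAlgClosed.exists_pow_nat_eq (-1 : Ω) (n := 2) (by norm_num)
    exact ⟨i, hi⟩
  have hia : IsAlgebraic (RatFunc k) i := by
    refine IsAlgebraic.of_pow (n := 2) (by norm_num) ?_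
    rw [hi]
    exact isAlgebraic_one.neg
  let b := Module.finBasis (RatFunc k) κ
  let C : Finset Ω := Finset.univ.image fun j => algebraMap κ Ω (b j)
  obtain ⟨E₀, hLE, hAE, hEalg, hfin, hstab⟩ := exists_stable L hG.alg
    (insert i (C ∪ A.image (fun z : algebraicClosure κ Ω => (z : Ω)))) (by
      intro a ha
      rw [Finset.mem_insert, Finset.mem_union, Finset.mem_image, Finset.mem_image] at ha
      rcases ha with rfl | ⟨j, -, rfl⟩ | ⟨z, -, rfl⟩
      · exact hia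
      · exact (isAlgebraic_algebraMap (b j)).restrictScalars (RatFunc k)
      · exact (mem_algebraicClosure_iff.1 z.2).restrictScalars (RatFunc k))
  obtain ⟨π, M⟩ := exists_ME hp2 hG E₀ hLE hEalg hfin
    ⟨i, hAE i (Finset.mem_insert_self _ _), hi⟩
  have hκ : ∀ r : κ, algebraMap κ Ω r ∈ E₀.toSubfield := by
    intro r
    have h1 : r = ∑ j, b.repr r j • b j := (b.sum_repr r).symm
    rw [h1, map_sum]
    refine sum_mem fun j _ => ?_
    rw [Algebra.smul_def, map_mul, ← IsScalarTower.algebraMap_apply]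
    exact mul_mem (E₀.algebraMap_mem _)
      (hAE _ (Finset.mem_insert_of_mem (Finset.mem_union_left _ (Finset.mem_image_of_mem _ (Finset.mem_univ j)))))
  let E : IntermediateField κ Ω := E₀.toSubfield.toIntermediateField hκ
  have hmem : ∀ z : Ω, z ∈ E ↔ z ∈ E₀ := fun z => Iff.rfl
  have hLE' : IntermediateField.adjoin κ (L : Set Ω) ≤ E := by
    rw [IntermediateField.adjoin_le_iff]
    intro z hz
    exact hLE hz
  have hπ0 : 0 < nm π := M.pos π M.mem M.ne
  have hπ1 : nm π < 1 := M.lt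
  let ord : Ω → ℤ := fun z => if h : z ∈ E₀ ∧ z ≠ 0 then (M.disc z h.1 h.2).choose else 0
  have hord : ∀ z ∈ E, z ≠ 0 → nm z = nm π ^ ord z := by
    intro z hz hz0
    have h : z ∈ E₀ ∧ z ≠ 0 := ⟨hz, hz0⟩
    show nm z = nm π ^ (if h : z ∈ E₀ ∧ z ≠ 0 then (M.disc z h.1 h.2).choose else 0)
    rw [dif_pos h]
    exact (M.disc z h.1 h.2).choose_spec
  have hinj : ∀ m n : ℤ, nm π ^ m = nm π ^ n → m = n := fun m n h =>
    zpow_right_injective₀ hπ0 hπ1.ne h
  have hle : ∀ z ∈ E, z ≠ 0 → (nm z ≤ 1 ↔ 0 ≤ ord z) := by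
    intro z hz hz0
    rw [hord z hz hz0]
    have := zpow_le_zpow_iff_right_of_lt_one₀ (m := ord z) (n := 0) hπ0 hπ1
    rwa [zpow_zero] at this
  have hlt : ∀ z ∈ E, z ≠ 0 → (nm z < 1 ↔ 0 < ord z) := by
    intro z hz hz0
    rw [hord z hz hz0]
    have := zpow_lt_zpow_iff_right_of_lt_one₀ (m := ord z) (n := 0) hπ0 hπ1
    rwa [zpow_zero] at this
  have heq : ∀ z ∈ E, z ≠ 0 → nm z = 1 → ord z = 0 := by
    intro z hz hz0 h
    rw [hord z hz hz0] at h
    exact hinj _ 0 (by rw [h, zpow_zero])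
  have hact : ∀ τ : algebraicClosure κ Ω ≃ₐ[κ] algebraicClosure κ Ω,
      (∀ x : algebraicClosure κ Ω, (x : Ω) ∈ IntermediateField.adjoin κ (L : Set Ω) → τ x = x) →
        ∀ z ∈ E, S.s τ z ∈ E ∧ nm (S.s τ z) = nm z := by
    intro τ hτ z hz
    obtain ⟨τ', hτ'⟩ := gal_down (κ₀ := RatFunc k) τ
    have hfix : ∀ x : algebraicClosure (RatFunc k) Ω, (x : Ω) ∈ L → τ' x = x := by
      intro x hx
      have hx1 : (x : Ω) ∈ algebraicClosure κ Ω :=
        mem_algebraicClosure_iff.2 ((mem_algebraicClosure_iff.1 x.2).tower_top κ)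
      apply Subtype.ext
      rw [hτ' x ⟨x, hx1⟩ rfl, hτ ⟨x, hx1⟩ (IntermediateField.subset_adjoin κ _ hx)]
    have hz0 : z ∈ algebraicClosure (RatFunc k) Ω := mem_algebraicClosure_iff.2 (hEalg z hz)
    have hz1 : z ∈ algebraicClosure κ Ω := mem_algebraicClosure_iff.2 ((hEalg z hz).tower_top κ)
    have h1 : S.s τ z = ((τ ⟨z, hz1⟩ : algebraicClosure κ Ω) : Ω) := S.res τ ⟨z, hz1⟩
    rw [h1, ← hτ' ⟨z, hz0⟩ ⟨z, hz1⟩ rfl]
    exact ⟨hstab τ' hfix ⟨z, hz0⟩ hz, hG.inv τ' hfix ⟨z, hz0⟩⟩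
  refine ⟨E, fun z hz => hAE z (Finset.mem_insert_of_mem (Finset.mem_union_right _ (Finset.mem_image_of_mem _ hz))), ord, π,
    { alg := fun z hz => (hEalg z hz).tower_top κ
      le := hLE'
      stab := fun τ hτ z hz => (hact τ hτ z hz).1
      mul := ?_
      unif := ⟨M.mem, M.ne, ?_⟩
      sq := ?_
      i := M.neg
      A1 := ?_
      A2 := ?_
      inv := ?_
      O_iff := ?_ }, hle⟩
  · intro x hx y hy hx0 hy0
    apply hinj
    rw [← hord _ (mul_mem hx hy) (mul_ne_zero hx0 hy0), M.mul x hx y hy, hord x hx hx0, hord y hy hy0,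
      zpow_add₀ hπ0.ne']
  · exact hinj _ 1 (by rw [← hord π M.mem M.ne, zpow_one])
  · intro z hz hz0 h
    exact M.sq z hz ((hlt z hz hz0).2 h)
  · intro V h1 h2 z hz0 hz
    refine M.val1 V ?_ h2 z ((hle z z.2 (fun h => hz0 (Subtype.ext h))).2 hz)
    intro w hw
    by_cases hw0 : w = 0
    · rw [hw0, map_zero]
      exact zero_lt_iff.2 one_ne_zero
    · exact h1 w hw0 ((hlt w w.2 (fun h => hw0 (Subtype.ext h))).1 hw)
  · obtain ⟨a, ha, ha0, ha1, n1, n2, s1, s2, s3⟩ := M.wit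
    exact ⟨a, ha, ha0, ha1, heq a ha ha0 n1, heq _ (add_mem (one_mem E) ha) ha1 n2, s1, s2, s3⟩
  · intro τ hτ z hz hz0
    obtain ⟨h1, h2⟩ := hact τ hτ z hz
    have h3 : S.s τ z ≠ 0 := (map_ne_zero_iff _ (S.s τ).injective).2 hz0
    apply hinj
    rw [← hord _ h1 h3, h2, ← hord z hz hz0]
  · intro z hz hz0
    exact hle z (hLE' hz) hz0

/-- the valuation ring `W` above the Gauss norm, stable under the section over `L` -/
theorem exists_W_gen [FiniteDimensional (RatFunc k) κ] (hp2 : p ≠ 2) (hG : GN p σ L nm) (S : Sec κ Ω) :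
    ∃ W : ValuationSubring Ω, (∀ z : Ω, IsAlgebraic κ z → (z ∈ W ↔ nm z ≤ 1)) ∧
      ∀ τ : algebraicClosure κ Ω ≃ₐ[κ] algebraicClosure κ Ω, Fix (L : Set Ω) τ → ∀ z : Ω, S.s τ z ∈ W ↔ z ∈ W := by
  haveI : CharZero (RatFunc k) := charZero_of_injective_algebraMap (algebraMap k (RatFunc k)).injective
  haveI : CharZero κ := charZero_of_injective_algebraMap (algebraMap (RatFunc k) κ).injective
  obtain ⟨W, h1, h2⟩ := exists_W_all S (IntermediateField.adjoin κ (L : Set Ω)) (fun z => nm z ≤ 1) (lw_good hp2 hG S)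
  refine ⟨W, fun z hz => ?_, fun τ hτ z => h2 τ (lw_fix S (L : Set Ω) (fun x hx => (hG.alg x hx).tower_top κ) τ hτ) z⟩
  by_cases hz0 : z = 0
  · rw [hz0, hG.zero]
    exact ⟨fun _ => zero_le_one, fun _ => W.zero_mem⟩
  · exact h1 z hz hz0

end BSC
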