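import Mathlib

/-!
# The ultralimit of valuation rings of a field
-/

set_option autoImplicit false

namespace BSCG

/-- the ultralimit `{z | z ∈ W t for almost all t}` -/
def lim {Ω T : Type} [Field Ω] (U : Ultrafilter T) (W : T → ValuationSubring Ω) : ValuationSubring Ω where
  carrier := {z | ∀ᶠ t in (U : Filter T), z ∈ W t}
  mul_mem' := by
    intro a b ha hb
    filter_upwards [ha, hb] with t h1 h2 using mul_mem h1 h2
  one_mem' := Filter.Eventually.of_forall fun t => one_mem _
  add_mem' := by
    intro a b ha hb
    filter_upwards [ha, hb] with t h1 h2 using add_mem h1 h2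
  zero_mem' := Filter.Eventually.of_forall fun t => zero_mem _
  neg_mem' := by
    intro a ha
    filter_upwards [ha] with t h1 using neg_mem h1
  mem_or_inv_mem' := by
    intro x
    rcases U.em (fun t => x ∈ W t) with h | h
    · exact Or.inl h
    · right
      show ∀ᶠ t in (U : Filter T), x⁻¹ ∈ W t
      filter_upwards [h] with t ht using ((W t).mem_or_inv_mem x).resolve_left ht

variable {Ω T : Type} [Field Ω] (U : Ultrafilter T) (W : T → ValuationSubring Ω)

theorem mem_lim (z : Ω) : z ∈ lim U W ↔ ∀ᶠ t in (U : Filter T), z ∈ W t := Iff.rfl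

theorem val_lt_iff (V : ValuationSubring Ω) (z : Ω) (hz : z ≠ 0) : V.valuation z < 1 ↔ z⁻¹ ∉ V := by
  rw [← V.valuation_le_one_iff, map_inv₀, not_le, one_lt_inv₀]
  exact zero_lt_iff.2 ((V.valuation.ne_zero_iff).2 hz)

theorem lim_lt (z : Ω) : (lim U W).valuation z < 1 ↔ ∀ᶠ t in (U : Filter T), (W t).valuation z < 1 := by
  by_cases hz : z = 0
  · subst hz
    simp only [map_zero, zero_lt_one, Filter.eventually_true]
  · rw [val_lt_iff _ z hz, mem_lim, ← Ultrafilter.eventually_not]
    exact Filter.eventually_congr (Filter.Eventually.of_forall fun t => (val_lt_iff (W t) z hz).symm)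

/-- the limit contains the elements which are units almost everywhere -/
theorem mem_lim_of_unit (z : Ω) (h : z ≠ 0 → ∀ᶠ t in (U : Filter T), (W t).valuation z = 1) : z ∈ lim U W := by
  by_cases hz : z = 0
  · subst hz
    exact zero_mem _
  · filter_upwards [h hz] with t ht using ((W t).valuation_le_one_iff z).1 ht.le

/-- stability of the limit from stability almost everywhere -/
theorem lim_stab (s : Ω → Ω) (z : Ω) (h : ∀ᶠ t in (U : Filter T), (s z ∈ W t ↔ z ∈ W t)) : s z ∈ lim U W ↔ z ∈ lim U W :=
  Filter.eventually_congr h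

end BSCG
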