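import Pool.Agent.Lib_MP_49ddc8_l.LDefs
import Pool.Agent.Lib_MP_49ddc8_g.Ev

/-!
# [Pk] From the family of places (`GFam`) to the interface of the global part (`Pack`)

The residue field of `L(θ)` is `𝔽_p(u, θ)`: `θ` has conjugates `θ_1, .., θ_m` over `L`, whose differences are units for almost all members.  For
`y = g(θ)`, `g ∈ L[X]` of degree `< m`, `nm y ≤ 1`: `nm g(θ_j) = nm y ≤ 1`, so by Lagrange interpolation the coefficients of `g` have norm `≤ 1`.
-/

set_option autoImplicit false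

open Polynomial Polynomial.Bivariate

namespace BSC

/-- Lagrange interpolation with integral nodes whose differences are units -/
theorem pk_lagrange {Ω : Type} [Field Ω] [DecidableEq Ω] (W : ValuationSubring Ω) (R : Finset Ω) (hR : ∀ a ∈ R, a ∈ W)
    (hd : ∀ a ∈ R, ∀ b ∈ R, a ≠ b → (a - b)⁻¹ ∈ W) (g : Polynomial Ω) (hdeg : g.degree < R.card)
    (hg : ∀ a ∈ R, g.eval a ∈ W) (i : ℕ) : g.coeff i ∈ W := by
  have h1 := Lagrange.eq_interpolate (s := R) (v := id) Function.injective_id.injOn hdeg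
  have hC : ∀ c : Ω, c ∈ W → C c ∈ Polynomial.lifts W.subtype := fun c hc =>
    Polynomial.C'_mem_lifts ⟨⟨c, hc⟩, rfl⟩
  have hX : (X : Polynomial Ω) ∈ Polynomial.lifts W.subtype := Polynomial.X_mem_lifts W.subtype
  have h2 : g ∈ Polynomial.lifts W.subtype := by
    rw [h1, Lagrange.interpolate_apply]
    refine sum_mem fun a ha => mul_mem (hC _ (hg a ha)) ?_
    unfold Lagrange.basis
    refine prod_mem fun b hb => ?_
    have hb' := Finset.mem_erase.1 hb
    unfold Lagrange.basisDivisor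
    refine mul_mem (hC _ (hd a ha b hb'.2 (fun h => hb'.1 h.symm))) ?_
    rw [sub_eq_add_neg, ← C_neg]
    exact add_mem hX (hC _ (neg_mem (hR b hb'.2)))
  rw [Polynomial.lifts_iff_coeff_lifts] at h2
  obtain ⟨w, hw⟩ := h2 i
  rw [← hw]
  exact w.2

section

variable {k Ω : Type} [Field k] [CharZero k] [Field Ω] [IsAlgClosed Ω] [Algebra k Ω] [Algebra (RatFunc k) Ω]
  [IsScalarTower k (RatFunc k) Ω] {p : ℕ} [Fact p.Prime] {σ : k →+* ℚ_[p]} {L : IntermediateField (RatFunc k) Ω} {nm : Ω → ℝ}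

theorem pk_one (hG : GN p σ L nm) : nm 1 = 1 := by
  have h := hG.mul 1 1 isAlgebraic_one isAlgebraic_one
  rw [mul_one] at h
  have h2 := hG.pos 1 isAlgebraic_one one_ne_zero
  exact (mul_left_cancel₀ h2.ne' (by rw [mul_one]; exact h)).symm

theorem pk_inv (hG : GN p σ L nm) (x : Ω) (hx : IsAlgebraic (RatFunc k) x) (hx0 : x ≠ 0) : nm x⁻¹ = (nm x)⁻¹ := by
  have h := hG.mul x x⁻¹ hx hx.inv
  rw [mul_inv_cancel₀ hx0, pk_one hG] at h
  exact eq_inv_of_mul_eq_one_right h.symm

/-- `W` and `nm` on the algebraic elements -/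
theorem pk_lt (hG : GN p σ L nm) (W : ValuationSubring Ω) (hW : ∀ x, IsAlgebraic (RatFunc k) x → (x ∈ W ↔ nm x ≤ 1)) (x : Ω)
    (hx : IsAlgebraic (RatFunc k) x) (h : nm x < 1) : W.valuation x < 1 := by
  by_contra hcon
  rw [not_lt] at hcon
  have hx0 : x ≠ 0 := by
    rintro rfl
    rw [map_zero] at hcon
    exact absurd hcon (not_le.2 (zero_lt_iff.2 one_ne_zero))
  have h1 : x⁻¹ ∈ W := by
    rw [← ValuationSubring.valuation_le_one_iff, map_inv₀]
    exact inv_le_one_of_one_le₀ hcon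
  rw [hW _ hx.inv, pk_inv hG x hx hx0] at h1
  have h2 := hG.pos x hx hx0
  exact absurd h1 (not_le.2 ((one_lt_inv₀ h2).2 h))

theorem pk_eq (hG : GN p σ L nm) (W : ValuationSubring Ω) (hW : ∀ x, IsAlgebraic (RatFunc k) x → (x ∈ W ↔ nm x ≤ 1)) (x : Ω)
    (hx : IsAlgebraic (RatFunc k) x) (h : nm x = 1) : W.valuation x = 1 := by
  have hx0 : x ≠ 0 := by
    rintro rfl
    rw [hG.zero] at h
    exact zero_ne_one h
  have h1 : x ∈ W := (hW x hx).2 h.le
  have h2 : x⁻¹ ∈ W := (hW _ hx.inv).2 (by rw [pk_inv hG x hx hx0, h, inv_one])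
  rw [← ValuationSubring.valuation_le_one_iff] at h1 h2
  rw [map_inv₀] at h2
  refine le_antisymm h1 ?_
  have h3 : W.valuation x ≠ 0 := (Valuation.ne_zero_iff _).2 hx0
  by_contra hcon
  rw [not_le] at hcon
  exact absurd h2 (not_le.2 ((one_lt_inv₀ (zero_lt_iff.2 h3)).2 hcon))

/-- the Gauss norm of an integral polynomial which is not zero mod `p` -/
theorem pk_utr (hG : GN p σ L nm) (b : Polynomial ℤ) (hb : NZ p b) : nm (aeval (tt k Ω) b) = 1 := by
  have h1 : aeval (tt k Ω) b = aeval (tt k Ω) (b.map (algebraMap ℤ k)) := by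
    rw [aeval_map_algebraMap]
  have hint : ∀ n : ℤ, ‖σ (algebraMap ℤ k n)‖ = ‖((n : ℤ) : ℚ_[p])‖ := by
    intro n
    rw [eq_intCast, map_intCast]
  rw [h1]
  refine le_antisymm (hG.poly_le _ 1 zero_le_one fun i => ?_) ?_
  · rw [coeff_map, hint]
    exact Padic.norm_int_le_one _
  · obtain ⟨i, hi⟩ : ∃ i, (b.map (Int.castRingHom (ZMod p))).coeff i ≠ 0 := by
      by_contra hcon
      push Not at hcon
      exact hb (Polynomial.ext fun i => by rw [hcon i, coeff_zero])
    rw [coeff_map, eq_intCast, Ne, ZMod.intCast_zmod_eq_zero_iff_dvd] at hi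
    refine le_trans ?_ (hG.poly_ge _ i)
    rw [coeff_map, hint]
    by_contra hcon
    rw [not_le, Padic.norm_intCast_lt_one_iff] at hcon
    exact hi hcon

omit [CharZero k] [IsAlgClosed Ω] [Algebra k Ω] [IsScalarTower k (RatFunc k) Ω] in
theorem pk_alg (f : Polynomial ℤ) : IsAlgebraic (RatFunc k) (aeval (tt k Ω) f) := by
  have : aeval (tt k Ω) f = algebraMap (RatFunc k) Ω (f.eval₂ (Int.castRingHom (RatFunc k)) RatFunc.X) := by
    rw [tt, hom_eval₂, aeval_def]
    congr 1
    exact RingHom.ext_int _ _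
  rw [this]
  exact isAlgebraic_algebraMap _

/-- the norm of the conjugates over `L` -/
theorem pk_conj (hG : GN p σ L nm) (θ : Ω) (hθ : IsAlgebraic (RatFunc k) θ) (g : Polynomial L) (a : Ω)
    (ha : aeval a (minpoly L θ) = 0) : aeval a (minpoly (RatFunc k) θ) = 0 ∧ IsAlgebraic (RatFunc k) (aeval a g) ∧
      nm (aeval a g) = nm (aeval θ g) := by
  have hθL : IsIntegral L θ := (hθ.tower_top L).isIntegral
  have h0 : aeval a (minpoly (RatFunc k) θ) = 0 := by
    have hdvd := minpoly.dvd_map_of_isScalarTower (RatFunc k) L θ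
    obtain ⟨r, hr⟩ := hdvd
    have h1 : aeval a ((minpoly (RatFunc k) θ).map (algebraMap (RatFunc k) L)) = 0 := by
      rw [hr, map_mul, ha, zero_mul]
    rwa [aeval_map_algebraMap] at h1
  have haalg : IsAlgebraic (RatFunc k) a := ⟨_, minpoly.ne_zero hθ.isIntegral, h0⟩
  have hLA : L ≤ algebraicClosure (RatFunc k) Ω := fun z hz => mem_algebraicClosure_iff.2 (hG.alg z hz)
  let _ : Algebra L (algebraicClosure (RatFunc k) Ω) := (IntermediateField.inclusion hLA).toRingHom.toAlgebra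
  have : IsScalarTower (RatFunc k) L (algebraicClosure (RatFunc k) Ω) :=
    IsScalarTower.of_algebraMap_eq (fun z => ((IntermediateField.inclusion hLA).commutes z).symm)
  have : IsScalarTower L (algebraicClosure (RatFunc k) Ω) Ω := IsScalarTower.of_algebraMap_eq (fun z => rfl)
  have : CharZero (RatFunc k) := charZero_of_injective_algebraMap (algebraMap k (RatFunc k)).injective
  have hN0 : Normal (RatFunc k) (algebraicClosure (RatFunc k) Ω) := inferInstance
  have hN : Normal L (algebraicClosure (RatFunc k) Ω) := Normal.tower_top_of_normal (RatFunc k) L _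
  obtain ⟨X', hX⟩ : ∃ X' : algebraicClosure (RatFunc k) Ω, (X' : Ω) = θ := ⟨⟨θ, mem_algebraicClosure_iff.2 hθ⟩, rfl⟩
  obtain ⟨A, hA⟩ : ∃ A : algebraicClosure (RatFunc k) Ω, (A : Ω) = a := ⟨⟨a, mem_algebraicClosure_iff.2 haalg⟩, rfl⟩
  have hint : IsIntegral L X' := Normal.isIntegral hN X'
  have e1 : minpoly L X' = minpoly L θ := by
    have := minpoly.algebraMap_eq (A := L) (algebraMap (algebraicClosure (RatFunc k) Ω) Ω).injective X'
    rw [← this, ← hX]
    rfl
  have hconj : IsConjRoot L X' A := by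
    rw [isConjRoot_iff_aeval_eq_zero hint, e1]
    have h2 : algebraMap (algebraicClosure (RatFunc k) Ω) Ω (aeval A (minpoly L θ)) = 0 := by
      rw [← aeval_algebraMap_apply]
      have : algebraMap (algebraicClosure (RatFunc k) Ω) Ω A = a := hA
      rw [this, ha]
    exact (map_eq_zero_iff _ (algebraMap (algebraicClosure (RatFunc k) Ω) Ω).injective).1 h2
  obtain ⟨s, hs⟩ := (isConjRoot_iff_exists_algEquiv).1 hconj.symm
  have h3 : ∀ z : algebraicClosure (RatFunc k) Ω, aeval (z : Ω) g = ((aeval z g : algebraicClosure (RatFunc k) Ω) : Ω) := by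
    intro z
    have := aeval_algebraMap_apply Ω z g
    exact this
  refine ⟨h0, ?_, ?_⟩
  · rw [← hA, h3]
    exact mem_algebraicClosure_iff.1 (aeval A g).2
  · have h4 := hG.inv (s.restrictScalars (RatFunc k)) (fun z hz => by
      have : z = algebraMap L (algebraicClosure (RatFunc k) Ω) ⟨(z : Ω), hz⟩ := rfl
      rw [this]
      exact s.commutes _) (aeval X' g)
    rw [← hA, ← hX, h3, h3, ← h4]
    have h5 : (s.restrictScalars (RatFunc k)) (aeval X' g) = aeval A g := by
      show s (aeval X' g) = aeval A g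
      rw [← hs, ← aeval_algHom_apply]
    rw [h5]

/-- the residue class of an element of `L(θ)` is in `𝔽_p(u, θ)` -/
theorem pk_res (hG : GN p σ L nm) (W : ValuationSubring Ω) (hW : ∀ x, IsAlgebraic (RatFunc k) x → (x ∈ W ↔ nm x ≤ 1)) (θ : Ω)
    (hθ : IsAlgebraic (RatFunc k) θ)
    (hdiff : ∀ a b : Ω, aeval a (minpoly (RatFunc k) θ) = 0 → aeval b (minpoly (RatFunc k) θ) = 0 → a ≠ b → nm (a - b) = 1)
    (hroot : ∀ a : Ω, aeval a (minpoly (RatFunc k) θ) = 0 → nm a ≤ 1)
    (y : Ω) (hy : y ∈ IntermediateField.adjoin L {θ}) (hyW : y ∈ W) :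
    ∃ (a : ℤ[X][Y]) (b : Polynomial ℤ), NZ p b ∧ W.valuation (y - BSCG.ev (tt k Ω) θ a / aeval (tt k Ω) b) < 1 := by
  classical
  have hcz : CharZero (RatFunc k) := charZero_of_injective_algebraMap (algebraMap k (RatFunc k)).injective
  have hczL : CharZero L := charZero_of_injective_algebraMap (algebraMap (RatFunc k) L).injective
  have hθL : IsIntegral L θ := (hθ.tower_top L).isIntegral
  -- `y = g(θ)`
  have hy1 : y ∈ Algebra.adjoin L {θ} := by
    rw [← IntermediateField.adjoin_simple_toSubalgebra_of_isAlgebraic hθL.isAlgebraic]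
    exact hy
  rw [Algebra.adjoin_singleton_eq_range_aeval] at hy1
  obtain ⟨f, hf⟩ := hy1
  obtain ⟨q, hq⟩ : ∃ q, q = minpoly L θ := ⟨_, rfl⟩
  have hqm : q.Monic := hq ▸ minpoly.monic hθL
  have hqθ : aeval θ q = 0 := hq ▸ minpoly.aeval L θ
  obtain ⟨g, hg⟩ : ∃ g, g = f %ₘ q := ⟨_, rfl⟩
  have hgθ : aeval θ g = y := by
    rw [hg, aeval_modByMonic_eq_self_of_root hqθ]
    exact hf
  have hgd : g.degree < q.degree := hg ▸ degree_modByMonic_lt f hqm
  have hyalg : IsAlgebraic (RatFunc k) y := by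
    rw [← hgθ]
    exact (pk_conj hG θ hθ g θ (hq ▸ hqθ)).2.1
  have hynm : nm y ≤ 1 := (hW y hyalg).1 hyW
  -- the conjugates
  obtain ⟨R, hR⟩ : ∃ R : Finset Ω, R = (q.map (algebraMap L Ω)).roots.toFinset := ⟨_, rfl⟩
  have hmem : ∀ a ∈ R, aeval a (minpoly L θ) = 0 := by
    intro a ha
    rw [hR, Multiset.mem_toFinset, mem_roots (hqm.map _).ne_zero, IsRoot.def, eval_map_algebraMap, hq] at ha
    exact ha
  have hcard : R.card = q.natDegree := by
    have h1 : q.Separable := hq ▸ (minpoly.irreducible hθL).separable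
    have h2 := (IsAlgClosed.splits (q.map (algebraMap L Ω))).natDegree_eq_card_roots
    rw [natDegree_map] at h2
    rw [hR, Multiset.toFinset_card_of_nodup (nodup_roots h1.map), h2]
  have hgd' : (g.map (algebraMap L Ω)).degree < R.card := by
    rw [degree_map, hcard, ← degree_eq_natDegree hqm.ne_zero]
    exact hgd
  have hRW : ∀ a ∈ R, a ∈ W := fun a ha => by
    obtain ⟨h1, -, -⟩ := pk_conj hG θ hθ g a (hmem a ha)
    exact (hW a ⟨_, minpoly.ne_zero hθ.isIntegral, h1⟩).2 (hroot a h1)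
  have hRalg : ∀ a ∈ R, IsAlgebraic (RatFunc k) a := fun a ha =>
    ⟨_, minpoly.ne_zero hθ.isIntegral, (pk_conj hG θ hθ g a (hmem a ha)).1⟩
  have hcW : ∀ i, (g.map (algebraMap L Ω)).coeff i ∈ W := by
    refine pk_lagrange W R hRW ?_ _ hgd' ?_
    · intro a ha b hb hab
      have h1 := hdiff a b (pk_conj hG θ hθ g a (hmem a ha)).1 (pk_conj hG θ hθ g b (hmem b hb)).1 hab
      have h2 : IsAlgebraic (RatFunc k) (a - b) := (hRalg a ha).sub (hRalg b hb)
      rw [hW _ h2.inv, pk_inv hG _ h2 (sub_ne_zero.2 hab), h1, inv_one]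
    · intro a ha
      obtain ⟨-, h2, h3⟩ := pk_conj hG θ hθ g a (hmem a ha)
      rw [eval_map_algebraMap, hW _ h2, h3, hgθ]
      exact hynm
  -- reduction of the coefficients
  have hex : ∀ i, ∃ a b : Polynomial ℤ, NZ p b ∧ nm ((g.coeff i : Ω) - aeval (tt k Ω) a / aeval (tt k Ω) b) < 1 := by
    intro i
    have h1 := hcW i
    rw [coeff_map] at h1
    have h2 : ((g.coeff i : L) : Ω) ∈ L := (g.coeff i).2
    exact hG.res _ h2 ((hW _ (hG.alg _ h2)).1 h1)
  choose a b hb hab using hex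
  obtain ⟨m, hm⟩ : ∃ m, m = q.natDegree := ⟨_, rfl⟩
  have halgt : ∀ f : Polynomial ℤ, IsAlgebraic (RatFunc k) (aeval (tt k Ω) f) := pk_alg
  have hb0 : ∀ i, aeval (tt k Ω) (b i) ≠ 0 := by
    intro i h
    have := pk_utr hG (b i) (hb i)
    rw [h, hG.zero] at this
    exact zero_ne_one this
  refine ⟨∑ i ∈ Finset.range m, C (a i * ∏ j ∈ (Finset.range m).erase i, b j) * X ^ i, ∏ i ∈ Finset.range m, b i, ?_, ?_⟩
  · have hprod : ∏ i ∈ Finset.range m, (b i).map (Int.castRingHom (ZMod p)) ≠ 0 :=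
      Finset.prod_ne_zero_iff.2 fun i _ => hb i
    intro h
    exact hprod (by rw [← Polynomial.map_prod]; exact h)
  · have hev : BSCG.ev (tt k Ω) θ (∑ i ∈ Finset.range m, C (a i * ∏ j ∈ (Finset.range m).erase i, b j) * X ^ i : ℤ[X][Y]) =
        ∑ i ∈ Finset.range m, aeval (tt k Ω) (a i * ∏ j ∈ (Finset.range m).erase i, b j) * θ ^ i := by
      rw [← BSCG.evHom_apply, map_sum]
      refine Finset.sum_congr rfl fun i _ => ?_
      rw [map_mul, map_pow, BSCG.evHom_apply, BSCG.evHom_apply, BSCG.ev_C, BSCG.ev_X]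
    have hdiv : BSCG.ev (tt k Ω) θ (∑ i ∈ Finset.range m, C (a i * ∏ j ∈ (Finset.range m).erase i, b j) * X ^ i : ℤ[X][Y]) /
        aeval (tt k Ω) (∏ i ∈ Finset.range m, b i) =
        ∑ i ∈ Finset.range m, aeval (tt k Ω) (a i) / aeval (tt k Ω) (b i) * θ ^ i := by
      rw [hev, Finset.sum_div]
      refine Finset.sum_congr rfl fun i hi => ?_
      rw [← Finset.mul_prod_erase _ _ hi, map_mul, map_mul]
      have h1 := hb0 i
      have h2 : aeval (tt k Ω) (∏ j ∈ (Finset.range m).erase i, b j) ≠ 0 := by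
        rw [map_prod]
        exact Finset.prod_ne_zero_iff.2 fun j _ => hb0 j
      field_simp
    have hysum : y = ∑ i ∈ Finset.range m, (g.coeff i : Ω) * θ ^ i := by
      rw [← hgθ, aeval_eq_sum_range' (n := m)]
      · refine Finset.sum_congr rfl fun i _ => ?_
        rw [Algebra.smul_def]
        rfl
      · rw [hm, hg]
        exact natDegree_modByMonic_lt f hqm (hq ▸ minpoly.ne_one L θ)
    rw [hdiv, hysum, ← Finset.sum_sub_distrib]
    refine Valuation.map_sum_lt _ one_ne_zero fun i _ => ?_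
    rw [← sub_mul, map_mul, map_pow]
    have h1 : W.valuation ((g.coeff i : Ω) - aeval (tt k Ω) (a i) / aeval (tt k Ω) (b i)) < 1 :=
      pk_lt hG W hW _ ((hG.alg _ (g.coeff i).2).sub (by rw [div_eq_mul_inv]; exact (halgt _).mul (halgt _).inv)) (hab i)
    have h2 : W.valuation θ ≤ 1 := by
      rw [ValuationSubring.valuation_le_one_iff, hW θ hθ]
      exact hroot θ (minpoly.aeval _ θ)
    exact mul_lt_one_of_nonneg_of_lt_one_left zero_le' h1 (pow_le_one' h2 i)

end

section

variable {k κ Ω : Type} [Field k] [CharZero k] [Field κ] [CharZero κ] [Field Ω] [IsAlgClosed Ω] [Algebra k Ω] [Algebra (RatFunc k) Ω]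
  [IsScalarTower k (RatFunc k) Ω] [Algebra κ Ω] [Algebra (RatFunc k) κ] [IsScalarTower (RatFunc k) κ Ω]
  [FiniteDimensional (RatFunc k) κ]

/-- `adjoin κ (L ∪ κ) ⊆ L(θ)` if `κ ⊆ k(u)(θ)` -/
private theorem pk_adjoin (L : IntermediateField (RatFunc k) Ω) (θ : Ω)
    (hgen : ∀ c : κ, algebraMap κ Ω c ∈ IntermediateField.adjoin (RatFunc k) {θ}) (y : Ω)
    (hy : y ∈ IntermediateField.adjoin κ ((L : Set Ω) ∪ ((⊥ : IntermediateField κ Ω) : Set Ω))) :
    y ∈ IntermediateField.adjoin L {θ} := by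
  have h0 : IntermediateField.adjoin (RatFunc k) {θ} ≤ (IntermediateField.adjoin L {θ}).restrictScalars (RatFunc k) := by
    rw [IntermediateField.adjoin_le_iff]
    intro z hz
    exact IntermediateField.subset_adjoin L _ hz
  have hκ : ∀ c : κ, algebraMap κ Ω c ∈ (IntermediateField.adjoin L {θ}).toSubfield := fun c => h0 (hgen c)
  have h1 : IntermediateField.adjoin κ ((L : Set Ω) ∪ ((⊥ : IntermediateField κ Ω) : Set Ω)) ≤
      (IntermediateField.adjoin L {θ}).toSubfield.toIntermediateField hκ := by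
    rw [IntermediateField.adjoin_le_iff]
    intro z hz
    rcases hz with hz | hz
    · exact (IntermediateField.adjoin L {θ}).algebraMap_mem ⟨z, hz⟩
    · obtain ⟨c, rfl⟩ := IntermediateField.mem_bot.1 hz
      exact hκ c
  exact h1 hy

section

variable {S : Sec κ Ω} (g : GTri (k := k) S)

private theorem pk_hW (x : Ω) (hx : IsAlgebraic (RatFunc k) x) : x ∈ g.W ↔ g.nm x ≤ 1 :=
  g.gw.mem x ((alg_iff x).2 hx)

theorem pk_char : g.W.valuation ((g.p : ℕ) : Ω) < 1 := by
  haveI := g.hp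
  refine pk_lt g.gn _ (pk_hW g) _ (isAlgebraic_natCast _) ?_
  rw [g.gn.nm_p]
  exact inv_lt_one_of_one_lt₀ (by exact_mod_cast g.hp.out.one_lt)

theorem pk_int (m : ℤ) : g.W.valuation (m : Ω) < 1 ↔ (m : ZMod g.p) = 0 := by
  haveI := g.hp
  constructor
  · intro h
    by_contra hcon
    have h1 : NZ g.p (C m) := by
      intro h
      rw [map_C, eq_intCast, C_eq_zero] at h
      exact hcon h
    have h2 := pk_eq g.gn _ (pk_hW g) _ (pk_alg (k := k) (C m)) (pk_utr g.gn (C m) h1)
    rw [aeval_C, algebraMap_int_eq, eq_intCast] at h2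
    exact absurd h2 h.ne
  · intro h
    rw [ZMod.intCast_zmod_eq_zero_iff_dvd] at h
    obtain ⟨n, rfl⟩ := h
    rw [Int.cast_mul, map_mul, Int.cast_natCast]
    exact mul_lt_one_of_nonneg_of_lt_one_left zero_le' (pk_char g)
      ((ValuationSubring.valuation_le_one_iff _ _).2 (intCast_mem g.W n))

theorem pk_uniq (c : Ω) (r s : ℤ) (hr : g.W.valuation (c - r) < 1) (hs : g.W.valuation (c - s) < 1) :
    (r : ZMod g.p) = (s : ZMod g.p) := by
  have h1 : ((r - s : ℤ) : Ω) = (c - s) - (c - r) := by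
    push_cast
    ring
  have h2 : g.W.valuation ((r - s : ℤ) : Ω) < 1 := by
    rw [h1]
    exact Valuation.map_sub_lt _ hs hr
  rw [pk_int] at h2
  push_cast at h2
  exact sub_eq_zero.1 h2

open scoped Classical in
/-- the residue class of `c`, if it is in the prime field -/
noncomputable def pkRed (c : Ω) : ZMod g.p :=
  if h : c ≠ 0 ∧ ∃ r : ℤ, g.W.valuation (c - r) < 1 then (h.2.choose : ZMod g.p) else 0

theorem pkRed_zero : pkRed g 0 = 0 := by
  unfold pkRed
  rw [dif_neg]
  exact fun h => h.1 rfl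

theorem pkRed_eq (c : Ω) (r : ℤ) (hr : g.W.valuation (c - r) < 1) : pkRed g c = r := by
  unfold pkRed
  split_ifs with h
  · exact pk_uniq g c _ _ h.2.choose_spec hr
  · have h1 : c = 0 := by
      by_contra h0
      exact h ⟨h0, r, hr⟩
    rw [h1, zero_sub, Valuation.map_neg, pk_int] at hr
    exact hr.symm

end

theorem pk_const {S : Sec κ Ω} (F : GFam (k := k) S) (c : Ω) (hc : IsAlgebraic k c) :
    ∀ᶠ t in (F.U : Filter F.T), ∃ r : ℤ, (F.tri t).W.valuation (c - r) < 1 := by
  by_cases hc0 : c = 0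
  · refine Filter.Eventually.of_forall fun t => ⟨0, ?_⟩
    rw [hc0, Int.cast_zero, sub_zero, map_zero]
    exact zero_lt_iff.2 one_ne_zero
  · filter_upwards [F.const c hc hc0] with t ht
    haveI := (F.tri t).hp
    obtain ⟨h1, -, r, hr⟩ := ht
    exact ⟨r, pk_lt (F.tri t).gn _ (pk_hW (F.tri t)) _ (((F.tri t).gn.alg c h1).sub (isAlgebraic_intCast _)) hr⟩

/-- the reductions of the constants -/
noncomputable def famOf {S : Sec κ Ω} (F : GFam (k := k) S) (K : Subfield Ω) (hK : ∀ c ∈ K, IsAlgebraic k c) : Fam K where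
  T := F.T
  U := F.U
  p := fun t => (F.tri t).p
  hp := fun t => (F.tri t).hp
  red := fun t c => pkRed (F.tri t) c
  zero := fun t => pkRed_zero _
  one := Filter.Eventually.of_forall fun t => by
    have h := pkRed_eq (F.tri t) ((1 : K) : Ω) 1 (by
      rw [Int.cast_one]
      have : ((1 : K) : Ω) - 1 = 0 := sub_self _
      rw [this, map_zero]
      exact zero_lt_iff.2 one_ne_zero)
    rw [h, Int.cast_one]
  add := fun a b => by
    filter_upwards [pk_const F a (hK a a.2), pk_const F b (hK b b.2)] with t ha hb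
    obtain ⟨r, hr⟩ := ha
    obtain ⟨s, hs⟩ := hb
    have h1 : (F.tri t).W.valuation (((a + b : K) : Ω) - ((r + s : ℤ) : Ω)) < 1 := by
      have : ((a + b : K) : Ω) - ((r + s : ℤ) : Ω) = (a - r) + (b - s) := by
        push_cast
        ring
      rw [this]
      exact Valuation.map_add_lt _ hr hs
    rw [pkRed_eq _ _ _ hr, pkRed_eq _ _ _ hs, pkRed_eq _ _ _ h1, Int.cast_add]
  mul := fun a b => by
    filter_upwards [pk_const F a (hK a a.2), pk_const F b (hK b b.2)] with t ha hb
    obtain ⟨r, hr⟩ := ha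
    obtain ⟨s, hs⟩ := hb
    have hbW : (b : Ω) ∈ (F.tri t).W := by
      have h2 : (b : Ω) = (b - s) + s := by ring
      rw [h2]
      exact add_mem ((ValuationSubring.valuation_le_one_iff _ _).1 hs.le) (intCast_mem _ s)
    have h1 : (F.tri t).W.valuation (((a * b : K) : Ω) - ((r * s : ℤ) : Ω)) < 1 := by
      have : ((a * b : K) : Ω) - ((r * s : ℤ) : Ω) = (a - r) * b + r * (b - s) := by
        push_cast
        ring
      rw [this]
      refine Valuation.map_add_lt _ ?_ ?_
      · rw [map_mul]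
        exact mul_lt_one_of_nonneg_of_lt_one_left zero_le' hr ((ValuationSubring.valuation_le_one_iff _ _).2 hbW)
      · rw [map_mul]
        exact mul_lt_one_of_nonneg_of_lt_one_right ((ValuationSubring.valuation_le_one_iff _ _).2 (intCast_mem _ r)) zero_le' hs
    rw [pkRed_eq _ _ _ hr, pkRed_eq _ _ _ hs, pkRed_eq _ _ _ h1, Int.cast_mul]
  big := F.big

/-- the interface of the global part from the family of places -/
noncomputable def packOf (S : Sec κ Ω) (F : GFam (k := k) S) (K : Subfield Ω) (hK : ∀ c ∈ K, IsAlgebraic k c) (θ : Ω)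
    (hθ : IsAlgebraic κ θ) (hgen : ∀ c : κ, algebraMap κ Ω c ∈ IntermediateField.adjoin (RatFunc k) {θ}) :
    BSCG.Pack S K (tt k Ω) θ where
  fam := famOf F K hK
  W := fun t => (F.tri t).W
  char := fun t => pk_char (F.tri t)
  comp := fun c => by
    have h0 := pk_const F (c : Ω) (hK c c.2)
    filter_upwards [h0] with t ht
    obtain ⟨r, hr⟩ := ht
    haveI := (F.tri t).hp
    show (F.tri t).W.valuation ((c : Ω) - (((pkRed (F.tri t) (c : Ω)).val : ℕ) : Ω)) < 1
    rw [pkRed_eq _ _ _ hr]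
    have h1 : (c : Ω) - (((r : ZMod (F.tri t).p).val : ℕ) : Ω) = (c - r) + ((r - ((r : ZMod (F.tri t).p).val : ℤ) : ℤ) : Ω) := by
      push_cast
      ring
    rw [h1]
    refine Valuation.map_add_lt _ hr ?_
    rw [pk_int]
    push_cast
    rw [ZMod.natCast_zmod_val, sub_self]
  unit := fun z hz hz0 => by
    show ∀ᶠ t in (F.U : Filter F.T), (F.tri t).W.valuation z = 1
    filter_upwards [F.unit z hz hz0] with t ht
    haveI := (F.tri t).hp
    exact pk_eq (F.tri t).gn _ (pk_hW (F.tri t)) _ ((alg_iff z).1 hz) ht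
  utr := fun t a ha => by
    haveI := (F.tri t).hp
    exact pk_eq (F.tri t).gn _ (pk_hW (F.tri t)) _ (pk_alg a) (pk_utr (F.tri t).gn a ha)
  res := by
    classical
    have hθ' : IsAlgebraic (RatFunc k) θ := (alg_iff θ).1 hθ
    have hfin : ((minpoly (RatFunc k) θ).rootSet Ω).Finite := rootSet_finite _ _
    have hne : minpoly (RatFunc k) θ ≠ 0 := minpoly.ne_zero hθ'.isIntegral
    have hralg : ∀ a : Ω, aeval a (minpoly (RatFunc k) θ) = 0 → IsAlgebraic (RatFunc k) a := fun a ha => ⟨_, hne, ha⟩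
    have h1 : ∀ᶠ t in (F.U : Filter F.T), ∀ a ∈ (minpoly (RatFunc k) θ).rootSet Ω,
        (F.tri t).nm a ≤ 1 ∧ ∀ b ∈ (minpoly (RatFunc k) θ).rootSet Ω, a ≠ b → (F.tri t).nm (a - b) = 1 := by
      rw [Filter.eventually_all_finite hfin]
      intro a ha
      have ha' := (mem_rootSet.1 ha).2
      refine Filter.Eventually.and ?_ ?_
      · by_cases ha0 : a = 0
        · refine Filter.Eventually.of_forall fun t => ?_
          haveI := (F.tri t).hp
          rw [ha0, (F.tri t).gn.zero]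
          exact zero_le_one
        · filter_upwards [F.unit a ((alg_iff a).2 (hralg a ha')) ha0] with t ht
          exact ht.le
      · rw [Filter.eventually_all_finite hfin]
        intro b hb
        have hb' := (mem_rootSet.1 hb).2
        by_cases hab : a = b
        · exact Filter.Eventually.of_forall fun t h => absurd hab h
        · filter_upwards [F.unit (a - b) ((alg_iff _).2 ((hralg a ha').sub (hralg b hb'))) (sub_ne_zero.2 hab)] with t ht _
          exact ht
    have h2 : ∀ᶠ t in (F.U : Filter F.T), ∀ x ∈ S.F ∅, x ∈ (F.tri t).W → ∃ (a : ℤ[X][Y]) (b : Polynomial ℤ),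
        ired (F.tri t).p b ≠ 0 ∧ (F.tri t).W.valuation (x - BSCG.ev (tt k Ω) θ a / aeval (tt k Ω) b) < 1 := by
      filter_upwards [h1, F.big (Module.finrank (RatFunc k) κ)] with t ht hbig x hx hxW
      haveI := (F.tri t).hp
      have hW := pk_hW (F.tri t)
      obtain ⟨y, hy, hxy⟩ := (F.tri t).res ⊥ inferInstance (by rw [IntermediateField.finrank_bot, mul_one]; exact hbig) x
        (S.F_mono (Set.empty_subset _) hx) hxW
      have hyW : y ∈ (F.tri t).W := by
        have h2 : x - y ∈ (F.tri t).W := (ValuationSubring.valuation_le_one_iff _ _).1 hxy.le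
        have h3 := sub_mem hxW h2
        rwa [sub_sub_cancel] at h3
      obtain ⟨a, b, hb, hab⟩ := pk_res (F.tri t).gn _ hW θ hθ'
        (fun a b ha hb hab => (ht a (mem_rootSet.2 ⟨hne, ha⟩)).2 b (mem_rootSet.2 ⟨hne, hb⟩) hab)
        (fun a ha => (ht a (mem_rootSet.2 ⟨hne, ha⟩)).1) y (pk_adjoin _ θ hgen y hy) hyW
      refine ⟨a, b, hb, ?_⟩
      have h4 : x - BSCG.ev (tt k Ω) θ a / aeval (tt k Ω) b = (x - y) + (y - BSCG.ev (tt k Ω) θ a / aeval (tt k Ω) b) := by
        ring
      rw [h4]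
      exact Valuation.map_add_lt _ hxy hab
    exact h2

end

end BSC
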