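import Pool.Agent.Lib_MP_49ddc8_g.Ev

/-!
# [R1] the residue fields of `W t` as `ZMod p`-algebras
-/

set_option autoImplicit false

open Polynomial Polynomial.Bivariate

namespace BSCG

section

variable {Ω : Type} [Field Ω]

open scoped Classical in
/-- the residue class of `z` (`0` if `z ∉ W`) -/
noncomputable def rs (W : ValuationSubring Ω) (z : Ω) : IsLocalRing.ResidueField W :=
  if h : z ∈ W then IsLocalRing.residue W ⟨z, h⟩ else 0

variable (W : ValuationSubring Ω)

theorem rs_of_mem {z : Ω} (h : z ∈ W) : rs W z = IsLocalRing.residue W ⟨z, h⟩ := dif_pos h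

theorem rs_add {z w : Ω} (hz : z ∈ W) (hw : w ∈ W) : rs W (z + w) = rs W z + rs W w := by
  rw [rs_of_mem W hz, rs_of_mem W hw, rs_of_mem W (add_mem hz hw), ← map_add]
  rfl

theorem rs_sub {z w : Ω} (hz : z ∈ W) (hw : w ∈ W) : rs W (z - w) = rs W z - rs W w := by
  rw [rs_of_mem W hz, rs_of_mem W hw, rs_of_mem W (sub_mem hz hw), ← map_sub]
  rfl

theorem rs_mul {z w : Ω} (hz : z ∈ W) (hw : w ∈ W) : rs W (z * w) = rs W z * rs W w := by
  rw [rs_of_mem W hz, rs_of_mem W hw, rs_of_mem W (mul_mem hz hw), ← map_mul]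
  rfl

theorem rs_pow {z : Ω} (hz : z ∈ W) (n : ℕ) : rs W (z ^ n) = rs W z ^ n := by
  rw [rs_of_mem W hz, rs_of_mem W (pow_mem hz n), ← map_pow]
  rfl

theorem rs_natCast (n : ℕ) : rs W (n : Ω) = n := by
  rw [rs_of_mem W (natCast_mem W n)]
  have : (⟨(n : Ω), natCast_mem W n⟩ : W) = ((n : ℕ) : W) := rfl
  rw [this, map_natCast]

theorem rs_intCast (n : ℤ) : rs W (n : Ω) = n := by
  rw [rs_of_mem W (intCast_mem W n)]
  have : (⟨(n : Ω), intCast_mem W n⟩ : W) = ((n : ℤ) : W) := rfl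
  rw [this, map_intCast]

theorem rs_zero : rs W (0 : Ω) = 0 := by
  have := rs_natCast W 0
  rwa [Nat.cast_zero, Nat.cast_zero] at this

theorem rs_one : rs W (1 : Ω) = 1 := by
  have := rs_natCast W 1
  rwa [Nat.cast_one, Nat.cast_one] at this

theorem rs_eq_zero {z : Ω} (hz : z ∈ W) : rs W z = 0 ↔ W.valuation z < 1 := by
  rw [rs_of_mem W hz, IsLocalRing.residue_eq_zero_iff]
  exact (W.valuation_lt_one_iff ⟨z, hz⟩)

theorem mem_of_lt {z : Ω} (h : W.valuation z < 1) : z ∈ W := (W.valuation_le_one_iff z).1 h.le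

theorem mem_of_eq {z : Ω} (h : W.valuation z = 1) : z ∈ W := (W.valuation_le_one_iff z).1 h.le

theorem rs_ne_zero {z : Ω} (h : W.valuation z = 1) : rs W z ≠ 0 := by
  rw [Ne, rs_eq_zero W (mem_of_eq W h), h]
  exact lt_irrefl _

theorem val_eq_one {z : Ω} (hz : z ∈ W) (h : rs W z ≠ 0) : W.valuation z = 1 := by
  rw [Ne, rs_eq_zero W hz, not_lt] at h
  exact le_antisymm ((W.valuation_le_one_iff z).2 hz) h

/-- elements with difference in the maximal ideal have the same residue class -/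
theorem rs_eq_of_sub {z w : Ω} (hw : w ∈ W) (h : W.valuation (z - w) < 1) : rs W z = rs W w := by
  have hz : z ∈ W := by
    have := add_mem (mem_of_lt W h) hw
    rwa [sub_add_cancel] at this
  have h1 := (rs_eq_zero W (mem_of_lt W h)).2 h
  rw [rs_sub W hz hw, sub_eq_zero] at h1
  exact h1

theorem sub_lt_of_rs {z w : Ω} (hz : z ∈ W) (hw : w ∈ W) (h : rs W z = rs W w) : W.valuation (z - w) < 1 := by
  rw [← rs_eq_zero W (sub_mem hz hw), rs_sub W hz hw, h, sub_self]

theorem rs_inv {z : Ω} (h : W.valuation z = 1) : rs W z⁻¹ = (rs W z)⁻¹ := by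
  have hz := mem_of_eq W h
  have h0 : z ≠ 0 := by
    rintro rfl
    rw [map_zero] at h
    exact zero_ne_one h
  have hi : z⁻¹ ∈ W := mem_of_eq W (by rw [map_inv₀, h, inv_one])
  refine eq_inv_of_mul_eq_one_left ?_
  rw [← rs_mul W hi hz, inv_mul_cancel₀ h0, rs_one]

theorem rs_div {z w : Ω} (hz : z ∈ W) (h : W.valuation w = 1) : rs W (z / w) = rs W z / rs W w := by
  have hi : w⁻¹ ∈ W := mem_of_eq W (by rw [map_inv₀, h, inv_one])
  rw [div_eq_mul_inv, div_eq_mul_inv, rs_mul W hz hi, rs_inv W h]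

/-- the residue field has characteristic `p` -/
theorem charP_rs (p : ℕ) [hp : Fact p.Prime] (h : W.valuation ((p : ℕ) : Ω) < 1) : CharP (IsLocalRing.ResidueField W) p := by
  have h1 : ((p : ℕ) : IsLocalRing.ResidueField W) = 0 := by
    rw [← rs_natCast, rs_eq_zero W (natCast_mem W p)]
    exact h
  have h2 := CharP.ringChar_of_prime_eq_zero hp.out h1
  rw [← h2]
  exact ringChar.charP _

/-- the residue field at `t` -/
abbrev Rf {κ Ω : Type} [Field κ] [Field Ω] [Algebra κ Ω] {S : BSC.Sec κ Ω} {K : Subfield Ω} {u θ : Ω} (P : Pack S K u θ)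
    (t : P.fam.T) : Type := IsLocalRing.ResidueField (P.W t)

instance {κ Ω : Type} [Field κ] [Field Ω] [Algebra κ Ω] {S : BSC.Sec κ Ω} {K : Subfield Ω} {u θ : Ω} (P : Pack S K u θ)
    (t : P.fam.T) : CharP (IsLocalRing.ResidueField (P.W t)) (P.fam.p t) := charP_rs (P.W t) (P.fam.p t) (P.char t)

noncomputable instance {κ Ω : Type} [Field κ] [Field Ω] [Algebra κ Ω] {S : BSC.Sec κ Ω} {K : Subfield Ω} {u θ : Ω}
    (P : Pack S K u θ) (t : P.fam.T) : Algebra (ZMod (P.fam.p t)) (IsLocalRing.ResidueField (P.W t)) := ZMod.algebra _ _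

end

/-- bivariate reduction -/
noncomputable def pr2 {K : Type} [Field K] (F : BSC.Fam K) (t : F.T) (G : K[X][Y]) : (ZMod (F.p t))[X][Y] :=
  G.sum fun j q => monomial j (F.pr t q)

theorem pr2_coeff {K : Type} [Field K] (F : BSC.Fam K) (t : F.T) (G : K[X][Y]) (j : ℕ) :
    (pr2 F t G).coeff j = F.pr t (G.coeff j) := by
  unfold pr2
  rw [Polynomial.sum_def, finsetSum_coeff]
  simp only [coeff_monomial]
  rw [Finset.sum_ite_eq']
  split_ifs with h
  · rfl
  · rw [notMem_support_iff.mp h, F.pr_zero]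

end BSCG
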