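import Pool.Agent.Lib_MP_49ddc8_g.E0

/-!
# [St0] Algebraic elements with residue classes in `𝔽_p(u)`  (BN0)

`x` is a root of a monic `f ∈ K[u][Y]` and for almost all `t` its residue class is in `𝔽_p(u)`: then `x ∈ K[u]`.  Proof: we may assume that
`f` has no root in `K[u]` (divide by `Y - g`).  The coefficients of `f(u, ∑_{i ≤ B} X_i u ^ i)` have no common zero in `K`, so by the Nullstellensatz they
generate the unit ideal: `∑ H_j Q_j = 1`.  The residue class of `x` is a root of the reduction of `f`, so it is a polynomial in `u` of degree at most `B`; its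
coefficients are a common zero of the reductions of the `Q_j`: contradiction.
-/

set_option autoImplicit false

open Polynomial Polynomial.Bivariate

namespace BSCG

/-- a rational root of a monic polynomial over `F[u]` is a polynomial of bounded degree -/
theorem st0_root {F R : Type} [Field F] [Field R] [Algebra F R] (u y : R) (hu : Transcendental F u) (f : F[X][Y])
    (hf : f.Monic) (B : ℕ) (hB : InLE f B) (hy : ev u y f = 0) (a b : F[X]) (hb : b ≠ 0) (hab : y = aeval u a / aeval u b) :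
    ∃ g : F[X], y = aeval u g ∧ g.natDegree ≤ B ∧ f.eval g = 0 := by
  have hinj : Function.Injective (aeval (R := F) u : F[X] →ₐ[F] R).toRingHom := transcendental_iff_injective.1 hu
  let φ : FractionRing F[X] →+* R := IsFractionRing.lift hinj
  have hφ : ∀ q : F[X], φ (algebraMap F[X] (FractionRing F[X]) q) = aeval u q := fun q =>
    IsFractionRing.lift_algebraMap hinj q
  obtain ⟨z, hz⟩ : ∃ z : FractionRing F[X], z = algebraMap F[X] (FractionRing F[X]) a / algebraMap F[X] (FractionRing F[X]) b :=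
    ⟨_, rfl⟩
  have hzy : φ z = y := by
    rw [hz, map_div₀, hφ, hφ, hab]
  have h1 : aeval z f = 0 := by
    apply φ.injective
    rw [map_zero, aeval_def, hom_eval₂, hzy, ← hy]
    unfold ev
    congr 1
    ext q
    · exact hφ _
    · exact hφ _
  obtain ⟨g, hg⟩ := isInteger_of_is_root_of_monic hf h1
  have hyg : y = aeval u g := by
    rw [← hzy, ← hg, hφ]
  have hfg : f.eval g = 0 := by
    apply hinj
    rw [map_zero]
    rw [← hy]
    unfold ev
    rw [hyg]
    exact (eval₂_at_apply (aeval (R := F) u : F[X] →ₐ[F] R).toRingHom g).symm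
  refine ⟨g, hyg, ?_, hfg⟩
  by_contra hcon
  push Not at hcon
  obtain ⟨n, hn⟩ : ∃ n, n = f.natDegree := ⟨_, rfl⟩
  have hn0 : 0 < n := by
    rw [Nat.pos_iff_ne_zero]
    intro h0
    rw [hn] at h0
    have h2 := hf.natDegree_eq_zero.1 h0
    rw [h2, eval_one] at hfg
    exact one_ne_zero hfg
  rw [eval_eq_sum_range, Finset.sum_range_succ, ← hn] at hfg
  have hlc : f.coeff n = 1 := by
    rw [hn]
    exact hf
  rw [hlc, one_mul] at hfg
  have h2 : g ^ n = -∑ i ∈ Finset.range n, f.coeff i * g ^ i := by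
    rw [eq_neg_iff_add_eq_zero, add_comm]
    exact hfg
  have h3 : (∑ i ∈ Finset.range n, f.coeff i * g ^ i).natDegree ≤ B + (n - 1) * g.natDegree := by
    refine natDegree_sum_le_of_forall_le _ _ fun i hi => ?_
    refine natDegree_mul_le.trans ?_
    refine Nat.add_le_add (hB i) ?_
    rw [natDegree_pow]
    exact Nat.mul_le_mul_right _ (by
      have := Finset.mem_range.1 hi
      omega)
  have h4 := congrArg natDegree h2
  rw [natDegree_neg, natDegree_pow] at h4
  rw [← h4] at h3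
  obtain ⟨m, rfl⟩ : ∃ m, n = m + 1 := ⟨n - 1, by omega⟩
  rw [Nat.add_sub_cancel, Nat.succ_mul] at h3
  omega

/-- division by the linear factors: either `x` is in `K[u]` or it is a root of a monic polynomial without roots in `K[u]` -/
theorem st0_min {K R : Type} [Field K] [Field R] [Algebra K R] (u x : R) (f : K[X][Y]) (hf : f.Monic) (hfx : ev u x f = 0) :
    (∃ g : K[X], x = aeval u g) ∨ ∃ f' : K[X][Y], f'.Monic ∧ ev u x f' = 0 ∧ ∀ g : K[X], f'.eval g ≠ 0 := by
  induction hn : f.natDegree using Nat.strong_induction_on generalizing f with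
  | _ n ih =>
    by_cases hr : ∀ g : K[X], f.eval g ≠ 0
    · exact Or.inr ⟨f, hf, hfx, hr⟩
    · push Not at hr
      obtain ⟨g, hg⟩ := hr
      obtain ⟨f2, hf2⟩ := dvd_iff_isRoot.2 (show f.IsRoot g from hg)
      have hm2 : f2.Monic := by
        rw [hf2] at hf
        exact (monic_X_sub_C g).of_mul_monic_left hf
      rw [hf2, ev_mul, ev_sub, ev_X, ev_C] at hfx
      rcases mul_eq_zero.1 hfx with h | h
      · exact Or.inl ⟨g, sub_eq_zero.1 h⟩
      · refine ih f2.natDegree ?_ f2 hm2 h rfl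
        rw [← hn, hf2, (monic_X_sub_C g).natDegree_mul hm2, natDegree_X_sub_C]
        omega

/-- the generic polynomial of degree `B` -/
noncomputable def gpol (K : Type) [Field K] (B : ℕ) : (MvPolynomial (Fin (B + 1)) K)[X] :=
  ∑ i : Fin (B + 1), C (MvPolynomial.X i) * X ^ (i : ℕ)

/-- `f(u, ∑ X_i u ^ i)` -/
noncomputable def gsub {K : Type} [Field K] (f : K[X][Y]) (B : ℕ) : (MvPolynomial (Fin (B + 1)) K)[X] :=
  (f.map (mapRingHom MvPolynomial.C)).eval (gpol K B)

theorem gsub_eval {K : Type} [Field K] (f : K[X][Y]) (B : ℕ) (v : Fin (B + 1) → K) (j : ℕ) :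
    MvPolynomial.eval v ((gsub f B).coeff j) = (f.eval (∑ i : Fin (B + 1), C (v i) * X ^ (i : ℕ))).coeff j := by
  have h1 : (gsub f B).map (MvPolynomial.eval v) = f.eval (∑ i : Fin (B + 1), C (v i) * X ^ (i : ℕ)) := by
    unfold gsub
    rw [← coe_mapRingHom (MvPolynomial.eval v), ← eval₂_at_apply, eval₂_map]
    have h2 : (mapRingHom (MvPolynomial.eval v)).comp (mapRingHom (MvPolynomial.C (σ := Fin (B + 1)) (R := K))) =
        RingHom.id K[X] := by
      ext x
      · simp
      · simp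
    rw [h2, ← eval₂_id]
    congr 1
    unfold gpol
    rw [map_sum]
    refine Finset.sum_congr rfl fun i _ => ?_
    rw [map_mul, map_pow, coe_mapRingHom, map_C, map_X, MvPolynomial.eval_X]
  rw [← h1, coeff_map]

/-- the Nullstellensatz certificate -/
theorem st0_cert {K : Type} [Field K] [IsAlgClosed K] (f : K[X][Y]) (B : ℕ) (hf : ∀ g : K[X], f.eval g ≠ 0) :
    ∃ (s : Finset ℕ) (H : ℕ → MvPolynomial (Fin (B + 1)) K), ∀ v : Fin (B + 1) → K,
      ∑ j ∈ s, MvPolynomial.eval v (H j) * (f.eval (∑ i : Fin (B + 1), C (v i) * X ^ (i : ℕ))).coeff j = 1 := by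
  have h1 : Ideal.span (Set.range fun j : ℕ => (gsub f B).coeff j) = ⊤ := by
    by_contra hcon
    obtain ⟨M, hM, hle⟩ := Ideal.exists_le_maximal _ hcon
    obtain ⟨x, hx⟩ := MvPolynomial.eq_vanishingIdeal_singleton_of_isMaximal K hM
    apply hf (∑ i : Fin (B + 1), C (x i) * X ^ (i : ℕ))
    ext j
    rw [coeff_zero, ← gsub_eval]
    have h2 : (gsub f B).coeff j ∈ M := hle (Ideal.subset_span ⟨j, rfl⟩)
    rw [hx, MvPolynomial.mem_vanishingIdeal_singleton_iff] at h2
    rw [← MvPolynomial.aeval_eq_eval]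
    exact h2
  have h2 : (1 : MvPolynomial (Fin (B + 1)) K) ∈ Submodule.span (MvPolynomial (Fin (B + 1)) K)
      (Set.range fun j : ℕ => (gsub f B).coeff j) := by
    have h3 : (1 : MvPolynomial (Fin (B + 1)) K) ∈ Ideal.span (Set.range fun j : ℕ => (gsub f B).coeff j) := by
      rw [h1]
      exact Submodule.mem_top
    exact h3
  rw [Finsupp.mem_span_range_iff_exists_finsupp] at h2
  obtain ⟨c, hc⟩ := h2
  refine ⟨c.support, fun j => c j, fun v => ?_⟩
  have h3 := congrArg (MvPolynomial.eval v) hc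
  rw [map_one, Finsupp.sum, map_sum] at h3
  rw [← h3]
  refine Finset.sum_congr rfl fun j _ => ?_
  rw [smul_eq_mul, map_mul, gsub_eval]

section

variable {κ Ω : Type} [Field κ] [Field Ω] [Algebra κ Ω] {S : BSC.Sec κ Ω} {K : Subfield Ω} {u θ : Ω}

/-- the polynomial `D` over `K` reduces to `E` at `t` -/
private def Rl (P : Pack S K u θ) (t : P.fam.T) (D : K[X]) (E : (ZMod (P.fam.p t))[X]) : Prop :=
  ∀ j, ((D.coeff j : K) : Ω) ∈ P.W t ∧ rs (P.W t) ((D.coeff j : K) : Ω) = algebraMap (ZMod (P.fam.p t)) (Rf P t) (E.coeff j)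

private theorem Rl.add {P : Pack S K u θ} {t : P.fam.T} {D D' : K[X]} {E E' : (ZMod (P.fam.p t))[X]} (h : Rl P t D E)
    (h' : Rl P t D' E') : Rl P t (D + D') (E + E') := by
  intro j
  rw [coeff_add, coeff_add]
  have e : ((D.coeff j + D'.coeff j : K) : Ω) = ((D.coeff j : K) : Ω) + ((D'.coeff j : K) : Ω) := rfl
  rw [e]
  exact ⟨add_mem (h j).1 (h' j).1, by rw [rs_add _ (h j).1 (h' j).1, (h j).2, (h' j).2, map_add]⟩

private theorem Rl.mul {P : Pack S K u θ} {t : P.fam.T} {D D' : K[X]} {E E' : (ZMod (P.fam.p t))[X]} (h : Rl P t D E)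
    (h' : Rl P t D' E') : Rl P t (D * D') (E * E') := by
  intro j
  rw [coeff_mul, coeff_mul]
  have h1 : ∀ x ∈ Finset.HasAntidiagonal.antidiagonal j, ((D.coeff x.1 : K) : Ω) * ((D'.coeff x.2 : K) : Ω) ∈ P.W t :=
    fun x _ => mul_mem (h x.1).1 (h' x.2).1
  have e : ((∑ x ∈ Finset.HasAntidiagonal.antidiagonal j, D.coeff x.1 * D'.coeff x.2 : K) : Ω) =
      ∑ x ∈ Finset.HasAntidiagonal.antidiagonal j, ((D.coeff x.1 : K) : Ω) * ((D'.coeff x.2 : K) : Ω) :=
    map_sum K.subtype _ _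
  rw [e]
  refine ⟨sum_mem h1, ?_⟩
  rw [rs_sum _ _ _ h1, map_sum]
  refine Finset.sum_congr rfl fun x _ => ?_
  rw [rs_mul _ (h x.1).1 (h' x.2).1, (h x.1).2, (h' x.2).2, map_mul]

private theorem Rl.one (P : Pack S K u θ) (t : P.fam.T) : Rl P t 1 1 := by
  intro j
  rw [coeff_one, coeff_one]
  split_ifs with h
  · have e : ((1 : K) : Ω) = 1 := rfl
    rw [e, rs_one, map_one]
    exact ⟨one_mem _, rfl⟩
  · have e : ((0 : K) : Ω) = 0 := rfl
    rw [e, rs_zero, map_zero]
    exact ⟨zero_mem _, rfl⟩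

private theorem Rl.zero (P : Pack S K u θ) (t : P.fam.T) : Rl P t 0 0 := by
  intro j
  rw [coeff_zero, coeff_zero]
  have e : ((0 : K) : Ω) = 0 := rfl
  rw [e, rs_zero, map_zero]
  exact ⟨zero_mem _, rfl⟩

private theorem Rl.pow {P : Pack S K u θ} {t : P.fam.T} {D : K[X]} {E : (ZMod (P.fam.p t))[X]} (h : Rl P t D E) (n : ℕ) :
    Rl P t (D ^ n) (E ^ n) := by
  induction n with
  | zero =>
    rw [pow_zero, pow_zero]
    exact Rl.one P t
  | succ n ih =>
    rw [pow_succ, pow_succ]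
    exact ih.mul h

private theorem Rl.sum {P : Pack S K u θ} {t : P.fam.T} {ι : Type} (s : Finset ι) (D : ι → K[X]) (E : ι → (ZMod (P.fam.p t))[X])
    (h : ∀ i ∈ s, Rl P t (D i) (E i)) : Rl P t (∑ i ∈ s, D i) (∑ i ∈ s, E i) := by
  classical
  induction s using Finset.induction_on with
  | empty =>
    rw [Finset.sum_empty, Finset.sum_empty]
    exact Rl.zero P t
  | insert a s ha ih =>
    rw [Finset.sum_insert ha, Finset.sum_insert ha]
    exact (h a (Finset.mem_insert_self a s)).add (ih fun i hi => h i (Finset.mem_insert_of_mem hi))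

private theorem Rl.pr {P : Pack S K u θ} {t : P.fam.T} {D : K[X]} (h : ∀ j, P.Ok t (D.coeff j)) : Rl P t D (P.fam.pr t D) := by
  intro j
  rw [P.fam.pr_coeff]
  exact ⟨(h j).mem, (h j).rs⟩

private theorem Rl.eval {P : Pack S K u θ} {t : P.fam.T} {f : K[X][Y]} (h : ∀ j l, P.Ok t ((f.coeff j).coeff l)) {D : K[X]}
    {E : (ZMod (P.fam.p t))[X]} (hD : Rl P t D E) : Rl P t (f.eval D) ((pr2 P.fam t f).eval E) := by
  rw [eval_eq_sum_range, eval_eq_sum_range' (Nat.lt_succ_of_le (P.natDegree_pr2_le t f))]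
  refine Rl.sum _ _ _ fun i _ => ?_
  rw [pr2_coeff]
  exact (Rl.pr (h i)).mul (hD.pow i)

/-- [BN0] -/
theorem bn0 (P : Pack S K u θ) [IsAlgClosed K] (hu0 : u ≠ 0) (hu : IsAlgebraic κ u) (x : Ω) (hx : IsAlgebraic κ x)
    (f : K[X][Y]) (hf : f.Monic) (hfx : ev u x f = 0)
    (hres : ∀ᶠ t in (P.fam.U : Filter P.fam.T), x ∈ P.W t → ∃ a b : ℤ[X], BSC.ired (P.fam.p t) b ≠ 0 ∧
      (P.W t).valuation (x - aeval u a / aeval u b) < 1) : ∃ g : K[X], x = aeval u g := by
  classical
  rcases st0_min u x f hf hfx with h | ⟨f', hf', hfx', hno⟩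
  · exact h
  exfalso
  obtain ⟨B, hB⟩ : ∃ B, InLE f' B := by
    refine ⟨(Finset.range (f'.natDegree + 1)).sup fun j => (f'.coeff j).natDegree, fun j => ?_⟩
    by_cases hj : j < f'.natDegree + 1
    · exact Finset.le_sup (f := fun j => (f'.coeff j).natDegree) (Finset.mem_range.2 hj)
    · rw [coeff_eq_zero_of_natDegree_lt (p := f') (by omega), natDegree_zero]
      exact Nat.zero_le _
  obtain ⟨s, H, hH⟩ := st0_cert f' B hno
  have e1 : ∀ᶠ t in (P.fam.U : Filter P.fam.T), ∀ j ∈ s, ∀ m ∈ (H j).support, P.Ok t ((H j).coeff m) := by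
    rw [Filter.eventually_all_finset]
    intro j _
    rw [Filter.eventually_all_finset]
    intro m _
    exact P.ok _
  obtain ⟨t, ht1, ht2, ht3, ht4, ht5, ht6⟩ := (e1.and ((P.ok_poly2 f').and (hres.and ((P.mem_alg x hx).and
    ((P.unit u hu hu0).and P.fam.pr_one))))).exists
  have hut := mem_of_eq _ ht5
  obtain ⟨a, b, hb, hab⟩ := ht3 ht4
  -- the residue class of `x`
  have htr := P.tr_res t hut
  have hbv := P.utr t b hb
  have h7 : aeval u a / aeval u b ∈ P.W t := by
    have h8 : (aeval u b)⁻¹ ∈ P.W t := mem_of_eq _ (by rw [map_inv₀, hbv, inv_one])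
    rw [div_eq_mul_inv]
    exact mul_mem (P.rs_aeval_int t a hut).1 h8
  have hxr : rs (P.W t) x = aeval (rs (P.W t) u) (BSC.ired (P.fam.p t) a) / aeval (rs (P.W t) u) (BSC.ired (P.fam.p t) b) := by
    rw [rs_eq_of_sub _ h7 hab, rs_div _ (P.rs_aeval_int t a hut).1 hbv, (P.rs_aeval_int t a hut).2, (P.rs_aeval_int t b hut).2]
  have hroot : ev (rs (P.W t) u) (rs (P.W t) x) (pr2 P.fam t f') = 0 := by
    rw [← (Pack.rs_ev ht2 hut ht4).2, hfx', rs_zero]
  have hmon : (pr2 P.fam t f').Monic := by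
    have h8 : (pr2 P.fam t f').coeff f'.natDegree = 1 := by
      rw [pr2_coeff]
      have h9 : f'.coeff f'.natDegree = 1 := hf'
      rw [h9, ht6]
    exact monic_of_natDegree_le_of_coeff_eq_one _ (P.natDegree_pr2_le t f') h8
  have hBr : InLE (pr2 P.fam t f') B := by
    intro j
    rw [pr2_coeff]
    exact (P.natDegree_pr_le t _).trans (hB j)
  obtain ⟨g, hg1, hg2, hg3⟩ := st0_root _ _ htr _ hmon B hBr hroot _ _ hb hxr
  -- evaluate the certificate
  have hg4 : g = ∑ i : Fin (B + 1), C (g.coeff i) * X ^ (i : ℕ) := by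
    have h8 := as_sum_range_C_mul_X_pow' g (Nat.lt_succ_of_le hg2)
    rw [Finset.sum_range] at h8
    exact h8
  obtain ⟨v, hv⟩ : ∃ v : Fin (B + 1) → K, ∀ i, v i = (((g.coeff i).val : ℕ) : K) := ⟨_, fun i => rfl⟩
  have hvW : ∀ i, ((v i : K) : Ω) ∈ P.W t := by
    intro i
    rw [hv i]
    push_cast
    exact natCast_mem _ _
  have hD : Rl P t (∑ i : Fin (B + 1), C (v i) * X ^ (i : ℕ)) g := by
    rw [hg4]
    refine Rl.sum _ _ _ fun i _ => ?_
    intro j
    rw [coeff_C_mul, coeff_C_mul, coeff_X_pow, coeff_X_pow]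
    split_ifs with hj
    · rw [mul_one, mul_one]
      refine ⟨hvW i, ?_⟩
      have e : ((v i : K) : Ω) = (((g.coeff i).val : ℕ) : Ω) := by
        rw [hv i]
        exact map_natCast K.subtype _
      rw [e, rs_natCast]
      conv_rhs => rw [← ZMod.natCast_zmod_val (g.coeff i)]
      rw [map_natCast]
    · rw [mul_zero, mul_zero]
      have e : ((0 : K) : Ω) = 0 := rfl
      rw [e, rs_zero, map_zero]
      exact ⟨zero_mem _, rfl⟩
  have hE := Rl.eval ht2 hD
  rw [hg3] at hE
  have h8 := hH v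
  have h9 : ∀ j ∈ s, ((MvPolynomial.eval v (H j) : K) : Ω) ∈ P.W t := by
    intro j hj
    rw [MvPolynomial.eval_eq']
    push_cast
    refine sum_mem fun m hm => ?_
    refine mul_mem (ht1 j hj m hm).mem ?_
    exact prod_mem fun i _ => pow_mem (hvW i) _
  have h10 : (∑ j ∈ s, ((MvPolynomial.eval v (H j) : K) : Ω) *
      (((f'.eval (∑ i : Fin (B + 1), C (v i) * X ^ (i : ℕ))).coeff j : K) : Ω)) = 1 := by
    have e := congrArg K.subtype h8
    rw [map_sum, map_one] at e
    rw [← e]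
    rfl
  have h11 : rs (P.W t) (∑ j ∈ s, ((MvPolynomial.eval v (H j) : K) : Ω) *
      (((f'.eval (∑ i : Fin (B + 1), C (v i) * X ^ (i : ℕ))).coeff j : K) : Ω)) = 0 := by
    rw [rs_sum _ _ _ fun j hj => mul_mem (h9 j hj) (hE j).1]
    refine Finset.sum_eq_zero fun j hj => ?_
    rw [rs_mul _ (h9 j hj) (hE j).1, (hE j).2, coeff_zero, map_zero, mul_zero]
  rw [h10, rs_one] at h11
  exact one_ne_zero h11

end

end BSCG
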