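import Pool.Agent.Lib_MP_49ddc8_g.Pk
import Pool.Agent.Lib_MP_49ddc8_g.St0
import Pool.Agent.Lib_MP_49ddc8_l.St1

/-!
# [St2] The valuation rings are almost everywhere stable under the automorphisms which fix the constants  (BN0, S1)

`st_bn0`: an element which is in `L t` for almost all `t` is in `kbar(u)`: a multiple is integral over `k[u]`; apply `BSCG.bn0`.
`st_s1`: `θ` from `st_gal`.  The minimal polynomial of `θ` over `L t` is a monic divisor of the minimal polynomial over `k(u)`, so it is the same polynomial `μ` for almost all `t`; its coefficients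
are in `kbar(u)` by `st_bn0`, so they are fixed by `S.s τ`, and `S.s τ θ` is a root of `μ`.
-/

set_option autoImplicit false

open Polynomial Polynomial.Bivariate

namespace BSC

/-- the monic divisors of a polynomial are finitely many -/
theorem st2_finite {Ω : Type} [Field Ω] [IsAlgClosed Ω] (G : Polynomial Ω) (hG : G ≠ 0) :
    {D : Polynomial Ω | D.Monic ∧ D ∣ G}.Finite := by
  classical
  refine Set.Finite.subset (s := ((Multiset.powerset G.roots).map
    fun m => (m.map fun a => X - C a).prod).toFinset) (Finset.finite_toSet _) ?_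
  rintro D ⟨hD, hDG⟩
  rw [Finset.mem_coe, Multiset.mem_toFinset, Multiset.mem_map]
  exact ⟨D.roots, Multiset.mem_powerset.2 (roots.le_of_dvd hG hDG),
    ((IsAlgClosed.splits D).eq_prod_roots_of_monic hD).symm⟩

variable {k κ Ω : Type} [Field k] [CharZero k] [Field κ] [CharZero κ] [Field Ω] [IsAlgClosed Ω] [Algebra k Ω] [Algebra (RatFunc k) Ω]
  [IsScalarTower k (RatFunc k) Ω] [Algebra κ Ω] [Algebra (RatFunc k) κ] [IsScalarTower (RatFunc k) κ Ω]
  [FiniteDimensional (RatFunc k) κ]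

omit [CharZero k] [IsAlgClosed Ω] in
/-- a multiple of an algebraic element is a root of a monic polynomial -/
theorem st2_int (K : Subfield Ω) (hK : ∀ c : k, algebraMap k Ω c ∈ K) (a : Ω) (ha : IsAlgebraic (RatFunc k) a) :
    ∃ q : Polynomial k, q ≠ 0 ∧ ∃ f : K[X][Y], f.Monic ∧ BSCG.ev (tt k Ω) (aeval (tt k Ω) q * a) f = 0 := by
  letI : Algebra (Polynomial k) Ω := ((algebraMap (RatFunc k) Ω).comp (algebraMap (Polynomial k) (RatFunc k))).toAlgebra
  haveI : IsScalarTower (Polynomial k) (RatFunc k) Ω := IsScalarTower.of_algebraMap_eq fun x => rfl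
  have hmap : ∀ q : Polynomial k, algebraMap (Polynomial k) Ω q = aeval (tt k Ω) q := by
    intro q
    rw [IsScalarTower.algebraMap_apply (Polynomial k) (RatFunc k) Ω, ← RatFunc.aeval_X_left_eq_algebraMap, tt,
      aeval_algebraMap_apply]
  have h1 : IsAlgebraic (Polynomial k) a := (IsFractionRing.isAlgebraic_iff (Polynomial k) (RatFunc k) Ω).2 ha
  obtain ⟨q, hq0, f, hf, hfa⟩ := h1.exists_integral_multiple
  refine ⟨q, hq0, f.map (mapRingHom ((algebraMap k Ω).codRestrict K hK)), hf.map _, ?_⟩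
  unfold BSCG.ev
  rw [eval₂_map, ← hmap, ← Algebra.smul_def]
  have h2 : ((aeval (R := K) (tt k Ω) : Polynomial K →ₐ[K] Ω).toRingHom).comp
      (mapRingHom ((algebraMap k Ω).codRestrict K hK)) = algebraMap (Polynomial k) Ω := by
    ext x
    · rw [RingHom.comp_apply, RingHom.comp_apply, RingHom.comp_apply, hmap, coe_mapRingHom, map_C, aeval_C]
      exact aeval_C _ _
    · rw [RingHom.comp_apply, hmap, coe_mapRingHom, map_X, aeval_X]
      exact aeval_X _
  rw [h2]
  exact hfa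

/-- [BN0] -/
theorem st_bn0 (S : Sec κ Ω) (F : GFam (k := k) S) (a : Ω) (ha : IsAlgebraic (RatFunc k) a)
    (h : ∀ᶠ t in (F.U : Filter F.T), a ∈ (F.tri t).L) :
    a ∈ IntermediateField.adjoin (RatFunc k) {c : Ω | IsAlgebraic k c} := by
  haveI : CharZero (RatFunc k) := charZero_of_injective_algebraMap (algebraMap k (RatFunc k)).injective
  haveI : Algebra.IsAlgebraic (RatFunc k) κ := Algebra.IsAlgebraic.of_finite (RatFunc k) κ
  obtain ⟨θ₀, hθ₀⟩ := Field.exists_primitive_element (RatFunc k) κ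
  have hgen : ∀ c : κ, algebraMap κ Ω c ∈ IntermediateField.adjoin (RatFunc k) {algebraMap κ Ω θ₀} := by
    intro c
    have h1 : c ∈ IntermediateField.adjoin (RatFunc k) {θ₀} := by
      rw [hθ₀]
      exact IntermediateField.mem_top
    have h2 := IntermediateField.adjoin_map (RatFunc k) {θ₀} (IsScalarTower.toAlgHom (RatFunc k) κ Ω)
    rw [Set.image_singleton] at h2
    have h3 : algebraMap κ Ω c ∈ (IntermediateField.adjoin (RatFunc k) {θ₀}).map (IsScalarTower.toAlgHom (RatFunc k) κ Ω) :=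
      ⟨c, h1, rfl⟩
    rw [h2] at h3
    exact h3
  obtain ⟨K, hKdef⟩ : ∃ K : Subfield Ω, K = (algebraicClosure k Ω).toSubfield := ⟨_, rfl⟩
  have hK : ∀ c ∈ K, IsAlgebraic k c := by
    intro c hc
    rw [hKdef] at hc
    exact mem_algebraicClosure_iff.1 hc
  have hkK : ∀ c : k, algebraMap k Ω c ∈ K := by
    intro c
    rw [hKdef]
    exact (algebraicClosure k Ω).algebraMap_mem c
  haveI : IsAlgClosed K := by
    subst hKdef
    exact (IsAlgClosure.isAlgClosed k : IsAlgClosed (algebraicClosure k Ω))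
  obtain ⟨q, hq0, f, hf, hfx⟩ := st2_int K hkK a ha
  have hu0 : tt k Ω ≠ 0 := by
    unfold tt
    rw [Ne, map_eq_zero]
    exact RatFunc.X_ne_zero
  have hualg : IsAlgebraic κ (tt k Ω) := by
    unfold tt
    exact (isAlgebraic_algebraMap (RatFunc.X : RatFunc k)).tower_top κ
  have hqR : aeval (tt k Ω) q = algebraMap (RatFunc k) Ω (algebraMap (Polynomial k) (RatFunc k) q) := by
    rw [← RatFunc.aeval_X_left_eq_algebraMap, tt, aeval_algebraMap_apply]
  have hqne : aeval (tt k Ω) q ≠ 0 := by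
    rw [hqR, Ne, map_eq_zero]
    exact fun h0 => hq0 ((map_eq_zero_iff _ (IsFractionRing.injective (Polynomial k) (RatFunc k))).1 h0)
  have hxalg : IsAlgebraic (RatFunc k) (aeval (tt k Ω) q * a) := by
    rw [hqR]
    exact (isAlgebraic_algebraMap _).mul ha
  have hres : ∀ᶠ t in ((packOf S F K hK (algebraMap κ Ω θ₀) (isAlgebraic_algebraMap θ₀) hgen).fam.U : Filter _),
      aeval (tt k Ω) q * a ∈ (packOf S F K hK (algebraMap κ Ω θ₀) (isAlgebraic_algebraMap θ₀) hgen).W t →
      ∃ a' b : ℤ[X], BSC.ired ((packOf S F K hK (algebraMap κ Ω θ₀) (isAlgebraic_algebraMap θ₀) hgen).fam.p t) b ≠ 0 ∧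
      ((packOf S F K hK (algebraMap κ Ω θ₀) (isAlgebraic_algebraMap θ₀) hgen).W t).valuation
        (aeval (tt k Ω) q * a - aeval (tt k Ω) a' / aeval (tt k Ω) b) < 1 := by
    filter_upwards [h] with t ht hW
    haveI := (F.tri t).hp
    have hWm : ∀ x : Ω, IsAlgebraic (RatFunc k) x → (x ∈ (F.tri t).W ↔ (F.tri t).nm x ≤ 1) := fun x hx =>
      (F.tri t).gw.mem x ((alg_iff x).2 hx)
    have hxL : aeval (tt k Ω) q * a ∈ (F.tri t).L := by
      refine mul_mem ?_ ht
      rw [hqR]
      exact (F.tri t).L.algebraMap_mem _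
    obtain ⟨a', b, hb, hab⟩ := (F.tri t).gn.res _ hxL ((hWm _ hxalg).1 hW)
    refine ⟨a', b, hb, pk_lt (F.tri t).gn (F.tri t).W hWm _ ?_ hab⟩
    rw [div_eq_mul_inv]
    exact hxalg.sub ((pk_alg a').mul (pk_alg b).inv)
  obtain ⟨g, hg⟩ := BSCG.bn0 (packOf S F K hK (algebraMap κ Ω θ₀) (isAlgebraic_algebraMap θ₀) hgen) hu0 hualg _
    ((alg_iff _).2 hxalg) f hf hfx hres
  have h1 : aeval (tt k Ω) g ∈ IntermediateField.adjoin (RatFunc k) {c : Ω | IsAlgebraic k c} := by
    rw [aeval_eq_sum_range]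
    refine sum_mem fun i _ => ?_
    rw [Algebra.smul_def]
    refine mul_mem (IntermediateField.subset_adjoin (RatFunc k) _ (hK _ (g.coeff i).2)) (pow_mem ?_ i)
    unfold tt
    exact IntermediateField.algebraMap_mem _ _
  have h2 : a = (aeval (tt k Ω) q)⁻¹ * aeval (tt k Ω) g := by
    rw [← hg, ← mul_assoc, inv_mul_cancel₀ hqne, one_mul]
  rw [h2]
  refine mul_mem (inv_mem ?_) h1
  rw [hqR]
  exact IntermediateField.algebraMap_mem _ _

/-- [S1] -/
theorem st_s1 (S : Sec κ Ω) (F : GFam (k := k) S) (τ : algebraicClosure κ Ω ≃ₐ[κ] algebraicClosure κ Ω)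
    (hτ : Fix {c : Ω | IsAlgebraic k c} τ) (z : Ω) :
    ∀ᶠ t in (F.U : Filter F.T), (S.s τ z ∈ (F.tri t).W ↔ z ∈ (F.tri t).W) := by
  classical
  haveI : CharZero (RatFunc k) := charZero_of_injective_algebraMap (algebraMap k (RatFunc k)).injective
  haveI : Algebra.IsAlgebraic (RatFunc k) κ := Algebra.IsAlgebraic.of_finite (RatFunc k) κ
  obtain ⟨θ, hθ, H⟩ := st_gal (k := k) S τ z
  -- the elements of `kbar(u)` are fixed
  have hfixed : ∀ x ∈ IntermediateField.adjoin (RatFunc k) {c : Ω | IsAlgebraic k c}, S.s τ x = x := by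
    have hR : ∀ r : RatFunc k, algebraMap (RatFunc k) Ω r ∈
        ((S.s τ : Ω ≃+* Ω) : Ω →+* Ω).eqLocusField (RingHom.id Ω) := by
      intro r
      show S.s τ (algebraMap (RatFunc k) Ω r) = algebraMap (RatFunc k) Ω r
      rw [IsScalarTower.algebraMap_apply (RatFunc k) κ Ω]
      have h1 := S.res τ (algebraMap κ (algebraicClosure κ Ω) (algebraMap (RatFunc k) κ r))
      rw [AlgEquiv.commutes] at h1
      exact h1
    have h1 : IntermediateField.adjoin (RatFunc k) {c : Ω | IsAlgebraic k c} ≤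
        (((S.s τ : Ω ≃+* Ω) : Ω →+* Ω).eqLocusField (RingHom.id Ω)).toIntermediateField hR := by
      rw [IntermediateField.adjoin_le_iff]
      intro c hc
      show S.s τ c = c
      have hcκ : c ∈ algebraicClosure κ Ω :=
        mem_algebraicClosure_iff.2 ((IsAlgebraic.tower_top (RatFunc k) hc).tower_top κ)
      have h2 := S.res τ ⟨c, hcκ⟩
      rw [hτ ⟨c, hcκ⟩ hc] at h2
      exact h2
    intro x hx
    exact h1 hx
  -- the minimal polynomials over `L t`
  obtain ⟨G, hG⟩ : ∃ G : Polynomial Ω, G = (minpoly (RatFunc k) θ).map (algebraMap (RatFunc k) Ω) := ⟨_, rfl⟩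
  have hG0 : G ≠ 0 := by
    rw [hG]
    exact ((minpoly.monic hθ.isIntegral).map _).ne_zero
  have h1 : ∀ᶠ t in (F.U : Filter F.T), ∃ D ∈ {D : Polynomial Ω | D.Monic ∧ D ∣ G},
      (minpoly (F.tri t).L θ).map (algebraMap (F.tri t).L Ω) = D := by
    refine Filter.Eventually.of_forall fun t => ⟨_, ⟨(minpoly.monic (hθ.tower_top _).isIntegral).map _, ?_⟩, rfl⟩
    obtain ⟨r, hr⟩ := minpoly.dvd_map_of_isScalarTower (RatFunc k) (F.tri t).L θ
    refine ⟨r.map (algebraMap (F.tri t).L Ω), ?_⟩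
    rw [hG, ← Polynomial.map_mul, ← hr, Polynomial.map_map, ← IsScalarTower.algebraMap_eq]
  rw [Ultrafilter.eventually_exists_mem_iff (st2_finite G hG0)] at h1
  obtain ⟨μ, -, hμ⟩ := h1
  have hcoef : ∀ i, S.s τ (μ.coeff i) = μ.coeff i := by
    intro i
    apply hfixed
    have h2 : ∀ᶠ t in (F.U : Filter F.T), μ.coeff i ∈ (F.tri t).L := by
      filter_upwards [hμ] with t ht
      rw [← ht, coeff_map]
      exact ((minpoly (F.tri t).L θ).coeff i).2
    obtain ⟨t, ht⟩ := h2.exists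
    haveI := (F.tri t).hp
    exact st_bn0 S F _ ((F.tri t).gn.alg _ ht) h2
  have hmap : μ.map ((S.s τ : Ω ≃+* Ω) : Ω →+* Ω) = μ := by
    ext i
    rw [coeff_map]
    exact hcoef i
  filter_upwards [hμ] with t ht
  haveI := (F.tri t).hp
  obtain ⟨τ', hτ', hz⟩ := H (F.tri t).L (F.tri t).gn.alg (by
    have h2 : μ.eval θ = 0 := by
      rw [← ht, eval_map_algebraMap, minpoly.aeval]
    have h3 : μ.eval (S.s τ θ) = S.s τ (μ.eval θ) := by
      conv_lhs => rw [← hmap]
      rw [eval_map]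
      exact eval₂_at_apply ((S.s τ : Ω ≃+* Ω) : Ω →+* Ω) θ
    rw [← eval_map_algebraMap, ht, h3, h2, map_zero])
  rw [← hz]
  exact (F.tri t).gw.st τ' hτ' z

end BSC
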